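import Pool.Agent.Helper14.MEI4.ZF

/-!
# Project MEI (M2), w-term: the combination of the three corners, general form

`zcomb`: any finite family of vertices `g` of the state space with weights `lam g`; the costs of the
corner `k` without apex (`T k`) and with apex in the class of its position (`W k`) are bounded by
the combinations of the numbers of the vertices; one tree check per vertex. The relative deficits
are combined exactly.
-/

set_option autoImplicit false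

namespace Helper14.MEI4

open Helper93.MEI Helper78.MEI Helper80.CW Helper14.CW Pool.Agent.Helper52.MEI
open Helper60.R7 (jj ll)

/-- the combination for given relative deficits -/
theorem comb_le {ι : Type*} (s : Finset ι) {lam : ι → ℝ} (hl : ∀ g ∈ s, 0 ≤ lam g)
    {β T W : Fin 3 → ℝ} (h0 : ∀ k, 0 ≤ β k) (h1 : ∀ k, β k ≤ 1) {P D : Fin 3 → ι → ℝ}
    {M : ι → ℝ} (hT : ∀ k, T k ≤ ∑ g ∈ s, lam g * P k g)
    (hW : ∀ k, W k ≤ ∑ g ∈ s, lam g * (P k g + D k g))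
    (hM : ∀ g ∈ s, P 0 g + P 1 g + P 2 g + (β 0 * D 0 g + β 1 * D 1 g + β 2 * D 2 g) ≤ M g) :
    ((1 - β 0) * T 0 + β 0 * W 0) + ((1 - β 1) * T 1 + β 1 * W 1)
      + ((1 - β 2) * T 2 + β 2 * W 2) ≤ ∑ g ∈ s, lam g * M g := by
  have key : ∀ k, (1 - β k) * T k + β k * W k ≤ ∑ g ∈ s, lam g * (P k g + β k * D k g) := by
    intro k
    have k0 := mul_le_mul_of_nonneg_left (hT k) (sub_nonneg.2 (h1 k))
    have k1 := mul_le_mul_of_nonneg_left (hW k) (h0 k)
    rw [Finset.mul_sum] at k0 k1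
    refine (add_le_add k0 k1).trans (le_of_eq ?_)
    rw [← Finset.sum_add_distrib]
    exact Finset.sum_congr rfl fun g _ => by ring
  have q0 := key 0
  have q1 := key 1
  have q2 := key 2
  refine (add_le_add (add_le_add q0 q1) q2).trans ?_
  rw [← Finset.sum_add_distrib, ← Finset.sum_add_distrib]
  refine Finset.sum_le_sum fun g hg => ?_
  rw [← mul_add, ← mul_add]
  refine mul_le_mul_of_nonneg_left ?_ (hl g hg)
  have := hM g hg
  linarith

/-- the relative deficit of the corner `k` -/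
noncomputable def bcor (a : Fin 4 → E3) (c : ℝ) (x : E3) (k : Fin 3) : ℝ :=
  bet (Zd c (-bar a 0 x) (b3 a x)) (b3 a x (jj k)) (b3 a x (ll k))

/-- the position of the apex at the corner `k` -/
noncomputable def pcor (a : Fin 4 → E3) (x : E3) (k : Fin 3) : ℝ :=
  prt (b3 a x (jj k)) (b3 a x (ll k))

/-- **the exact combination, general form** -/
theorem zcomb {a : Fin 4 → E3} (hg : Gram4 (al a)) {x : E3} (hx : Pl a x) {X : ℕ} {c s' : ℝ}
    (hq : Qv a 0 x ≤ s') (hc0 : 0 ≤ c) (hc : c ≤ 2 / 5) (hs' : s' * 1000000 ≤ X) (hs0 : 0 ≤ s')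
    {L : List ℕ} {κ : Fin 3 → ℕ} (hκ : ∀ k, Cel (pcor a x k) (κ k) 0 0 L)
    {ι : Type*} (s : Finset ι) {lam : ι → ℝ} (hl : ∀ g ∈ s, 0 ≤ lam g)
    {P : Fin 3 → ι → ℝ} {d : ℕ → Fin 3 → ι → ℕ} {V : ι → ℕ} {Tr : ι → ZT}
    (hz : ∀ g ∈ s, zchk X (V g) (tabL 0 L fun q => d q 0 g) (tabL 0 L fun q => d q 1 g)
      (tabL 0 L fun q => d q 2 g) (Tr g) 0 0 0 1000000 1000000 1000000 = true)
    {δ : ℝ} (hδ : 0 ≤ δ) {T W : Fin 3 → ℝ}
    (hT : ∀ k, T k ≤ ∑ g ∈ s, lam g * P k g)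
    (hW : ∀ k, W k ≤ ∑ g ∈ s, lam g * (P k g + δ * (d (κ k) k g : ℝ))) :
    ((1 - bcor a c x 0) * T 0 + bcor a c x 0 * W 0)
      + ((1 - bcor a c x 1) * T 1 + bcor a c x 1 * W 1)
      + ((1 - bcor a c x 2) * T 2 + bcor a c x 2 * W 2) ≤
      ∑ g ∈ s, lam g * (P 0 g + P 1 g + P 2 g + δ * (V g : ℝ)) := by
  obtain ⟨f1, f2, f3, f4, f5⟩ := body_geo hg hx hq
  obtain ⟨z1, z2, z3⟩ := Zd_le (by linarith : c ≤ 1 / 2) f1 f2 f3 f4
  have b1 : ∀ k, bcor a c x k ≤ 1 := by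
    intro k
    fin_cases k
    · exact bet_le_one (u := b3 a x 2) (v := b3 a x 1) (by linarith)
    · exact bet_le_one (u := b3 a x 0) (v := b3 a x 2) (by linarith)
    · exact bet_le_one (u := b3 a x 0) (v := b3 a x 1) (by linarith)
  refine comb_le s hl (β := bcor a c x) (fun k => bet_nonneg _ _ _) b1
    (P := P) (D := fun k g => δ * (d (κ k) k g : ℝ)) hT hW ?_
  intro g hgs
  have t := zc_geo (hz g hgs) f1 f2 f3 f4 hc0 hc hs' hs0 f5
    (Cel_InC (f := fun q => d q 0 g) (hκ 0)) (Cel_InC (f := fun q => d q 1 g) (hκ 1))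
    (Cel_InC (f := fun q => d q 2 g) (hκ 2))
  have t' := mul_le_mul_of_nonneg_left t hδ
  have e : bcor a c x 0 * (δ * (d (κ 0) 0 g : ℝ)) + bcor a c x 1 * (δ * (d (κ 1) 1 g : ℝ))
      + bcor a c x 2 * (δ * (d (κ 2) 2 g : ℝ)) =
      δ * (bet (Zd c (-bar a 0 x) (b3 a x)) (b3 a x 2) (b3 a x 1) * (d (κ 0) 0 g : ℝ)
        + bet (Zd c (-bar a 0 x) (b3 a x)) (b3 a x 0) (b3 a x 2) * (d (κ 1) 1 g : ℝ)
        + bet (Zd c (-bar a 0 x) (b3 a x)) (b3 a x 0) (b3 a x 1) * (d (κ 2) 2 g : ℝ)) := by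
    have e0 : bcor a c x 0 = bet (Zd c (-bar a 0 x) (b3 a x)) (b3 a x 2) (b3 a x 1) := rfl
    have e1 : bcor a c x 1 = bet (Zd c (-bar a 0 x) (b3 a x)) (b3 a x 0) (b3 a x 2) := rfl
    have e2 : bcor a c x 2 = bet (Zd c (-bar a 0 x) (b3 a x)) (b3 a x 0) (b3 a x 1) := rfl
    rw [e0, e1, e2]
    ring
  rw [e]
  beta_reduce at t'
  linarith

end Helper14.MEI4
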