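import Mathlib.Data.Real.Basic
import Mathlib.Tactic.Linarith
import Mathlib.Tactic.Ring
import Mathlib.Tactic.FieldSimp
import Mathlib.Tactic.Positivity
import Mathlib.Tactic.NormNum
import Mathlib.Analysis.SpecialFunctions.Pow.Real

/-!
# Project MEI (M2), w-tables: combination of the three corners over the position of the apex

`u` = position of the apex in the simplex, `e` its deficit; the corner `k` sees it with the weight
`β k ≤ 1`, `β k (1 - u k) ≤ 2 e` and with the direction `p k` (`p (u_a + u_b) = u_a`).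
* `zc_max`: a kernel check on a split tree of the simplex bounds `Σ β k Δ k`, `Δ k` = table value
  of the cell of `p k`;
* `zc_geo`: such `u`, `e` exist for the barycentric coordinates of a point at distance at most
  `√(1 + s)` from the vertex.
-/

set_option autoImplicit false

namespace Helper14.MEI4

/-- the unit -/
def UU : ℕ := 1000000

/-- split tree of the simplex; the leaf carries a bound of the deficit -/
inductive ZT where
  | lf (e : ℕ) : ZT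
  | s0 (v : ℕ) (l r : ZT) : ZT
  | s1 (v : ℕ) (l r : ZT) : ZT
  | s2 (v : ℕ) (l r : ZT) : ZT

/-- largest table value over the direction cells which meet the range of `p`,
`p ∈ [La / (La + Hb), Ha / (Ha + Lb)]` -/
def dmx (La Ha Lb Hb : ℕ) : ℕ → List (ℕ × ℕ) → ℕ
  | _, [] => 0
  | Pl, c :: r =>
    max (if Nat.ble (Pl * (Ha + Lb)) (Ha * 1000000) && Nat.ble (La * 1000000) (c.1 * (La + Hb))
      then c.2 else 0) (dmx La Ha Lb Hb c.1 r)

/-- bound of `β` (in units) -/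
def bbt (E hmin : ℕ) : ℕ :=
  if Nat.ble hmin (2 * E) then 1000000 else 2 * E * 1000000 / hmin + 1

/-- one corner: `β Δ` in units squared -/
def crn (E La Ha Lb Hb Lk Hk : ℕ) (tb : List (ℕ × ℕ)) : ℕ :=
  bbt E (max (La + Lb) (1000000 - Hk)) * dmx La Ha Lb Hb 0 tb + 0 * Lk

/-- check of the deficit bound -/
def echk (s E l0 l1 l2 h0 h1 h2 L0 L1 L2 : ℕ) : Bool :=
  Nat.ble E 1000000 &&
  (Nat.ble (3 * ((1000000 - E) * (1000000 - E)) * (1000000 + s)) (2 * 1000000 ^ 3) ||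
    Nat.ble (8 * ((1000000 - E) * (1000000 - E)) * (1000000 + s)
      + 1000000 * ((l0 + h0) * (l0 + h0) + (l1 + h1) * (l1 + h1) + (l2 + h2) * (l2 + h2)))
      (1000000 * (4 * 1000000 ^ 2 + 4 * (min (l0 + h0) (min (l1 + h1) (l2 + h2)) * 1000000
        + (l0 + h0 - min (l0 + h0) (min (l1 + h1) (l2 + h2))) * L0
        + (l1 + h1 - min (l0 + h0) (min (l1 + h1) (l2 + h2))) * L1
        + (l2 + h2 - min (l0 + h0) (min (l1 + h1) (l2 + h2))) * L2))))

/-- check of a leaf, tightened box -/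
def lchk (s V E : ℕ) (t0 t1 t2 : List (ℕ × ℕ)) (L0 L1 L2 H0 H1 H2 : ℕ) : Bool :=
  echk s E L0 L1 L2 H0 H1 H2 L0 L1 L2 &&
  Nat.ble (crn E L2 H2 L1 H1 L0 H0 t0 + (crn E L0 H0 L2 H2 L1 H1 t1 + crn E L0 H0 L1 H1 L2 H2 t2))
    (V * 1000000)

/-- the check -/
def zchk (s V : ℕ) (t0 t1 t2 : List (ℕ × ℕ)) : ZT → ℕ → ℕ → ℕ → ℕ → ℕ → ℕ → Bool
  | ZT.lf E, l0, l1, l2, h0, h1, h2 =>
    Nat.blt 1000000 (l0 + l1 + l2) || (Nat.blt (h0 + h1 + h2) 1000000 ||
    lchk s V E t0 t1 t2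
      (max l0 (1000000 - (h1 + h2))) (max l1 (1000000 - (h0 + h2))) (max l2 (1000000 - (h0 + h1)))
      (min h0 (1000000 - (l1 + l2))) (min h1 (1000000 - (l0 + l2))) (min h2 (1000000 - (l0 + l1))))
  | ZT.s0 v l r, l0, l1, l2, h0, h1, h2 =>
    zchk s V t0 t1 t2 l l0 l1 l2 v h1 h2 && zchk s V t0 t1 t2 r v l1 l2 h0 h1 h2
  | ZT.s1 v l r, l0, l1, l2, h0, h1, h2 =>
    zchk s V t0 t1 t2 l l0 l1 l2 h0 v h2 && zchk s V t0 t1 t2 r l0 v l2 h0 h1 h2
  | ZT.s2 v l r, l0, l1, l2, h0, h1, h2 =>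
    zchk s V t0 t1 t2 l l0 l1 l2 h0 h1 v && zchk s V t0 t1 t2 r l0 l1 v h0 h1 h2

/-- `p` lies in a cell with the value `d` -/
def InC (p : ℝ) (d : ℕ) : ℕ → List (ℕ × ℕ) → Prop
  | _, [] => False
  | Pl, c :: r => ((Pl : ℝ) ≤ p * 1000000 ∧ p * 1000000 ≤ c.1 ∧ d = c.2) ∨ InC p d c.1 r

/-- every `p` in the range of the table lies in a cell -/
theorem InC_exists {p : ℝ} : ∀ {L : List (ℕ × ℕ)} {Pl : ℕ} (_ : L ≠ []) (_ : (Pl : ℝ) ≤ p * 1000000)
    (_ : p * 1000000 ≤ ((L.getLastD (0, 0)).1 : ℝ)), ∃ d, InC p d Pl L := by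
  intro L
  induction L with
  | nil => intro Pl h; exact absurd rfl h
  | cons c r ih =>
    intro Pl _ h1 h2
    rcases le_total (p * 1000000) (c.1 : ℝ) with h3 | h3
    · exact ⟨c.2, Or.inl ⟨h1, h3, rfl⟩⟩
    · cases r with
      | nil => exact ⟨c.2, Or.inl ⟨h1, h2, rfl⟩⟩
      | cons c' r' =>
        obtain ⟨d, hd⟩ := ih (Pl := c.1) (by simp) h3 (by simpa using h2)
        exact ⟨d, Or.inr hd⟩

theorem dmx_ge {p ua ub : ℝ} (hp0 : 0 ≤ p) (hp1 : p ≤ 1) (hpu : p * ub = (1 - p) * ua)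
    {La Ha Lb Hb : ℕ} (h1 : (La : ℝ) ≤ ua * 1000000) (h2 : ua * 1000000 ≤ Ha)
    (h3 : (Lb : ℝ) ≤ ub * 1000000) (h4 : ub * 1000000 ≤ Hb) {d : ℕ} :
    ∀ {L : List (ℕ × ℕ)} {Pl : ℕ}, InC p d Pl L → d ≤ dmx La Ha Lb Hb Pl L := by
  have hq : 0 ≤ 1 - p := sub_nonneg.2 hp1
  have k1 : p * (Ha + Lb) ≤ Ha := by
    have a1 := mul_le_mul_of_nonneg_left h3 hp0
    have a2 := mul_le_mul_of_nonneg_left h2 hq
    have a3 : p * (ub * 1000000) = (1 - p) * (ua * 1000000) := by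
      linear_combination 1000000 * hpu
    linarith
  have k2 : (La : ℝ) ≤ p * (La + Hb) := by
    have a1 := mul_le_mul_of_nonneg_left h4 hp0
    have a2 := mul_le_mul_of_nonneg_left h1 hq
    have a3 : p * (ub * 1000000) = (1 - p) * (ua * 1000000) := by
      linear_combination 1000000 * hpu
    linarith
  intro L
  induction L with
  | nil => intro Pl h; exact h.elim
  | cons c r ih =>
    intro Pl h
    rcases h with ⟨a1, a2, a3⟩ | h
    · have c1 : Pl * (Ha + Lb) ≤ Ha * 1000000 := by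
        have : (Pl : ℝ) * (Ha + Lb) ≤ Ha * 1000000 := by
          have b1 := mul_le_mul_of_nonneg_right a1 (by positivity : (0 : ℝ) ≤ (Ha : ℝ) + (Lb : ℝ))
          have b2 := mul_le_mul_of_nonneg_left k1 (by norm_num : (0 : ℝ) ≤ 1000000)
          linarith
        exact_mod_cast this
      have c2 : La * 1000000 ≤ c.1 * (La + Hb) := by
        have : (La : ℝ) * 1000000 ≤ c.1 * (La + Hb) := by
          have b1 := mul_le_mul_of_nonneg_right a2 (by positivity : (0 : ℝ) ≤ (La : ℝ) + Hb)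
          have b2 := mul_le_mul_of_nonneg_left k2 (by norm_num : (0 : ℝ) ≤ 1000000)
          linarith
        exact_mod_cast this
      unfold dmx
      rw [Nat.ble_eq_true_of_le c1, Nat.ble_eq_true_of_le c2, a3]
      simp
    · exact (ih h).trans (le_max_right (α := ℕ) _ _)

theorem bbt_ge {β e uk : ℝ} (hβ1 : β ≤ 1) (hβ : 0 ≤ β) (hb : β * (1 - uk) ≤ 2 * e) {E hmin : ℕ}
    (he : e * 1000000 ≤ E) (hh : (hmin : ℝ) ≤ (1 - uk) * 1000000) :
    β * 1000000 ≤ bbt E hmin := by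
  unfold bbt
  split_ifs with h
  · push_cast
    linarith
  · have h0 : 2 * E < hmin := by
      by_contra h1
      push Not at h1
      exact h (Nat.ble_eq_true_of_le h1)
    have hp : 0 < hmin := by omega
    have h1 : 2 * E * 1000000 < hmin * (2 * E * 1000000 / hmin + 1) := by
      have := Nat.lt_mul_div_succ (2 * E * 1000000) hp
      exact this
    have h2 : (2 * E * 1000000 : ℝ) < hmin * ((2 * E * 1000000 / hmin + 1 : ℕ) : ℝ) := by
      exact_mod_cast h1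
    have h3 : β * 1000000 * hmin ≤ 2 * E * 1000000 := by
      have a1 := mul_le_mul_of_nonneg_left hh hβ
      have a2 := mul_le_mul_of_nonneg_right hb (by norm_num : (0 : ℝ) ≤ 1000000)
      nlinarith
    have hp' : (0 : ℝ) < hmin := by exact_mod_cast hp
    by_contra h4
    push Not at h4
    have h5 := mul_lt_mul_of_pos_left h4 hp'
    linarith

theorem crn_ge {β e p ua ub uk : ℝ} (hβ1 : β ≤ 1) (hβ : 0 ≤ β) (hb : β * (1 - uk) ≤ 2 * e)
    (hs : ua + ub + uk = 1)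
    (hp0 : 0 ≤ p) (hp1 : p ≤ 1) (hpu : p * ub = (1 - p) * ua) {E La Ha Lb Hb Lk Hk : ℕ}
    (he : e * 1000000 ≤ E) (h1 : (La : ℝ) ≤ ua * 1000000) (h2 : ua * 1000000 ≤ Ha)
    (h3 : (Lb : ℝ) ≤ ub * 1000000) (h4 : ub * 1000000 ≤ Hb) (h6 : uk * 1000000 ≤ Hk)
    {tb : List (ℕ × ℕ)} {d : ℕ} (hd : InC p d 0 tb) :
    β * d * 1000000 ≤ crn E La Ha Lb Hb Lk Hk tb := by
  have k1 := dmx_ge hp0 hp1 hpu h1 h2 h3 h4 hd
  have k2 : ((max (La + Lb) (1000000 - Hk) : ℕ) : ℝ) ≤ (1 - uk) * 1000000 := by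
    have a1 : ((La + Lb : ℕ) : ℝ) ≤ (1 - uk) * 1000000 := by
      push_cast
      linarith
    have a2 : ((1000000 - Hk : ℕ) : ℝ) ≤ (1 - uk) * 1000000 := by
      rcases le_total Hk 1000000 with h | h
      · rw [Nat.cast_sub h]
        push_cast
        linarith
      · rw [Nat.sub_eq_zero_of_le h]
        push_cast at a1 ⊢
        have : (0 : ℝ) ≤ La + Lb := by positivity
        linarith
    rcases le_total (La + Lb) (1000000 - Hk) with h | h
    · rw [max_eq_right h]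
      exact a2
    · rw [max_eq_left h]
      exact a1
  have k3 := bbt_ge hβ1 hβ hb he k2
  unfold crn
  push_cast at k3 ⊢
  have k1' : (d : ℝ) ≤ dmx La Ha Lb Hb 0 tb := by exact_mod_cast k1
  have k4 := mul_le_mul_of_nonneg_left k1' (mul_nonneg hβ (by norm_num : (0 : ℝ) ≤ 1000000))
  have k5 := mul_le_mul_of_nonneg_right k3
    (by positivity : (0 : ℝ) ≤ (dmx La Ha Lb Hb 0 tb : ℝ))
  linarith

/-- the deficit bound -/
theorem echk_ge {e s' : ℝ} {u : Fin 3 → ℝ} (hu : ∀ k, 0 ≤ u k) (hs : u 0 + u 1 + u 2 = 1)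
    {s E l0 l1 l2 h0 h1 h2 L0 L1 L2 : ℕ} (hs' : s' * 1000000 ≤ s) (hs0 : 0 ≤ s')
    (he1 : e ≤ 1) (hmt : 1 - (u 0 * u 1 + u 1 * u 2 + u 0 * u 2) ≤ (1 - e) ^ 2 * (1 + s'))
    (g0 : (L0 : ℝ) ≤ u 0 * 1000000) (g1 : (L1 : ℝ) ≤ u 1 * 1000000)
    (g2 : (L2 : ℝ) ≤ u 2 * 1000000)
    (h : echk s E l0 l1 l2 h0 h1 h2 L0 L1 L2 = true) : e * 1000000 ≤ E := by
  unfold echk at h
  rw [Bool.and_eq_true, Bool.or_eq_true] at h
  obtain ⟨hE, h⟩ := h
  have hE := Nat.le_of_ble_eq_true hE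
  have hE' : (E : ℝ) ≤ 1000000 := by exact_mod_cast hE
  by_contra hc
  push Not at hc
  -- `(1 - E)^2 (1 + s) ≤ mt` is contradictory
  have key : ((1000000 - E : ℕ) : ℝ) ^ 2 * (1000000 + s) ≤
      (1 - (u 0 * u 1 + u 1 * u 2 + u 0 * u 2)) * 1000000 ^ 3 → False := by
    intro hk
    rw [Nat.cast_sub hE] at hk
    push_cast at hk
    have a1 : (1 - e) * 1000000 < 1000000 - E := by linarith
    have a0 : 0 ≤ (1 - e) * 1000000 := mul_nonneg (by linarith) (by norm_num)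
    have a2 : ((1 - e) * 1000000) ^ 2 < (1000000 - E) ^ 2 := pow_lt_pow_left₀ a1 a0 (by norm_num)
    have a3 : (1 + s') * 1000000 ≤ 1000000 + s := by linarith
    have a4 : 0 < (1 + s') * 1000000 := by positivity
    have a5 : ((1 - e) * 1000000) ^ 2 * ((1 + s') * 1000000) < (1000000 - E) ^ 2 * (1000000 + s) :=
      lt_of_lt_of_le (mul_lt_mul_of_pos_right a2 a4)
        (mul_le_mul_of_nonneg_left a3 (sq_nonneg _))
    have a6 : ((1 - e) * 1000000) ^ 2 * ((1 + s') * 1000000) =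
        (1 - e) ^ 2 * (1 + s') * 1000000 ^ 3 := by ring
    have a7 := mul_le_mul_of_nonneg_right hmt (by norm_num : (0 : ℝ) ≤ 1000000 ^ 3)
    linarith
  apply key
  rcases h with h | h
  · have h := Nat.le_of_ble_eq_true h
    have h' : (3 : ℝ) * (((1000000 - E : ℕ) : ℝ) * ((1000000 - E : ℕ) : ℝ)) * (1000000 + s) ≤
        2 * 1000000 ^ 3 := by exact_mod_cast h
    have k : u 0 * u 1 + u 1 * u 2 + u 0 * u 2 ≤ 1 / 3 := by
      nlinarith [sq_nonneg (u 0 - u 1), sq_nonneg (u 1 - u 2), sq_nonneg (u 0 - u 2)]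
    nlinarith
  · have h := Nat.le_of_ble_eq_true h
    obtain ⟨m, hm⟩ : ∃ m, m = min (l0 + h0) (min (l1 + h1) (l2 + h2)) := ⟨_, rfl⟩
    rw [← hm] at h
    have m0 : m ≤ l0 + h0 := by rw [hm]; exact min_le_left _ _
    have m1 : m ≤ l1 + h1 := by
      rw [hm]; exact (min_le_right _ _).trans (min_le_left _ _)
    have m2 : m ≤ l2 + h2 := by
      rw [hm]; exact (min_le_right _ _).trans (min_le_right _ _)
    obtain ⟨c0, hc0⟩ : ∃ c, l0 + h0 = m + c := ⟨l0 + h0 - m, by omega⟩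
    obtain ⟨c1, hc1⟩ : ∃ c, l1 + h1 = m + c := ⟨l1 + h1 - m, by omega⟩
    obtain ⟨c2, hc2⟩ : ∃ c, l2 + h2 = m + c := ⟨l2 + h2 - m, by omega⟩
    rw [hc0, hc1, hc2, Nat.add_sub_cancel_left, Nat.add_sub_cancel_left,
      Nat.add_sub_cancel_left] at h
    have h' : (8 : ℝ) * (((1000000 - E : ℕ) : ℝ) * ((1000000 - E : ℕ) : ℝ)) * (1000000 + s)
        + 1000000 * ((m + c0) * (m + c0) + (m + c1) * (m + c1) + (m + c2) * (m + c2)) ≤
        1000000 * (4 * 1000000 ^ 2 + 4 * (m * 1000000 + c0 * L0 + c1 * L1 + c2 * L2)) := by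
      exact_mod_cast h
    have q0 := mul_le_mul_of_nonneg_left g0 (by positivity : (0 : ℝ) ≤ (c0 : ℝ))
    have q1 := mul_le_mul_of_nonneg_left g1 (by positivity : (0 : ℝ) ≤ (c1 : ℝ))
    have q2 := mul_le_mul_of_nonneg_left g2 (by positivity : (0 : ℝ) ≤ (c2 : ℝ))
    -- tangent
    have t : 0 ≤ (2 * (u 0 * 1000000) - (m + c0)) ^ 2 + (2 * (u 1 * 1000000) - (m + c1)) ^ 2
        + (2 * (u 2 * 1000000) - (m + c2)) ^ 2 := by positivity
    have e1 : (1 - (u 0 * u 1 + u 1 * u 2 + u 0 * u 2)) * 2 =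
        1 + (u 0 ^ 2 + u 1 ^ 2 + u 2 ^ 2) := by
      have : (u 0 + u 1 + u 2) ^ 2 = 1 := by rw [hs]; norm_num
      linear_combination -this
    have e2 : (m : ℝ) * 1000000 = m * (u 0 * 1000000) + m * (u 1 * 1000000)
        + m * (u 2 * 1000000) := by
      linear_combination (-(m : ℝ) * 1000000) * hs
    nlinarith

/-- **soundness of the tree** -/
theorem zchk_sound {e s' : ℝ} {u β p : Fin 3 → ℝ} (hu : ∀ k, 0 ≤ u k)
    (hs : u 0 + u 1 + u 2 = 1) {s V : ℕ} (hs' : s' * 1000000 ≤ s) (hs0 : 0 ≤ s') (he1 : e ≤ 1)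
    (hmt : 1 - (u 0 * u 1 + u 1 * u 2 + u 0 * u 2) ≤ (1 - e) ^ 2 * (1 + s'))
    (hβ0 : ∀ k, 0 ≤ β k) (hβ1 : ∀ k, β k ≤ 1) (hβ : ∀ k, β k * (1 - u k) ≤ 2 * e)
    (hp0 : ∀ k, 0 ≤ p k) (hp1 : ∀ k, p k ≤ 1)
    (q0 : p 0 * u 1 = (1 - p 0) * u 2) (q1 : p 1 * u 2 = (1 - p 1) * u 0)
    (q2 : p 2 * u 1 = (1 - p 2) * u 0)
    {t0 t1 t2 : List (ℕ × ℕ)} {d0 d1 d2 : ℕ} (i0 : InC (p 0) d0 0 t0) (i1 : InC (p 1) d1 0 t1)
    (i2 : InC (p 2) d2 0 t2) :
    ∀ (T : ZT) {l0 l1 l2 h0 h1 h2 : ℕ}, zchk s V t0 t1 t2 T l0 l1 l2 h0 h1 h2 = true →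
      (l0 : ℝ) ≤ u 0 * 1000000 → (l1 : ℝ) ≤ u 1 * 1000000 → (l2 : ℝ) ≤ u 2 * 1000000 →
      u 0 * 1000000 ≤ h0 → u 1 * 1000000 ≤ h1 → u 2 * 1000000 ≤ h2 →
      β 0 * d0 + β 1 * d1 + β 2 * d2 ≤ V := by
  intro T
  induction T with
  | lf E =>
    intro l0 l1 l2 h0 h1 h2 hk a0 a1 a2 b0 b1 b2
    unfold zchk at hk
    rw [Bool.or_eq_true, Bool.or_eq_true] at hk
    rcases hk with hk | hk | hk
    · exfalso
      have hk := Nat.le_of_ble_eq_true hk
      have : (1000000 : ℝ) + 1 ≤ l0 + l1 + l2 := by exact_mod_cast hk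
      nlinarith
    · exfalso
      have hk := Nat.le_of_ble_eq_true hk
      have : (h0 : ℝ) + h1 + h2 + 1 ≤ 1000000 := by exact_mod_cast hk
      nlinarith
    · unfold lchk at hk
      rw [Bool.and_eq_true] at hk
      obtain ⟨ke, kv⟩ := hk
      have lo : ∀ {l a b : ℕ} {x y z : ℝ}, x + y + z = 1 → (l : ℝ) ≤ x * 1000000 →
          y * 1000000 ≤ a → z * 1000000 ≤ b →
          ((max l (1000000 - (a + b)) : ℕ) : ℝ) ≤ x * 1000000 := by
        intro l a b x y z hxyz hl ha hb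
        rcases le_total l (1000000 - (a + b)) with h | h
        · rw [max_eq_right h]
          rcases le_total (a + b) 1000000 with h' | h'
          · rw [Nat.cast_sub h']
            push_cast
            linarith
          · rw [Nat.sub_eq_zero_of_le h']
            have : (0 : ℝ) ≤ l := by positivity
            push_cast
            linarith
        · rw [max_eq_left h]
          exact hl
      have hi : ∀ {l a b : ℕ} {x y z : ℝ}, x + y + z = 1 → x * 1000000 ≤ l →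
          (a : ℝ) ≤ y * 1000000 → (b : ℝ) ≤ z * 1000000 →
          x * 1000000 ≤ ((min l (1000000 - (a + b)) : ℕ) : ℝ) := by
        intro l a b x y z hxyz hl ha hb
        rcases le_total l (1000000 - (a + b)) with h | h
        · rw [min_eq_left h]
          exact hl
        · rw [min_eq_right h]
          rcases le_total (a + b) 1000000 with h' | h'
          · rw [Nat.cast_sub h']
            push_cast
            linarith
          · have h'' : (1000000 : ℝ) ≤ a + b := by exact_mod_cast h'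
            rw [Nat.sub_eq_zero_of_le h']
            push_cast
            linarith
      have s0 : u 0 + u 1 + u 2 = 1 := hs
      have s1 : u 1 + u 0 + u 2 = 1 := by linarith
      have s2 : u 2 + u 0 + u 1 = 1 := by linarith
      have L0 := lo s0 a0 b1 b2
      have L1 := lo s1 a1 b0 b2
      have L2 := lo s2 a2 b0 b1
      have H0 := hi s0 b0 a1 a2
      have H1 := hi s1 b1 a0 a2
      have H2 := hi s2 b2 a0 a1
      have he := echk_ge hu hs hs' hs0 he1 hmt L0 L1 L2 ke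
      have c0 := crn_ge (Lk := max l0 (1000000 - (h1 + h2))) (hβ1 0) (hβ0 0) (hβ 0)
        (by linarith : u 2 + u 1 + u 0 = 1) (hp0 0) (hp1 0) q0 he L2 H2 L1 H1 H0 i0
      have c1 := crn_ge (Lk := max l1 (1000000 - (h0 + h2))) (hβ1 1) (hβ0 1) (hβ 1)
        (by linarith : u 0 + u 2 + u 1 = 1) (hp0 1) (hp1 1) q1 he L0 H0 L2 H2 H1 i1
      have c2 := crn_ge (Lk := max l2 (1000000 - (h0 + h1))) (hβ1 2) (hβ0 2) (hβ 2)
        (by linarith : u 0 + u 1 + u 2 = 1) (hp0 2) (hp1 2) q2 he L0 H0 L1 H1 H2 i2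
      have kv := Nat.le_of_ble_eq_true kv
      have kv' : ((crn E (max l2 (1000000 - (h0 + h1))) (min h2 (1000000 - (l0 + l1)))
          (max l1 (1000000 - (h0 + h2))) (min h1 (1000000 - (l0 + l2)))
          (max l0 (1000000 - (h1 + h2))) (min h0 (1000000 - (l1 + l2))) t0 : ℕ) : ℝ)
          + (((crn E (max l0 (1000000 - (h1 + h2))) (min h0 (1000000 - (l1 + l2)))
          (max l2 (1000000 - (h0 + h1))) (min h2 (1000000 - (l0 + l1)))
          (max l1 (1000000 - (h0 + h2))) (min h1 (1000000 - (l0 + l2))) t1 : ℕ) : ℝ)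
          + ((crn E (max l0 (1000000 - (h1 + h2))) (min h0 (1000000 - (l1 + l2)))
          (max l1 (1000000 - (h0 + h2))) (min h1 (1000000 - (l0 + l2)))
          (max l2 (1000000 - (h0 + h1))) (min h2 (1000000 - (l0 + l1))) t2 : ℕ) : ℝ)) ≤
          V * 1000000 := by exact_mod_cast kv
      linarith
  | s0 v l r ihl ihr =>
    intro l0 l1 l2 h0 h1 h2 hk a0 a1 a2 b0 b1 b2
    unfold zchk at hk
    rw [Bool.and_eq_true] at hk
    rcases le_total (u 0 * 1000000) (v : ℝ) with h | h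
    · exact ihl hk.1 a0 a1 a2 h b1 b2
    · exact ihr hk.2 h a1 a2 b0 b1 b2
  | s1 v l r ihl ihr =>
    intro l0 l1 l2 h0 h1 h2 hk a0 a1 a2 b0 b1 b2
    unfold zchk at hk
    rw [Bool.and_eq_true] at hk
    rcases le_total (u 1 * 1000000) (v : ℝ) with h | h
    · exact ihl hk.1 a0 a1 a2 b0 h b2
    · exact ihr hk.2 a0 h a2 b0 b1 b2
  | s2 v l r ihl ihr =>
    intro l0 l1 l2 h0 h1 h2 hk a0 a1 a2 b0 b1 b2
    unfold zchk at hk
    rw [Bool.and_eq_true] at hk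
    rcases le_total (u 2 * 1000000) (v : ℝ) with h | h
    · exact ihl hk.1 a0 a1 a2 b0 b1 h
    · exact ihr hk.2 a0 a1 h b0 b1 b2

/-- **the combination of the three corners** -/
theorem zc_max {s V : ℕ} {t0 t1 t2 : List (ℕ × ℕ)} {T : ZT}
    (hT : zchk s V t0 t1 t2 T 0 0 0 1000000 1000000 1000000 = true)
    {e s' : ℝ} {u β p : Fin 3 → ℝ} (hu : ∀ k, 0 ≤ u k)
    (hs : u 0 + u 1 + u 2 = 1) (hs' : s' * 1000000 ≤ s) (hs0 : 0 ≤ s') (he1 : e ≤ 1)
    (hmt : 1 - (u 0 * u 1 + u 1 * u 2 + u 0 * u 2) ≤ (1 - e) ^ 2 * (1 + s'))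
    (hβ0 : ∀ k, 0 ≤ β k) (hβ1 : ∀ k, β k ≤ 1) (hβ : ∀ k, β k * (1 - u k) ≤ 2 * e)
    (hp0 : ∀ k, 0 ≤ p k) (hp1 : ∀ k, p k ≤ 1)
    (q0 : p 0 * u 1 = (1 - p 0) * u 2) (q1 : p 1 * u 2 = (1 - p 1) * u 0)
    (q2 : p 2 * u 1 = (1 - p 2) * u 0)
    {d0 d1 d2 : ℕ} (i0 : InC (p 0) d0 0 t0) (i1 : InC (p 1) d1 0 t1) (i2 : InC (p 2) d2 0 t2) :
    β 0 * d0 + β 1 * d1 + β 2 * d2 ≤ V := by
  refine zchk_sound hu hs hs' hs0 he1 hmt hβ0 hβ1 hβ hp0 hp1 q0 q1 q2 i0 i1 i2 T hT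
    ?_ ?_ ?_ ?_ ?_ ?_
  · push_cast; exact mul_nonneg (hu 0) (by norm_num)
  · push_cast; exact mul_nonneg (hu 1) (by norm_num)
  · push_cast; exact mul_nonneg (hu 2) (by norm_num)
  · push_cast; have := hu 1; have := hu 2; nlinarith
  · push_cast; have := hu 0; have := hu 2; nlinarith
  · push_cast; have := hu 0; have := hu 1; nlinarith

end Helper14.MEI4
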