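import Pool.Agent.Helper14.MEI4.ZG

/-!
# Project MEI (M2), w-tables: combination of the corners, class values with a constant part

As `ZC`, but the class of a position carries two numbers `e`, `d` (value without apex, difference
with apex): `zd_max`, `zd_geo` bound `Σ (e k + β k d k)`.
-/

set_option autoImplicit false

namespace Helper14.MEI4

/-- largest value over the direction cells which meet the range of `p`, weight `b` of the apex -/
def dmx2 (La Ha Lb Hb b : ℕ) : ℕ → List (ℕ × ℕ × ℕ) → ℕ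
  | _, [] => 0
  | Pl, c :: r =>
    max (if Nat.ble (Pl * (Ha + Lb)) (Ha * 1000000) && Nat.ble (La * 1000000) (c.1 * (La + Hb))
      then c.2.1 * 1000000 + b * c.2.2 else 0) (dmx2 La Ha Lb Hb b c.1 r)

/-- one corner, in units squared -/
def crn2 (E La Ha Lb Hb Hk : ℕ) (tb : List (ℕ × ℕ × ℕ)) : ℕ :=
  dmx2 La Ha Lb Hb (bbt E (max (La + Lb) (1000000 - Hk))) 0 tb

/-- check of a leaf, tightened box -/
def lchk2 (s V E : ℕ) (t0 t1 t2 : List (ℕ × ℕ × ℕ)) (L0 L1 L2 H0 H1 H2 : ℕ) : Bool :=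
  echk s E L0 L1 L2 H0 H1 H2 L0 L1 L2 &&
  Nat.ble (crn2 E L2 H2 L1 H1 H0 t0 + (crn2 E L0 H0 L2 H2 H1 t1 + crn2 E L0 H0 L1 H1 H2 t2))
    (V * 1000000)

/-- the check -/
def zchk2 (s V : ℕ) (t0 t1 t2 : List (ℕ × ℕ × ℕ)) : ZT → ℕ → ℕ → ℕ → ℕ → ℕ → ℕ → Bool
  | ZT.lf E, l0, l1, l2, h0, h1, h2 =>
    Nat.blt 1000000 (l0 + l1 + l2) || (Nat.blt (h0 + h1 + h2) 1000000 ||
    lchk2 s V E t0 t1 t2
      (max l0 (1000000 - (h1 + h2))) (max l1 (1000000 - (h0 + h2))) (max l2 (1000000 - (h0 + h1)))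
      (min h0 (1000000 - (l1 + l2))) (min h1 (1000000 - (l0 + l2))) (min h2 (1000000 - (l0 + l1))))
  | ZT.s0 v l r, l0, l1, l2, h0, h1, h2 =>
    zchk2 s V t0 t1 t2 l l0 l1 l2 v h1 h2 && zchk2 s V t0 t1 t2 r v l1 l2 h0 h1 h2
  | ZT.s1 v l r, l0, l1, l2, h0, h1, h2 =>
    zchk2 s V t0 t1 t2 l l0 l1 l2 h0 v h2 && zchk2 s V t0 t1 t2 r l0 v l2 h0 h1 h2
  | ZT.s2 v l r, l0, l1, l2, h0, h1, h2 =>
    zchk2 s V t0 t1 t2 l l0 l1 l2 h0 h1 v && zchk2 s V t0 t1 t2 r l0 l1 v h0 h1 h2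

/-- `p` lies in a cell with the values `e`, `d` -/
def InC2 (p : ℝ) (e d : ℕ) : ℕ → List (ℕ × ℕ × ℕ) → Prop
  | _, [] => False
  | Pl, c :: r => ((Pl : ℝ) ≤ p * 1000000 ∧ p * 1000000 ≤ c.1 ∧ e = c.2.1 ∧ d = c.2.2) ∨
      InC2 p e d c.1 r

theorem dmx2_ge {p ua ub : ℝ} (hp0 : 0 ≤ p) (hp1 : p ≤ 1) (hpu : p * ub = (1 - p) * ua)
    {La Ha Lb Hb b : ℕ} (h1 : (La : ℝ) ≤ ua * 1000000) (h2 : ua * 1000000 ≤ Ha)
    (h3 : (Lb : ℝ) ≤ ub * 1000000) (h4 : ub * 1000000 ≤ Hb) {e d : ℕ} :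
    ∀ {L : List (ℕ × ℕ × ℕ)} {Pl : ℕ}, InC2 p e d Pl L →
      e * 1000000 + b * d ≤ dmx2 La Ha Lb Hb b Pl L := by
  have hq : 0 ≤ 1 - p := sub_nonneg.2 hp1
  have k1 : p * (Ha + Lb) ≤ Ha := by
    have a1 := mul_le_mul_of_nonneg_left h3 hp0
    have a2 := mul_le_mul_of_nonneg_left h2 hq
    have a3 : p * (ub * 1000000) = (1 - p) * (ua * 1000000) := by
      linear_combination 1000000 * hpu
    linarith
  have k2 : (La : ℝ) ≤ p * (La + Hb) := by
    have a1 := mul_le_mul_of_nonneg_left h4 hp0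
    have a2 := mul_le_mul_of_nonneg_left h1 hq
    have a3 : p * (ub * 1000000) = (1 - p) * (ua * 1000000) := by
      linear_combination 1000000 * hpu
    linarith
  intro L
  induction L with
  | nil => intro Pl h; exact h.elim
  | cons c r ih =>
    intro Pl h
    rcases h with ⟨a1, a2, a3, a4⟩ | h
    · have c1 : Pl * (Ha + Lb) ≤ Ha * 1000000 := by
        have : (Pl : ℝ) * (Ha + Lb) ≤ Ha * 1000000 := by
          have b1 := mul_le_mul_of_nonneg_right a1 (by positivity : (0 : ℝ) ≤ (Ha : ℝ) + (Lb : ℝ))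
          have b2 := mul_le_mul_of_nonneg_left k1 (by norm_num : (0 : ℝ) ≤ 1000000)
          linarith
        exact_mod_cast this
      have c2 : La * 1000000 ≤ c.1 * (La + Hb) := by
        have : (La : ℝ) * 1000000 ≤ c.1 * (La + Hb) := by
          have b1 := mul_le_mul_of_nonneg_right a2 (by positivity : (0 : ℝ) ≤ (La : ℝ) + Hb)
          have b2 := mul_le_mul_of_nonneg_left k2 (by norm_num : (0 : ℝ) ≤ 1000000)
          linarith
        exact_mod_cast this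
      unfold dmx2
      rw [Nat.ble_eq_true_of_le c1, Nat.ble_eq_true_of_le c2, a3, a4]
      simp
    · exact (ih h).trans (le_max_right (α := ℕ) _ _)

theorem crn2_ge {β e p ua ub uk : ℝ} (hβ1 : β ≤ 1) (hβ : 0 ≤ β) (hb : β * (1 - uk) ≤ 2 * e)
    (hs : ua + ub + uk = 1)
    (hp0 : 0 ≤ p) (hp1 : p ≤ 1) (hpu : p * ub = (1 - p) * ua) {E La Ha Lb Hb Hk : ℕ}
    (he : e * 1000000 ≤ E) (h1 : (La : ℝ) ≤ ua * 1000000) (h2 : ua * 1000000 ≤ Ha)
    (h3 : (Lb : ℝ) ≤ ub * 1000000) (h4 : ub * 1000000 ≤ Hb) (h6 : uk * 1000000 ≤ Hk)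
    {tb : List (ℕ × ℕ × ℕ)} {c d : ℕ} (hd : InC2 p c d 0 tb) :
    (c + β * d) * 1000000 ≤ crn2 E La Ha Lb Hb Hk tb := by
  have k1 := dmx2_ge (b := bbt E (max (La + Lb) (1000000 - Hk))) hp0 hp1 hpu h1 h2 h3 h4 hd
  have k2 : ((max (La + Lb) (1000000 - Hk) : ℕ) : ℝ) ≤ (1 - uk) * 1000000 := by
    have a1 : ((La + Lb : ℕ) : ℝ) ≤ (1 - uk) * 1000000 := by
      push_cast
      linarith
    have a2 : ((1000000 - Hk : ℕ) : ℝ) ≤ (1 - uk) * 1000000 := by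
      rcases le_total Hk 1000000 with h | h
      · rw [Nat.cast_sub h]
        push_cast
        linarith
      · rw [Nat.sub_eq_zero_of_le h]
        push_cast at a1 ⊢
        have : (0 : ℝ) ≤ La + Lb := by positivity
        linarith
    rcases le_total (La + Lb) (1000000 - Hk) with h | h
    · rw [max_eq_right h]
      exact a2
    · rw [max_eq_left h]
      exact a1
  have k3 := bbt_ge hβ1 hβ hb he k2
  unfold crn2
  have k1' : (c : ℝ) * 1000000 + (bbt E (max (La + Lb) (1000000 - Hk)) : ℝ) * d ≤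
      (dmx2 La Ha Lb Hb (bbt E (max (La + Lb) (1000000 - Hk))) 0 tb : ℝ) := by
    exact_mod_cast k1
  have k4 := mul_le_mul_of_nonneg_right k3 (by positivity : (0 : ℝ) ≤ (d : ℝ))
  linarith

/-- **soundness of the tree** -/
theorem zchk2_sound {e s' : ℝ} {u β p : Fin 3 → ℝ} (hu : ∀ k, 0 ≤ u k)
    (hs : u 0 + u 1 + u 2 = 1) {s V : ℕ} (hs' : s' * 1000000 ≤ s) (hs0 : 0 ≤ s') (he1 : e ≤ 1)
    (hmt : 1 - (u 0 * u 1 + u 1 * u 2 + u 0 * u 2) ≤ (1 - e) ^ 2 * (1 + s'))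
    (hβ0 : ∀ k, 0 ≤ β k) (hβ1 : ∀ k, β k ≤ 1) (hβ : ∀ k, β k * (1 - u k) ≤ 2 * e)
    (hp0 : ∀ k, 0 ≤ p k) (hp1 : ∀ k, p k ≤ 1)
    (q0 : p 0 * u 1 = (1 - p 0) * u 2) (q1 : p 1 * u 2 = (1 - p 1) * u 0)
    (q2 : p 2 * u 1 = (1 - p 2) * u 0)
    {t0 t1 t2 : List (ℕ × ℕ × ℕ)} {e0 e1 e2 d0 d1 d2 : ℕ} (i0 : InC2 (p 0) e0 d0 0 t0)
    (i1 : InC2 (p 1) e1 d1 0 t1) (i2 : InC2 (p 2) e2 d2 0 t2) :
    ∀ (T : ZT) {l0 l1 l2 h0 h1 h2 : ℕ}, zchk2 s V t0 t1 t2 T l0 l1 l2 h0 h1 h2 = true →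
      (l0 : ℝ) ≤ u 0 * 1000000 → (l1 : ℝ) ≤ u 1 * 1000000 → (l2 : ℝ) ≤ u 2 * 1000000 →
      u 0 * 1000000 ≤ h0 → u 1 * 1000000 ≤ h1 → u 2 * 1000000 ≤ h2 →
      (e0 + β 0 * d0) + (e1 + β 1 * d1) + (e2 + β 2 * d2) ≤ V := by
  intro T
  induction T with
  | lf E =>
    intro l0 l1 l2 h0 h1 h2 hk a0 a1 a2 b0 b1 b2
    unfold zchk2 at hk
    rw [Bool.or_eq_true, Bool.or_eq_true] at hk
    rcases hk with hk | hk | hk
    · exfalso
      have hk := Nat.le_of_ble_eq_true hk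
      have : (1000000 : ℝ) + 1 ≤ l0 + l1 + l2 := by exact_mod_cast hk
      nlinarith
    · exfalso
      have hk := Nat.le_of_ble_eq_true hk
      have : (h0 : ℝ) + h1 + h2 + 1 ≤ 1000000 := by exact_mod_cast hk
      nlinarith
    · unfold lchk2 at hk
      rw [Bool.and_eq_true] at hk
      obtain ⟨ke, kv⟩ := hk
      have lo : ∀ {l a b : ℕ} {x y z : ℝ}, x + y + z = 1 → (l : ℝ) ≤ x * 1000000 →
          y * 1000000 ≤ a → z * 1000000 ≤ b →
          ((max l (1000000 - (a + b)) : ℕ) : ℝ) ≤ x * 1000000 := by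
        intro l a b x y z hxyz hl ha hb
        rcases le_total l (1000000 - (a + b)) with h | h
        · rw [max_eq_right h]
          rcases le_total (a + b) 1000000 with h' | h'
          · rw [Nat.cast_sub h']
            push_cast
            linarith
          · rw [Nat.sub_eq_zero_of_le h']
            have : (0 : ℝ) ≤ l := by positivity
            push_cast
            linarith
        · rw [max_eq_left h]
          exact hl
      have hi : ∀ {l a b : ℕ} {x y z : ℝ}, x + y + z = 1 → x * 1000000 ≤ l →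
          (a : ℝ) ≤ y * 1000000 → (b : ℝ) ≤ z * 1000000 →
          x * 1000000 ≤ ((min l (1000000 - (a + b)) : ℕ) : ℝ) := by
        intro l a b x y z hxyz hl ha hb
        rcases le_total l (1000000 - (a + b)) with h | h
        · rw [min_eq_left h]
          exact hl
        · rw [min_eq_right h]
          rcases le_total (a + b) 1000000 with h' | h'
          · rw [Nat.cast_sub h']
            push_cast
            linarith
          · have h'' : (1000000 : ℝ) ≤ a + b := by exact_mod_cast h'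
            rw [Nat.sub_eq_zero_of_le h']
            push_cast
            linarith
      have s0 : u 0 + u 1 + u 2 = 1 := hs
      have s1 : u 1 + u 0 + u 2 = 1 := by linarith
      have s2 : u 2 + u 0 + u 1 = 1 := by linarith
      have L0 := lo s0 a0 b1 b2
      have L1 := lo s1 a1 b0 b2
      have L2 := lo s2 a2 b0 b1
      have H0 := hi s0 b0 a1 a2
      have H1 := hi s1 b1 a0 a2
      have H2 := hi s2 b2 a0 a1
      have he := echk_ge hu hs hs' hs0 he1 hmt L0 L1 L2 ke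
      have c0 := crn2_ge (hβ1 0) (hβ0 0) (hβ 0)
        (by linarith : u 2 + u 1 + u 0 = 1) (hp0 0) (hp1 0) q0 he L2 H2 L1 H1 H0 i0
      have c1 := crn2_ge (hβ1 1) (hβ0 1) (hβ 1)
        (by linarith : u 0 + u 2 + u 1 = 1) (hp0 1) (hp1 1) q1 he L0 H0 L2 H2 H1 i1
      have c2 := crn2_ge (hβ1 2) (hβ0 2) (hβ 2)
        (by linarith : u 0 + u 1 + u 2 = 1) (hp0 2) (hp1 2) q2 he L0 H0 L1 H1 H2 i2
      have kv := Nat.le_of_ble_eq_true kv
      have kv' : ((crn2 E (max l2 (1000000 - (h0 + h1))) (min h2 (1000000 - (l0 + l1)))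
          (max l1 (1000000 - (h0 + h2))) (min h1 (1000000 - (l0 + l2)))
          (min h0 (1000000 - (l1 + l2))) t0 : ℕ) : ℝ)
          + (((crn2 E (max l0 (1000000 - (h1 + h2))) (min h0 (1000000 - (l1 + l2)))
          (max l2 (1000000 - (h0 + h1))) (min h2 (1000000 - (l0 + l1)))
          (min h1 (1000000 - (l0 + l2))) t1 : ℕ) : ℝ)
          + ((crn2 E (max l0 (1000000 - (h1 + h2))) (min h0 (1000000 - (l1 + l2)))
          (max l1 (1000000 - (h0 + h2))) (min h1 (1000000 - (l0 + l2)))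
          (min h2 (1000000 - (l0 + l1))) t2 : ℕ) : ℝ)) ≤
          V * 1000000 := by exact_mod_cast kv
      linarith
  | s0 v l r ihl ihr =>
    intro l0 l1 l2 h0 h1 h2 hk a0 a1 a2 b0 b1 b2
    unfold zchk2 at hk
    rw [Bool.and_eq_true] at hk
    rcases le_total (u 0 * 1000000) (v : ℝ) with h | h
    · exact ihl hk.1 a0 a1 a2 h b1 b2
    · exact ihr hk.2 h a1 a2 b0 b1 b2
  | s1 v l r ihl ihr =>
    intro l0 l1 l2 h0 h1 h2 hk a0 a1 a2 b0 b1 b2
    unfold zchk2 at hk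
    rw [Bool.and_eq_true] at hk
    rcases le_total (u 1 * 1000000) (v : ℝ) with h | h
    · exact ihl hk.1 a0 a1 a2 b0 h b2
    · exact ihr hk.2 a0 h a2 b0 b1 b2
  | s2 v l r ihl ihr =>
    intro l0 l1 l2 h0 h1 h2 hk a0 a1 a2 b0 b1 b2
    unfold zchk2 at hk
    rw [Bool.and_eq_true] at hk
    rcases le_total (u 2 * 1000000) (v : ℝ) with h | h
    · exact ihl hk.1 a0 a1 a2 b0 b1 h
    · exact ihr hk.2 a0 a1 h b0 b1 b2

/-- **the combination of the three corners** -/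
theorem zd_max {s V : ℕ} {t0 t1 t2 : List (ℕ × ℕ × ℕ)} {T : ZT}
    (hT : zchk2 s V t0 t1 t2 T 0 0 0 1000000 1000000 1000000 = true)
    {e s' : ℝ} {u β p : Fin 3 → ℝ} (hu : ∀ k, 0 ≤ u k)
    (hs : u 0 + u 1 + u 2 = 1) (hs' : s' * 1000000 ≤ s) (hs0 : 0 ≤ s') (he1 : e ≤ 1)
    (hmt : 1 - (u 0 * u 1 + u 1 * u 2 + u 0 * u 2) ≤ (1 - e) ^ 2 * (1 + s'))
    (hβ0 : ∀ k, 0 ≤ β k) (hβ1 : ∀ k, β k ≤ 1) (hβ : ∀ k, β k * (1 - u k) ≤ 2 * e)
    (hp0 : ∀ k, 0 ≤ p k) (hp1 : ∀ k, p k ≤ 1)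
    (q0 : p 0 * u 1 = (1 - p 0) * u 2) (q1 : p 1 * u 2 = (1 - p 1) * u 0)
    (q2 : p 2 * u 1 = (1 - p 2) * u 0)
    {e0 e1 e2 d0 d1 d2 : ℕ} (i0 : InC2 (p 0) e0 d0 0 t0) (i1 : InC2 (p 1) e1 d1 0 t1)
    (i2 : InC2 (p 2) e2 d2 0 t2) :
    (e0 + β 0 * d0) + (e1 + β 1 * d1) + (e2 + β 2 * d2) ≤ V := by
  refine zchk2_sound hu hs hs' hs0 he1 hmt hβ0 hβ1 hβ hp0 hp1 q0 q1 q2 i0 i1 i2 T hT
    ?_ ?_ ?_ ?_ ?_ ?_
  · push_cast; exact mul_nonneg (hu 0) (by norm_num)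
  · push_cast; exact mul_nonneg (hu 1) (by norm_num)
  · push_cast; exact mul_nonneg (hu 2) (by norm_num)
  · push_cast; have := hu 1; have := hu 2; nlinarith
  · push_cast; have := hu 0; have := hu 2; nlinarith
  · push_cast; have := hu 0; have := hu 1; nlinarith

open Helper93.MEI Helper78.MEI

/-- **the three terms `bet · Δ` add up to at most `V`**: charts of the corners: corner `0` sees
`(x, y) = (b 2, b 1)`, corner `1` sees `(b 0, b 2)`, corner `2` sees `(b 0, b 1)` -/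
theorem zd_geo {s V : ℕ} {t0 t1 t2 : List (ℕ × ℕ × ℕ)} {T : ZT}
    (hT : zchk2 s V t0 t1 t2 T 0 0 0 1000000 1000000 1000000 = true)
    {e c s' : ℝ} {b : Fin 3 → ℝ} (hs : b 0 + b 1 + b 2 = 1 + e)
    (h01 : 2 * e ≤ b 0 + b 1) (h02 : 2 * e ≤ b 0 + b 2) (h12 : 2 * e ≤ b 1 + b 2)
    (hc0 : 0 ≤ c) (hc : c ≤ 2 / 5) (hs' : s' * 1000000 ≤ s) (hs0 : 0 ≤ s')
    (hQ : b 0 ^ 2 + b 1 ^ 2 + b 2 ^ 2 + b 0 * b 1 + b 0 * b 2 + b 1 * b 2 ≤ 1 + s')
    {e0 e1 e2 d0 d1 d2 : ℕ} (i0 : InC2 (prt (b 2) (b 1)) e0 d0 0 t0)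
    (i1 : InC2 (prt (b 0) (b 2)) e1 d1 0 t1) (i2 : InC2 (prt (b 0) (b 1)) e2 d2 0 t2)
    (h3 : e0 + e1 + e2 ≤ V) :
    (e0 + bet (Zd c e b) (b 2) (b 1) * d0) + (e1 + bet (Zd c e b) (b 0) (b 2) * d1)
      + (e2 + bet (Zd c e b) (b 0) (b 1) * d2) ≤ V := by
  obtain ⟨z1, z2, z3⟩ := Zd_le (by linarith : c ≤ 1 / 2) hs h01 h02 h12
  have hV : (0 : ℝ) ≤ V := by positivity
  rcases le_or_gt (Zd c e b) 0 with hZ | hZ
  · have e0' : ∀ u v : ℝ, bet (Zd c e b) u v = 0 := by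
      intro u v
      unfold bet
      rw [show pp (2 * Zd c e b) = 0 from max_eq_right (by linarith), zero_div]
    rw [e0', e0', e0']
    have : ((e0 + e1 + e2 : ℕ) : ℝ) ≤ V := by exact_mod_cast h3
    push_cast at this
    linarith
  have p0 := pp_nonneg (b 0)
  have p1 := pp_nonneg (b 1)
  have p2 := pp_nonneg (b 2)
  have n0 := pp_nonneg (-b 0)
  have n1 := pp_nonneg (-b 1)
  have n2 := pp_nonneg (-b 2)
  have dec : ∀ u : ℝ, u = pp u - pp (-u) := by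
    intro u
    rcases le_total 0 u with h | h
    · have h1 : pp u = u := max_eq_left h
      have h2 : pp (-u) = 0 := max_eq_right (by linarith)
      rw [h1, h2, sub_zero]
    · have h1 : pp u = 0 := max_eq_right h
      have h2 : pp (-u) = -u := max_eq_left (by linarith)
      rw [h1, h2]
      ring
  have d0' := dec (b 0)
  have d1' := dec (b 1)
  have d2' := dec (b 2)
  have hpq := pos_quad hs h01 h02 h12 hc (by linarith : 1 ≤ 1 + s') hQ
  obtain ⟨B, hB⟩ : ∃ B, B = pp (b 0) + pp (b 1) + pp (b 2) := ⟨_, rfl⟩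
  obtain ⟨v, hv⟩ : ∃ v, v = pp (-b 0) + pp (-b 1) + pp (-b 2) := ⟨_, rfl⟩
  obtain ⟨Z, hZd⟩ : ∃ Z, Z = Zd c e b := ⟨_, rfl⟩
  have hv0 : 0 ≤ v := by linarith
  have hZe : Z = e + c * v := by rw [hZd, hv]; rfl
  have hBZ : B - Z = 1 + (1 - c) * v := by rw [hZe]; linarith
  rw [← hv] at hpq
  rw [← hZd] at hZ z1 z2 z3 ⊢
  have hB0 : 0 < B := by
    have : 0 ≤ (1 - c) * v := mul_nonneg (by linarith) hv0
    linarith
  have hBne : B ≠ 0 := hB0.ne'
  -- the weights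
  have w : ∀ x y k : ℝ, 0 ≤ pp x → 0 ≤ pp y → pp x + pp y + k = B → 2 * Z ≤ pp x + pp y →
      0 ≤ bet Z x y ∧ bet Z x y ≤ 1 ∧ bet Z x y * (1 - k / B) ≤ 2 * (Z / B) := by
    intro x y k hx hy hk h2
    refine ⟨bet_nonneg _ _ _, bet_le_one h2, ?_⟩
    have e1 : 1 - k / B = (pp x + pp y) / B := by
      rw [eq_div_iff hBne, sub_mul, div_mul_cancel₀ _ hBne]
      linarith
    have e2 := bet_mul h2
    rw [show pp (2 * Z) = 2 * Z from max_eq_left (by linarith)] at e2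
    rw [e1, ← mul_div_assoc, e2, mul_div_assoc]
  have g0 := w (b 2) (b 1) (pp (b 0)) p2 p1 (by rw [hB]; ring) (by linarith)
  have g1 := w (b 0) (b 2) (pp (b 1)) p0 p2 (by rw [hB]; ring) (by linarith)
  have g2 := w (b 0) (b 1) (pp (b 2)) p0 p1 (by rw [hB]) (by linarith)
  have hpr : ∀ x y : ℝ, prt x y * (pp y / B) = (1 - prt x y) * (pp x / B) := by
    intro x y
    have := prt_mul x y
    have h3 : prt x y * pp y = (1 - prt x y) * pp x := by linear_combination this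
    rw [← mul_div_assoc, ← mul_div_assoc, h3]
  let u : Fin 3 → ℝ := ![pp (b 0) / B, pp (b 1) / B, pp (b 2) / B]
  let β : Fin 3 → ℝ := ![bet Z (b 2) (b 1), bet Z (b 0) (b 2), bet Z (b 0) (b 1)]
  let p : Fin 3 → ℝ := ![prt (b 2) (b 1), prt (b 0) (b 2), prt (b 0) (b 1)]
  have u0 : u 0 = pp (b 0) / B := rfl
  have u1 : u 1 = pp (b 1) / B := rfl
  have u2 : u 2 = pp (b 2) / B := rfl
  have f0 : ∀ k, 0 ≤ u k := by
    intro k
    fin_cases k
    · exact div_nonneg p0 hB0.le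
    · exact div_nonneg p1 hB0.le
    · exact div_nonneg p2 hB0.le
  have f1 : u 0 + u 1 + u 2 = 1 := by
    rw [u0, u1, u2, ← add_div, ← add_div, ← hB, div_self hBne]
  have f2 : Z / B ≤ 1 := by
    rw [div_le_one hB0]
    have : 0 ≤ (1 - c) * v := mul_nonneg (by linarith) hv0
    linarith
  have f3 : 1 - (u 0 * u 1 + u 1 * u 2 + u 0 * u 2) ≤ (1 - Z / B) ^ 2 * (1 + s') := by
    have e1 : 1 - (u 0 * u 1 + u 1 * u 2 + u 0 * u 2) =
        (pp (b 0) ^ 2 + pp (b 1) ^ 2 + pp (b 2) ^ 2 + pp (b 0) * pp (b 1) + pp (b 0) * pp (b 2)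
          + pp (b 1) * pp (b 2)) / B ^ 2 := by
      rw [u0, u1, u2, eq_div_iff (pow_ne_zero 2 hBne)]
      have e3 : pp (b 0) / B * B = pp (b 0) := div_mul_cancel₀ _ hBne
      have e4 : pp (b 1) / B * B = pp (b 1) := div_mul_cancel₀ _ hBne
      have e5 : pp (b 2) / B * B = pp (b 2) := div_mul_cancel₀ _ hBne
      have e6 : (1 - (pp (b 0) / B * (pp (b 1) / B) + pp (b 1) / B * (pp (b 2) / B)
          + pp (b 0) / B * (pp (b 2) / B))) * B ^ 2 =
          B ^ 2 - ((pp (b 0) / B * B) * (pp (b 1) / B * B)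
            + (pp (b 1) / B * B) * (pp (b 2) / B * B)
            + (pp (b 0) / B * B) * (pp (b 2) / B * B)) := by ring
      rw [e6, e3, e4, e5, hB]
      ring
    have e2 : (1 - Z / B) ^ 2 * (1 + s') = (1 + s') * (1 + (1 - c) * v) ^ 2 / B ^ 2 := by
      rw [eq_div_iff (pow_ne_zero 2 hBne), ← hBZ]
      have e3 : (1 - Z / B) * B = B - Z := by
        rw [sub_mul, div_mul_cancel₀ _ hBne, one_mul]
      have e4 : (1 - Z / B) ^ 2 * (1 + s') * B ^ 2 = ((1 - Z / B) * B) ^ 2 * (1 + s') := by ring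
      rw [e4, e3]
      ring
    rw [e1, e2]
    exact div_le_div_of_nonneg_right hpq (by positivity)
  refine zd_max hT (u := u) (β := β) (p := p) (e := Z / B) (s' := s') f0 f1 hs' hs0 f2 f3
    ?_ ?_ ?_ ?_ ?_ ?_ ?_ ?_ i0 i1 i2
  · intro k
    fin_cases k
    exacts [g0.1, g1.1, g2.1]
  · intro k
    fin_cases k
    exacts [g0.2.1, g1.2.1, g2.2.1]
  · intro k
    fin_cases k
    exacts [g0.2.2, g1.2.2, g2.2.2]
  · intro k
    fin_cases k
    exacts [prt_nonneg _ _, prt_nonneg _ _, prt_nonneg _ _]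
  · intro k
    fin_cases k
    exacts [prt_le _ _, prt_le _ _, prt_le _ _]
  · exact hpr (b 2) (b 1)
  · exact hpr (b 0) (b 2)
  · exact hpr (b 0) (b 1)

end Helper14.MEI4
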