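import Pool.Agent.Helper14.MEI4.ZL
import Pool.Agent.Helper14.MEI4.ZD

/-!
# Project MEI (M2), w-term: the cost of a face from affine formulas at the vertices

As `ZL`, with: costs without apex which depend on the class of the position too, formulas linear in
all three leaks, free coefficients at every vertex of the state space.
-/

set_option autoImplicit false

namespace Helper14.MEI4

open Helper93.MEI Helper78.MEI Helper80.CW Helper14.CW Pool.Agent.Helper52.MEI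
open Helper60.R7 (jj ll)
open Helper29.MEI (MF V6 V6_pos bw8 bw8_sum bw8_one bw8_nonneg pst pst_nonneg pst_le pst_eq vx0 vx1
  vx2)

/-- the table of a corner: cells `L`, values `f`, `g` of the classes -/
def tabL2 : ℕ → List ℕ → (ℕ → ℕ) → (ℕ → ℕ) → List (ℕ × ℕ × ℕ)
  | _, [], _, _ => []
  | i, q :: r, f, g => (q, f i, g i) :: tabL2 (i + 1) r f g

theorem Cel_InC2 {p : ℝ} {c : ℕ} {f g : ℕ → ℕ} : ∀ {L : List ℕ} {i Pl : ℕ}, Cel p c i Pl L →
    InC2 p (f c) (g c) Pl (tabL2 i L f g)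
  | [], _, _, h => h
  | q :: r, i, Pl, h => by
    rcases h with ⟨h1, h2, h3⟩ | h
    · exact Or.inl ⟨h1, h2, by rw [h3], by rw [h3]⟩
    · exact Or.inr (Cel_InC2 h)

/-- affine function of the three leaks, units `10⁻¹²` -/
structure AF where
  /-- constant -/
  o : ℕ
  /-- coefficient of `n 0` -/
  n0 : ℕ
  /-- coefficient of `n 1` -/
  n1 : ℕ
  /-- coefficient of `n 2` -/
  n2 : ℕ

/-- value -/
noncomputable def AF.ev (F : AF) (n : Fin 3 → ℝ) : ℝ :=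
  (F.o : ℝ) / 1000000000000 + (F.n0 : ℝ) / 1000000000000 * n 0
    + (F.n1 : ℝ) / 1000000000000 * n 1 + (F.n2 : ℝ) / 1000000000000 * n 2

/-- value at leaks given in units `10⁻⁶`, units `10⁻¹⁸` -/
def AF.nat (F : AF) (t0 t1 t2 : ℕ) : ℕ := 1000000 * F.o + F.n0 * t0 + F.n1 * t1 + F.n2 * t2

theorem AF.nat_eq (F : AF) (t0 t1 t2 : ℕ) {n : Fin 3 → ℝ} (h0 : n 0 = (t0 : ℝ) / 1000000)
    (h1 : n 1 = (t1 : ℝ) / 1000000) (h2 : n 2 = (t2 : ℝ) / 1000000) :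
    F.ev n = ((F.nat t0 t1 t2 : ℕ) : ℝ) / 1000000000000000000 := by
  unfold AF.ev AF.nat
  rw [h0, h1, h2]
  push_cast
  ring

/-- check of a vertex and a corner `r` of the box of the leaks: `Fa` = costs without apex, `Fb` =
with apex, `e`, `d` (units `10⁻¹⁰`) = bounds for the tree, `V` (units `10⁻¹⁰`) = its value,
`A` (units `10⁻¹²`), `B` (units `10⁻⁹`) = the cost -/
def zlck2 (Fa Fb : ℕ → Fin 3 → AF) (nq : ℕ) (tt : Fin 3 → ℕ) (e d : ℕ → Fin 3 → ℕ)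
    (em : Fin 3 → ℕ) (V A : ℕ) (B : Fin 3 → ℕ) (r : ℕ) : Bool :=
  ((List.range nq).all fun q =>
    Nat.ble ((Fa q 0).nat (vxk tt 0 r) (vxk tt 1 r) (vxk tt 2 r)) (100000000 * e q 0) &&
    Nat.ble ((Fa q 1).nat (vxk tt 0 r) (vxk tt 1 r) (vxk tt 2 r)) (100000000 * e q 1) &&
    Nat.ble ((Fa q 2).nat (vxk tt 0 r) (vxk tt 1 r) (vxk tt 2 r)) (100000000 * e q 2) &&
    Nat.ble ((Fb q 0).nat (vxk tt 0 r) (vxk tt 1 r) (vxk tt 2 r))
      (100000000 * (e q 0 + d q 0)) &&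
    Nat.ble ((Fb q 1).nat (vxk tt 0 r) (vxk tt 1 r) (vxk tt 2 r))
      (100000000 * (e q 1 + d q 1)) &&
    Nat.ble ((Fb q 2).nat (vxk tt 0 r) (vxk tt 1 r) (vxk tt 2 r))
      (100000000 * (e q 2 + d q 2)) &&
    Nat.ble (e q 0) (em 0) && Nat.ble (e q 1) (em 1) && Nat.ble (e q 2) (em 2)) &&
  Nat.ble (em 0 + em 1 + em 2) V &&
  Nat.ble (10000 * (100000000 * V))
    (14142 * (1000000 * A + 1000 * (B 0 * vxk tt 0 r + B 1 * vxk tt 1 r + B 2 * vxk tt 2 r)))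

/-- the meaning of the check -/
theorem zlck2_spec {Fa Fb : ℕ → Fin 3 → AF} {nq : ℕ} {tt : Fin 3 → ℕ} {e d : ℕ → Fin 3 → ℕ}
    {em : Fin 3 → ℕ} {V A : ℕ} {B : Fin 3 → ℕ} {r : ℕ}
    (h : zlck2 Fa Fb nq tt e d em V A B r = true) :
    (∀ q < nq, ∀ k, (Fa q k).nat (vxk tt 0 r) (vxk tt 1 r) (vxk tt 2 r) ≤ 100000000 * e q k ∧
      (Fb q k).nat (vxk tt 0 r) (vxk tt 1 r) (vxk tt 2 r) ≤ 100000000 * (e q k + d q k) ∧
      e q k ≤ em k) ∧ em 0 + em 1 + em 2 ≤ V ∧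
    10000 * (100000000 * V) ≤
      14142 * (1000000 * A + 1000 * (B 0 * vxk tt 0 r + B 1 * vxk tt 1 r + B 2 * vxk tt 2 r)) := by
  unfold zlck2 at h
  rw [Bool.and_eq_true, Bool.and_eq_true, Nat.ble_eq, Nat.ble_eq] at h
  refine ⟨?_, h.1.2, h.2⟩
  intro q hq k
  have h2 := List.all_eq_true.1 h.1.1 q (List.mem_range.2 hq)
  simp only [Bool.and_eq_true, Nat.ble_eq] at h2
  obtain ⟨⟨⟨⟨⟨⟨⟨⟨a0, a1⟩, a2⟩, b0⟩, b1⟩, b2⟩, c0⟩, c1⟩, c2⟩ := h2
  have key : k = 0 ∨ k = 1 ∨ k = 2 := by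
    fin_cases k <;> simp
  rcases key with rfl | rfl | rfl
  · exact ⟨a0, b0, c0⟩
  · exact ⟨a1, b1, c1⟩
  · exact ⟨a2, b2, c2⟩

/-- affine functions of the leaks, mean over the corners of the box -/
theorem AF_box (F : AF) (tt : Fin 3 → ℕ) {n p : Fin 3 → ℝ}
    (pn : ∀ k, p k * ((tt k : ℝ) / 1000000) = n k) :
    F.ev n = ∑ r ∈ Finset.range 8, bw8 (p 0) (p 1) (p 2) r *
      (((F.nat (vxk tt 0 r) (vxk tt 1 r) (vxk tt 2 r) : ℕ) : ℝ) / 1000000000000000000) := by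
  have e0 : ∀ r, vxk tt 0 r = vx0 0 (tt 0) r := fun r => rfl
  have e1 : ∀ r, vxk tt 1 r = vx1 0 (tt 1) r := fun r => rfl
  have e2 : ∀ r, vxk tt 2 r = vx2 0 (tt 2) r := fun r => rfl
  rw [bw8_sum]
  unfold AF.ev AF.nat
  rw [← pn 0, ← pn 1, ← pn 2]
  simp only [e0, e1, e2, vx0, vx1, vx2]
  norm_num
  ring

/-- the combination, classes with constant part -/
theorem zcomb2 {a : Fin 4 → E3} (hg : Gram4 (al a)) {x : E3} (hx : Pl a x) {X : ℕ} {c s' : ℝ}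
    (hq : Qv a 0 x ≤ s') (hc0 : 0 ≤ c) (hc : c ≤ 2 / 5) (hs' : s' * 1000000 ≤ X) (hs0 : 0 ≤ s')
    {L : List ℕ} {κ : Fin 3 → ℕ} (hκ : ∀ k, Cel (pcor a x k) (κ k) 0 0 L)
    {ι : Type*} (I : Finset ι) {lam : ι → ℝ} (hl : ∀ g ∈ I, 0 ≤ lam g)
    {e d : ι → ℕ → Fin 3 → ℕ} {em : ι → Fin 3 → ℕ} {V : ι → ℕ} {Tr : ι → ZT}
    (hem : ∀ g ∈ I, ∀ q < L.length, ∀ k, e g q k ≤ em g k)
    (hV : ∀ g ∈ I, em g 0 + em g 1 + em g 2 ≤ V g)
    (hz : ∀ g ∈ I, zchk2 X (V g) (tabL2 0 L (fun q => e g q 0) fun q => d g q 0)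
      (tabL2 0 L (fun q => e g q 1) fun q => d g q 1)
      (tabL2 0 L (fun q => e g q 2) fun q => d g q 2) (Tr g) 0 0 0 1000000 1000000 1000000 = true)
    {δ : ℝ} (hδ : 0 ≤ δ) {T W : Fin 3 → ℝ}
    (hT : ∀ k, T k ≤ ∑ g ∈ I, lam g * (δ * (e g (κ k) k : ℝ)))
    (hW : ∀ k, W k ≤ ∑ g ∈ I, lam g * (δ * (e g (κ k) k : ℝ) + δ * (d g (κ k) k : ℝ))) :
    ((1 - bcor a c x 0) * T 0 + bcor a c x 0 * W 0)
      + ((1 - bcor a c x 1) * T 1 + bcor a c x 1 * W 1)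
      + ((1 - bcor a c x 2) * T 2 + bcor a c x 2 * W 2) ≤ ∑ g ∈ I, lam g * (δ * (V g : ℝ)) := by
  obtain ⟨f1, f2, f3, f4, f5⟩ := body_geo hg hx hq
  obtain ⟨z1, z2, z3⟩ := Zd_le (by linarith : c ≤ 1 / 2) f1 f2 f3 f4
  have b1 : ∀ k, bcor a c x k ≤ 1 := by
    intro k
    fin_cases k
    · exact bet_le_one (u := b3 a x 2) (v := b3 a x 1) (by linarith)
    · exact bet_le_one (u := b3 a x 0) (v := b3 a x 2) (by linarith)
    · exact bet_le_one (u := b3 a x 0) (v := b3 a x 1) (by linarith)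
  refine comb_le I hl (β := bcor a c x) (fun k => bet_nonneg _ _ _) b1
    (P := fun k g => δ * (e g (κ k) k : ℝ)) (D := fun k g => δ * (d g (κ k) k : ℝ)) hT hW ?_
  intro g hgs
  have h3 : e g (κ 0) 0 + e g (κ 1) 1 + e g (κ 2) 2 ≤ V g := by
    have i0 := hem g hgs _ (Cel_ends (hκ 0)).1 0
    have i1 := hem g hgs _ (Cel_ends (hκ 1)).1 1
    have i2 := hem g hgs _ (Cel_ends (hκ 2)).1 2
    exact (add_le_add (add_le_add i0 i1) i2).trans (hV g hgs)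
  have t := zd_geo (hz g hgs) f1 f2 f3 f4 hc0 hc hs' hs0 f5
    (Cel_InC2 (f := fun q => e g q 0) (g := fun q => d g q 0) (hκ 0))
    (Cel_InC2 (f := fun q => e g q 1) (g := fun q => d g q 1) (hκ 1))
    (Cel_InC2 (f := fun q => e g q 2) (g := fun q => d g q 2) (hκ 2)) h3
  have t' := mul_le_mul_of_nonneg_left t hδ
  have e0 : bcor a c x 0 = bet (Zd c (-bar a 0 x) (b3 a x)) (b3 a x 2) (b3 a x 1) := rfl
  have e1 : bcor a c x 1 = bet (Zd c (-bar a 0 x) (b3 a x)) (b3 a x 0) (b3 a x 2) := rfl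
  have e2 : bcor a c x 2 = bet (Zd c (-bar a 0 x) (b3 a x)) (b3 a x 0) (b3 a x 1) := rfl
  rw [← e0, ← e1, ← e2] at t'
  beta_reduce at t' ⊢
  linarith

/-- **the cost of a face from affine formulas at the vertices** -/
theorem zlin2 {a : Fin 4 → E3} (hg : Gram4 (al a)) {x : E3} (hx : Pl a x) {X : ℕ} {c s' : ℝ}
    (hq : Qv a 0 x ≤ s') (hc0 : 0 ≤ c) (hc : c ≤ 2 / 5) (hs' : s' * 1000000 ≤ X) (hs0 : 0 ≤ s')
    {L : List ℕ} {κ : Fin 3 → ℕ} (hκ : ∀ k, Cel (pcor a x k) (κ k) 0 0 L)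
    {ι : Type*} (I : Finset ι) {lam : ι → ℝ} (hl : ∀ g ∈ I, 0 ≤ lam g)
    {n : Fin 3 → ℝ} {tt : Fin 3 → ℕ} (hn0 : ∀ k, 0 ≤ n k)
    (hn : ∀ k, n k ≤ (tt k : ℝ) / 1000000)
    {Fa Fb : ι → ℕ → Fin 3 → AF} {e d : ι → ℕ → ℕ → Fin 3 → ℕ} {em : ι → ℕ → Fin 3 → ℕ}
    {V : ι → ℕ → ℕ} {A : ι → ℕ} {B : ι → Fin 3 → ℕ} {Tr : ι → ℕ → ZT}
    (hck : ∀ g ∈ I, ∀ r < 8, zlck2 (Fa g) (Fb g) L.length tt (e g r) (d g r) (em g r) (V g r)
      (A g) (B g) r = true)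
    (hz : ∀ g ∈ I, ∀ r < 8, zchk2 X (V g r) (tabL2 0 L (fun q => e g r q 0) fun q => d g r q 0)
      (tabL2 0 L (fun q => e g r q 1) fun q => d g r q 1)
      (tabL2 0 L (fun q => e g r q 2) fun q => d g r q 2) (Tr g r)
      0 0 0 1000000 1000000 1000000 = true)
    {T W : Fin 3 → ℝ} (hT : ∀ k, T k ≤ ∑ g ∈ I, lam g * (Fa g (κ k) k).ev n)
    (hW : ∀ k, W k ≤ ∑ g ∈ I, lam g * (Fb g (κ k) k).ev n) :
    (√2)⁻¹ * (((1 - bcor a c x 0) * T 0 + bcor a c x 0 * W 0)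
      + ((1 - bcor a c x 1) * T 1 + bcor a c x 1 * W 1)
      + ((1 - bcor a c x 2) * T 2 + bcor a c x 2 * W 2)) ≤
      ∑ g ∈ I, lam g * ((A g : ℝ) / 1000000000000 + (B g 0 : ℝ) / 1000000000 * n 0
        + (B g 1 : ℝ) / 1000000000 * n 1 + (B g 2 : ℝ) / 1000000000 * n 2) := by
  have hV6 : (V6 : ℝ) = 1000000 := by
    norm_num [V6]
  obtain ⟨p, hp⟩ : ∃ p : Fin 3 → ℝ, p = fun k => pst 0 ((tt k : ℝ) / 1000000) (n k) := ⟨_, rfl⟩
  have p0 : ∀ k, 0 ≤ p k := fun k => by rw [hp]; exact pst_nonneg (hn0 k) (hn k)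
  have p1 : ∀ k, p k ≤ 1 := fun k => by rw [hp]; exact pst_le (hn0 k) (hn k)
  have pn : ∀ k, p k * ((tt k : ℝ) / 1000000) = n k := fun k => by
    have := pst_eq (hn0 k) (hn k)
    rw [mul_zero, zero_add] at this
    rw [hp]
    exact this
  have bw : ∀ r, 0 ≤ bw8 (p 0) (p 1) (p 2) r :=
    bw8_nonneg (p0 0) (p1 0) (p0 1) (p1 1) (p0 2) (p1 2)
  have key := zcomb2 hg hx hq hc0 hc hs' hs0 hκ (I ×ˢ Finset.range 8)
    (lam := fun g => lam g.1 * bw8 (p 0) (p 1) (p 2) g.2)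
    (fun g hg' => mul_nonneg (hl _ (Finset.mem_product.1 hg').1) (bw _))
    (e := fun g q k => e g.1 g.2 q k) (d := fun g q k => d g.1 g.2 q k)
    (em := fun g k => em g.1 g.2 k) (V := fun g => V g.1 g.2) (Tr := fun g => Tr g.1 g.2)
    (fun g hg' q hq' k => ((zlck2_spec (hck g.1 (Finset.mem_product.1 hg').1 g.2
      (Finset.mem_range.1 (Finset.mem_product.1 hg').2))).1 q hq' k).2.2)
    (fun g hg' => (zlck2_spec (hck g.1 (Finset.mem_product.1 hg').1 g.2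
      (Finset.mem_range.1 (Finset.mem_product.1 hg').2))).2.1)
    (fun g hg' => hz g.1 (Finset.mem_product.1 hg').1 g.2
      (Finset.mem_range.1 (Finset.mem_product.1 hg').2))
    (δ := 1 / 10000000000) (by norm_num) (T := T) (W := W)
    (fun k => by
      refine (hT k).trans ?_
      rw [Finset.sum_product]
      refine Finset.sum_le_sum fun g hg' => ?_
      rw [AF_box (Fa g (κ k) k) tt pn, Finset.mul_sum]
      refine Finset.sum_le_sum fun r hr => ?_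
      rw [← mul_assoc]
      refine mul_le_mul_of_nonneg_left ?_ (mul_nonneg (hl _ hg') (bw _))
      have h := ((zlck2_spec (hck g hg' r (Finset.mem_range.1 hr))).1 _ (Cel_ends (hκ k)).1 k).1
      have h' : (((Fa g (κ k) k).nat (vxk tt 0 r) (vxk tt 1 r) (vxk tt 2 r) : ℕ) : ℝ) ≤
          100000000 * (e g r (κ k) k : ℝ) := by exact_mod_cast h
      beta_reduce
      rw [div_le_iff₀ (by norm_num)]
      linarith)
    (fun k => by
      refine (hW k).trans ?_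
      rw [Finset.sum_product]
      refine Finset.sum_le_sum fun g hg' => ?_
      rw [AF_box (Fb g (κ k) k) tt pn, Finset.mul_sum]
      refine Finset.sum_le_sum fun r hr => ?_
      rw [← mul_assoc]
      refine mul_le_mul_of_nonneg_left ?_ (mul_nonneg (hl _ hg') (bw _))
      have h := ((zlck2_spec (hck g hg' r (Finset.mem_range.1 hr))).1 _ (Cel_ends (hκ k)).1 k).2.1
      have h' : (((Fb g (κ k) k).nat (vxk tt 0 r) (vxk tt 1 r) (vxk tt 2 r) : ℕ) : ℝ) ≤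
          100000000 * ((e g r (κ k) k : ℝ) + (d g r (κ k) k : ℝ)) := by exact_mod_cast h
      beta_reduce
      rw [div_le_iff₀ (by norm_num)]
      linarith)
  have h2 : (14142 / 10000 : ℝ) ≤ √2 := by
    rw [show (14142 / 10000 : ℝ) = √((14142 / 10000) ^ 2) by
      rw [Real.sqrt_sq (by norm_num)]]
    exact Real.sqrt_le_sqrt (by norm_num)
  rw [inv_mul_le_iff₀ (Real.sqrt_pos.2 (by norm_num))]
  refine key.trans ?_
  rw [Finset.sum_product, Finset.mul_sum]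
  refine Finset.sum_le_sum fun g hg' => ?_
  have hC0 : 0 ≤ (A g : ℝ) / 1000000000000 + (B g 0 : ℝ) / 1000000000 * n 0
        + (B g 1 : ℝ) / 1000000000 * n 1 + (B g 2 : ℝ) / 1000000000 * n 2 := by
    have := hn0 0
    have := hn0 1
    have := hn0 2
    positivity
  -- each corner of the box
  have st : ∀ r < 8, 1 / 10000000000 * (V g r : ℝ) ≤
      14142 / 10000 * ((A g : ℝ) / 1000000000000
        + (B g 0 : ℝ) / 1000000000 * ((vxk tt 0 r : ℝ) / 1000000)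
        + (B g 1 : ℝ) / 1000000000 * ((vxk tt 1 r : ℝ) / 1000000)
        + (B g 2 : ℝ) / 1000000000 * ((vxk tt 2 r : ℝ) / 1000000)) := by
    intro r hr
    have h := (zlck2_spec (hck g hg' r hr)).2.2
    have h' : 10000 * (100000000 * (V g r : ℝ)) ≤
      14142 * (1000000 * (A g : ℝ) + 1000 * ((B g 0 : ℝ) * (vxk tt 0 r : ℝ)
        + (B g 1 : ℝ) * (vxk tt 1 r : ℝ) + (B g 2 : ℝ) * (vxk tt 2 r : ℝ))) := by
      exact_mod_cast h
    linarith
  have lin : ∑ r ∈ Finset.range 8, bw8 (p 0) (p 1) (p 2) r *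
      (14142 / 10000 * ((A g : ℝ) / 1000000000000
        + (B g 0 : ℝ) / 1000000000 * ((vxk tt 0 r : ℝ) / 1000000)
        + (B g 1 : ℝ) / 1000000000 * ((vxk tt 1 r : ℝ) / 1000000)
        + (B g 2 : ℝ) / 1000000000 * ((vxk tt 2 r : ℝ) / 1000000))) =
      14142 / 10000 * ((A g : ℝ) / 1000000000000 + (B g 0 : ℝ) / 1000000000 * n 0
        + (B g 1 : ℝ) / 1000000000 * n 1 + (B g 2 : ℝ) / 1000000000 * n 2) := by
    have e0 : ∀ r, vxk tt 0 r = vx0 0 (tt 0) r := fun r => rfl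
    have e1 : ∀ r, vxk tt 1 r = vx1 0 (tt 1) r := fun r => rfl
    have e2 : ∀ r, vxk tt 2 r = vx2 0 (tt 2) r := fun r => rfl
    rw [bw8_sum, ← pn 0, ← pn 1, ← pn 2]
    simp only [e0, e1, e2, vx0, vx1, vx2]
    norm_num
    ring
  have fin : ∑ r ∈ Finset.range 8, lam g * bw8 (p 0) (p 1) (p 2) r *
      (1 / 10000000000 * (V g r : ℝ)) ≤
      lam g * (14142 / 10000 * ((A g : ℝ) / 1000000000000 + (B g 0 : ℝ) / 1000000000 * n 0
        + (B g 1 : ℝ) / 1000000000 * n 1 + (B g 2 : ℝ) / 1000000000 * n 2)) := by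
    rw [← lin, Finset.mul_sum]
    refine Finset.sum_le_sum fun r hr => ?_
    rw [mul_assoc]
    exact mul_le_mul_of_nonneg_left (mul_le_mul_of_nonneg_left (st r (Finset.mem_range.1 hr))
      (bw r)) (hl g hg')
  refine fin.trans ?_
  have h3 := mul_le_mul_of_nonneg_right h2 (mul_nonneg (hl g hg') hC0)
  linarith

/-- from a formula of a corner (own leak) with slopes `cj`, `cl` in the weak leaks (units `10⁻¹²`)
to the affine function at a vertex -/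
def MF.af (F : MF) (sv Sv cj cl : ℕ) (k : Fin 3) : AF :=
  if k = 0 then ⟨1000000 * F.o + F.s * sv + F.S * Sv, 1000000 * F.n + F.sn * sv + F.Sn * Sv,
      cl, cj⟩
  else if k = 1 then ⟨1000000 * F.o + F.s * sv + F.S * Sv, cj,
      1000000 * F.n + F.sn * sv + F.Sn * Sv, cl⟩
  else ⟨1000000 * F.o + F.s * sv + F.S * Sv, cj, cl, 1000000 * F.n + F.sn * sv + F.Sn * Sv⟩

/-- **the formula as a combination of the vertices** -/
theorem MF_af {ι : Type*} (I : Finset ι) {lam : ι → ℝ} (h1 : ∑ g ∈ I, lam g = 1) {F : MF}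
    (hF : mfok F = true) {sv : ι → ℕ} {Sv : ι → Fin 3 → ℕ} {s : ℝ} {S n : Fin 3 → ℝ}
    (hsv : s = ∑ g ∈ I, lam g * ((sv g : ℝ) / V6))
    (hSv : ∀ k, S k = ∑ g ∈ I, lam g * ((Sv g k : ℝ) / V6)) (cj cl : ℕ) (k : Fin 3) :
    F.ev s (S k) (n k) + (cj : ℝ) / 1000000000000 * n (jj k)
      + (cl : ℝ) / 1000000000000 * n (ll k) =
      ∑ g ∈ I, lam g * (MF.af F (sv g) (Sv g k) cj cl k).ev n := by
  have hV6 : (V6 : ℝ) = 1000000 := by
    norm_num [V6]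
  have hF' := MF_comb I h1 hF (fun g => (sv g : ℝ) / V6) (fun g => (Sv g k : ℝ) / V6) (n k)
  rw [← hsv, ← hSv k] at hF'
  have hc : (cj : ℝ) / 1000000000000 * n (jj k) + (cl : ℝ) / 1000000000000 * n (ll k) =
      ∑ g ∈ I, lam g * ((cj : ℝ) / 1000000000000 * n (jj k)
        + (cl : ℝ) / 1000000000000 * n (ll k)) := by
    rw [← Finset.sum_mul, h1, one_mul]
  rw [← hF', add_assoc, hc, ← Finset.sum_add_distrib]
  refine Finset.sum_congr rfl fun g _ => ?_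
  unfold mfok at hF
  simp only [Bool.and_eq_true, Nat.beq_eq] at hF
  obtain ⟨e1, e2⟩ := hF
  rw [← mul_add]
  congr 1
  unfold MF.ev AF.ev MF.af
  rw [e1, e2, hV6]
  have key : k = 0 ∨ k = 1 ∨ k = 2 := by
    fin_cases k <;> simp
  have j0 : jj 0 = 2 := rfl
  have l0 : ll 0 = 1 := rfl
  have j1 : jj 1 = 0 := rfl
  have l1 : ll 1 = 2 := rfl
  have j2 : jj 2 = 0 := rfl
  have l2 : ll 2 = 1 := rfl
  rcases key with rfl | rfl | rfl
  · rw [j0, l0]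
    simp only [if_true]
    push_cast
    ring
  · rw [j1, l1]
    simp only [if_true, if_false, show ((1 : Fin 3) = 0) = False from by simp]
    push_cast
    ring
  · rw [j2, l2]
    simp only [if_true, if_false, show ((2 : Fin 3) = 0) = False from by simp,
      show ((2 : Fin 3) = 1) = False from by simp]
    push_cast
    ring

end Helper14.MEI4
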