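import Pool.Agent.Helper14.MEI4.ZG
import Pool.Agent.Helper78.MEI.WB7

/-!
# Project MEI (M2), w-term: the cost of a face from the weights of the tables, with the exact
combination of the three relative deficits

`L` = right ends of the position cells, `Dc` = for each class the twelve differences of the
weights (units `10¹⁵ U⁻⁴ / 4`), `Pl` = the twelve weights without apex (units `U⁻⁴ / 4`).
-/

set_option autoImplicit false

namespace Helper14.MEI4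

open Helper93.MEI Helper78.MEI

/-- the table of a corner: cells `L`, values `f` of the classes -/
def tabL : ℕ → List ℕ → (ℕ → ℕ) → List (ℕ × ℕ)
  | _, [], _ => []
  | i, q :: r, f => (q, f i) :: tabL (i + 1) r f

/-- `p` lies in the cell number `c` -/
def Cel (p : ℝ) (c : ℕ) : ℕ → ℕ → List ℕ → Prop
  | _, _, [] => False
  | i, Pl, q :: r => ((Pl : ℝ) ≤ p * 1000000 ∧ p * 1000000 ≤ q ∧ c = i) ∨ Cel p c (i + 1) q r

theorem Cel_InC {p : ℝ} {c : ℕ} {f : ℕ → ℕ} : ∀ {L : List ℕ} {i Pl : ℕ}, Cel p c i Pl L →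
    InC p (f c) Pl (tabL i L f)
  | [], _, _, h => h
  | q :: r, i, Pl, h => by
    rcases h with ⟨h1, h2, h3⟩ | h
    · exact Or.inl ⟨h1, h2, by rw [h3]⟩
    · exact Or.inr (Cel_InC h)

/-- every position lies in a cell -/
theorem Cel_exists {p : ℝ} : ∀ {L : List ℕ} {i Pl : ℕ}, L ≠ [] → (Pl : ℝ) ≤ p * 1000000 →
    p * 1000000 ≤ ((L.getLastD 0 : ℕ) : ℝ) → ∃ c, Cel p c i Pl L
  | [], _, _, h, _, _ => absurd rfl h
  | q :: r, i, Pl, _, h1, h2 => by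
    rcases le_total (p * 1000000) (q : ℝ) with h3 | h3
    · exact ⟨i, Or.inl ⟨h1, h3, rfl⟩⟩
    · cases r with
      | nil => exact ⟨i, Or.inl ⟨h1, h2, rfl⟩⟩
      | cons q' r' =>
        obtain ⟨c, hc⟩ := Cel_exists (L := q' :: r') (i := i + 1) (Pl := q) (by simp) h3
          (by simpa using h2)
        exact ⟨c, Or.inr hc⟩

/-- the cell number `c` and its ends -/
theorem Cel_range {p : ℝ} {c : ℕ} : ∀ {L : List ℕ} {i Pl : ℕ}, Cel p c i Pl L →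
    ∃ j < L.length, c = i + j ∧ (((Pl :: L).getD j 0 : ℕ) : ℝ) ≤ p * 1000000 ∧
      p * 1000000 ≤ ((L.getD j 0 : ℕ) : ℝ)
  | [], _, _, h => h.elim
  | q :: r, i, Pl, h => by
    rcases h with ⟨h1, h2, h3⟩ | h
    · exact ⟨0, by simp, by omega, by simpa using h1, by simpa using h2⟩
    · obtain ⟨j, a1, a2, a3, a4⟩ := Cel_range h
      exact ⟨j + 1, by simpa using a1, by omega, by simpa using a3, by simpa using a4⟩

/-- the ends of the cell of a position in `[0, 1]`: `(0 :: L) c ≤ p ≤ L c` -/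
theorem Cel_ends {p : ℝ} {c : ℕ} {L : List ℕ} (h : Cel p c 0 0 L) : c < L.length ∧
    (((0 :: L).getD c 0 : ℕ) : ℝ) ≤ p * 1000000 ∧ p * 1000000 ≤ ((L.getD c 0 : ℕ) : ℝ) := by
  obtain ⟨j, a1, a2, a3, a4⟩ := Cel_range h
  rw [zero_add] at a2
  rw [a2]
  exact ⟨a1, a3, a4⟩

theorem Cel_unit {p : ℝ} (h0 : 0 ≤ p) (h1 : p ≤ 1) {L : List ℕ} (hL : L ≠ [])
    (hl : L.getLastD 0 = 1000000) : ∃ c, Cel p c 0 0 L := by
  apply Cel_exists hL
  · push_cast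
    positivity
  · rw [hl]
    push_cast
    linarith

/-- the difference of the class `c` at the vertex `v` -/
def dcv (Dc : List (List ℕ)) (c v : ℕ) : ℕ := (Dc.getD c []).getD v 0

/-- the tree of the global vertex `g` -/
def zckT (s : ℕ) (L : List ℕ) (Dc : List (List ℕ)) (V : ℕ) (T : ZT) (g : ℕ) : Bool :=
  zchk s V (tabL 0 L fun c => dcv Dc c (r0 g)) (tabL 0 L fun c => dcv Dc c (r1 g))
    (tabL 0 L fun c => dcv Dc c (r2 g)) T 0 0 0 1000000 1000000 1000000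

/-- the final number of the global vertex `g` -/
def zckM (Pl : List ℕ) (V X u0 u1 u2 g : ℕ) : Bool :=
  Nat.ble (120000 * U6 * 1000000000 * (Pl.getD (r0 g) 0 + Pl.getD (r1 g) 0 + Pl.getD (r2 g) 0
      + 1000000000000000 * V))
    (14142 * (4 * U6 ^ 4) * (12 * U6 * u0 + X * (u1 * Helper78.MEI.sq g + u2 * tq g)))

/-- the final number in real numbers -/
theorem zckM_le {Pl : List ℕ} {V X u0 u1 u2 g : ℕ} (hg : g < 12)
    (h : zckM Pl V X u0 u1 u2 g = true) :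
    (Pl.getD (r0 g) 0 : ℝ) / (4 * (U6 : ℝ) ^ 4) + (Pl.getD (r1 g) 0 : ℝ) / (4 * (U6 : ℝ) ^ 4)
      + (Pl.getD (r2 g) 0 : ℝ) / (4 * (U6 : ℝ) ^ 4)
      + 1000000000000000 * (V : ℝ) / (4 * (U6 : ℝ) ^ 4)
      ≤ 14142 / 10000 * ((u0 : ℝ) / 1000000000 + (u1 : ℝ) / 1000000000 * ((X : ℝ) / U6 * s12 g)
        + (u2 : ℝ) / 1000000000 * ((X : ℝ) / U6 * (x12 g + y12 g + z12 g))) := by
  have hU := U6_pos
  unfold zckM at h
  rw [Nat.ble_eq] at h
  have h' : ((120000 * U6 * 1000000000 * (Pl.getD (r0 g) 0 + Pl.getD (r1 g) 0 + Pl.getD (r2 g) 0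
      + 1000000000000000 * V) : ℕ) : ℝ) ≤
      ((14142 * (4 * U6 ^ 4) * (12 * U6 * u0 + X * (u1 * Helper78.MEI.sq g + u2 * tq g)) : ℕ) : ℝ) :=
    Nat.cast_le.2 h
  push_cast at h'
  rw [sq_eq hg, tq_eq hg] at h'
  obtain ⟨p0, e0⟩ : ∃ a, a = (Pl.getD (r0 g) 0 : ℝ) := ⟨_, rfl⟩
  obtain ⟨p1, e1⟩ : ∃ a, a = (Pl.getD (r1 g) 0 : ℝ) := ⟨_, rfl⟩
  obtain ⟨p2, e2⟩ : ∃ a, a = (Pl.getD (r2 g) 0 : ℝ) := ⟨_, rfl⟩
  rw [← e0, ← e1, ← e2] at h' ⊢
  obtain ⟨u, hu⟩ : ∃ u : ℝ, u = (U6 : ℝ) := ⟨_, rfl⟩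
  rw [← hu] at h' hU ⊢
  have e : p0 / (4 * u ^ 4) + p1 / (4 * u ^ 4) + p2 / (4 * u ^ 4)
      + 1000000000000000 * (V : ℝ) / (4 * u ^ 4) =
      (p0 + p1 + p2 + 1000000000000000 * V) / (4 * u ^ 4) := by
    field_simp
  rw [e, div_le_iff₀ (by positivity)]
  have hpos : (0 : ℝ) < 120000 * u * 1000000000 := by positivity
  refine le_of_mul_le_mul_left ?_ hpos
  calc 120000 * u * 1000000000 * (p0 + p1 + p2 + 1000000000000000 * V)
      ≤ 14142 * (4 * u ^ 4) * (12 * u * u0 + X * (u1 * (12 * s12 g)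
          + u2 * (12 * (x12 g + y12 g + z12 g)))) := h'
    _ = _ := by
      field_simp
      ring

/-- **the cost of a face**, pointwise in the three relative deficits -/
theorem face_costz {X s x y z : ℝ} (hX : 0 < X) (hs : 0 ≤ s) (hx : 0 ≤ x) (hy : 0 ≤ y)
    (hz : 0 ≤ z) (hsum : s + x + y + z ≤ X) {b0 b1 b2 : ℝ} (h0 : 0 ≤ b0) (h1 : 0 ≤ b1)
    (h2 : 0 ≤ b2) (g0 : b0 ≤ 1) (g1 : b1 ≤ 1) (g2 : b2 ≤ 1)
    {T0 T1 T2 W0 W1 W2 P D0 D1 D2 M : ℕ → ℝ}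
    (a0 : ∀ v < 12, T0 v ≤ P v) (c0 : ∀ v < 12, W0 v ≤ P v + D0 v)
    (a1 : ∀ v < 12, T1 v ≤ P v) (c1 : ∀ v < 12, W1 v ≤ P v + D1 v)
    (a2 : ∀ v < 12, T2 v ≤ P v) (c2 : ∀ v < 12, W2 v ≤ P v + D2 v)
    (hM : ∀ g < 12, P (r0 g) + P (r1 g) + P (r2 g)
      + (b0 * D0 (r0 g) + b1 * D1 (r1 g) + b2 * D2 (r2 g)) ≤ M g) :
    ((1 - b0) * ∑ v ∈ Finset.range 12, lam12 X s x z y v * T0 v
        + b0 * ∑ v ∈ Finset.range 12, lam12 X s x z y v * W0 v) +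
      ((1 - b1) * ∑ v ∈ Finset.range 12, lam12 X s y x z v * T1 v
        + b1 * ∑ v ∈ Finset.range 12, lam12 X s y x z v * W1 v) +
      ((1 - b2) * ∑ v ∈ Finset.range 12, lam12 X s z x y v * T2 v
        + b2 * ∑ v ∈ Finset.range 12, lam12 X s z x y v * W2 v) ≤
      ∑ g ∈ Finset.range 12, lam12 X s x y z g * M g := by
  have L := lam12_nonneg hX hs hx hy hz hsum
  have L0 := lam12_nonneg hX hs hx hz hy (show s + x + z + y ≤ X by linarith)
  have L1 := lam12_nonneg hX hs hy hx hz (show s + y + x + z ≤ X by linarith)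
  have L2 := lam12_nonneg hX hs hz hx hy (show s + z + x + y ≤ X by linarith)
  have key : ∀ (l : ℕ → ℝ) (b : ℝ) (T W D : ℕ → ℝ), (∀ v, 0 ≤ l v) → 0 ≤ b → b ≤ 1 →
      (∀ v < 12, T v ≤ P v) → (∀ v < 12, W v ≤ P v + D v) →
      (1 - b) * ∑ v ∈ Finset.range 12, l v * T v + b * ∑ v ∈ Finset.range 12, l v * W v ≤
        ∑ v ∈ Finset.range 12, l v * (P v + b * D v) := by
    intro l b T W D hl hb0 hb1 hT hW
    rw [Finset.mul_sum, Finset.mul_sum, ← Finset.sum_add_distrib]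
    refine Finset.sum_le_sum fun v hv => ?_
    have hv' := Finset.mem_range.1 hv
    have k0 := mul_le_mul_of_nonneg_left (hT v hv') (sub_nonneg.2 hb1)
    have k1 := mul_le_mul_of_nonneg_left (hW v hv') hb0
    have k2 := mul_le_mul_of_nonneg_left (add_le_add k0 k1) (hl v)
    calc (1 - b) * (l v * T v) + b * (l v * W v) = l v * ((1 - b) * T v + b * W v) := by ring
      _ ≤ l v * ((1 - b) * P v + b * (P v + D v)) := k2
      _ = l v * (P v + b * D v) := by ring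
  have k0 := key _ b0 T0 W0 D0 L0 h0 g0 a0 c0
  have k1 := key _ b1 T1 W1 D1 L1 h1 g1 a1 c1
  have k2 := key _ b2 T2 W2 D2 L2 h2 g2 a2 c2
  rw [perm0 X s x y z fun v => P v + b0 * D0 v] at k0
  rw [perm1 X s x y z fun v => P v + b1 * D1 v] at k1
  rw [perm2 X s x y z fun v => P v + b2 * D2 v] at k2
  refine (add_le_add (add_le_add k0 k1) k2).trans ?_
  rw [← Finset.sum_add_distrib, ← Finset.sum_add_distrib]
  refine Finset.sum_le_sum fun g hg => ?_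
  have hg' := Finset.mem_range.1 hg
  rw [← mul_add, ← mul_add]
  refine mul_le_mul_of_nonneg_left ?_ (L g)
  have e := hM g hg'
  linarith

/-- **the cost of a face from the numbers of the tables**: corner `k` uses the table without apex
(weights `W0 k`) and the table of its class `c k` (weights `W1 k`) -/
theorem face_numz {Pl : List ℕ} {Dc : List (List ℕ)} {L Vl : List ℕ} {Tl : List ZT}
    {X u0 u1 u2 : ℕ} (hX : 0 < X)
    (hf : ∀ g < 12, zckM Pl (Vl.getD g 0) X u0 u1 u2 g = true)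
    (hT : ∀ g < 12, zckT X L Dc (Vl.getD g 0) (Tl.getD g (ZT.lf 0)) g = true)
    {s x y z : ℝ} (hs : 0 ≤ s) (hx : 0 ≤ x) (hy : 0 ≤ y) (hz : 0 ≤ z)
    (hsum : s + x + y + z ≤ (X : ℝ) / U6) {e c : ℝ} {b : Fin 3 → ℝ}
    (hb : b 0 + b 1 + b 2 = 1 + e)
    (h01 : 2 * e ≤ b 0 + b 1) (h02 : 2 * e ≤ b 0 + b 2) (h12 : 2 * e ≤ b 1 + b 2)
    (hc0 : 0 ≤ c) (hc : c ≤ 2 / 5)
    (hQ : b 0 ^ 2 + b 1 ^ 2 + b 2 ^ 2 + b 0 * b 1 + b 0 * b 2 + b 1 * b 2 ≤ 1 + s)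
    {κ : Fin 3 → ℕ} (i0 : Cel (prt (b 2) (b 1)) (κ 0) 0 0 L)
    (i1 : Cel (prt (b 0) (b 2)) (κ 1) 0 0 L) (i2 : Cel (prt (b 0) (b 1)) (κ 2) 0 0 L)
    {W0 W1 : Fin 3 → ℕ → ℕ} (a0 : ∀ k, ∀ v < 12, W0 k v ≤ Pl.getD v 0)
    (a1 : ∀ k, ∀ v < 12, W1 k v ≤ Pl.getD v 0 + 1000000000000000 * dcv Dc (κ k) v) :
    (√2)⁻¹ * (((1 - bet (Zd c e b) (b 2) (b 1)) * ∑ v ∈ Finset.range 12,
            lam12 ((X : ℝ) / U6) s x z y v * ((W0 0 v : ℝ) / (4 * (U6 : ℝ) ^ 4))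
          + bet (Zd c e b) (b 2) (b 1) * ∑ v ∈ Finset.range 12,
            lam12 ((X : ℝ) / U6) s x z y v * ((W1 0 v : ℝ) / (4 * (U6 : ℝ) ^ 4))) +
        ((1 - bet (Zd c e b) (b 0) (b 2)) * ∑ v ∈ Finset.range 12,
            lam12 ((X : ℝ) / U6) s y x z v * ((W0 1 v : ℝ) / (4 * (U6 : ℝ) ^ 4))
          + bet (Zd c e b) (b 0) (b 2) * ∑ v ∈ Finset.range 12,
            lam12 ((X : ℝ) / U6) s y x z v * ((W1 1 v : ℝ) / (4 * (U6 : ℝ) ^ 4))) +
        ((1 - bet (Zd c e b) (b 0) (b 1)) * ∑ v ∈ Finset.range 12,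
            lam12 ((X : ℝ) / U6) s z x y v * ((W0 2 v : ℝ) / (4 * (U6 : ℝ) ^ 4))
          + bet (Zd c e b) (b 0) (b 1) * ∑ v ∈ Finset.range 12,
            lam12 ((X : ℝ) / U6) s z x y v * ((W1 2 v : ℝ) / (4 * (U6 : ℝ) ^ 4)))) ≤
      (u0 : ℝ) / 1000000000 + (u1 : ℝ) / 1000000000 * s + (u2 : ℝ) / 1000000000 * (x + y + z) := by
  have hU := U6_pos
  have hXp : (0 : ℝ) < (X : ℝ) / U6 := _root_.div_pos (Nat.cast_pos.2 hX) hU
  have hq : (0 : ℝ) < 4 * (U6 : ℝ) ^ 4 := by positivity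
  obtain ⟨z1, z2, z3⟩ := Zd_le (by linarith : c ≤ 1 / 2) hb h01 h02 h12
  have hsX : s * 1000000 ≤ (X : ℝ) := by
    have h1 : s ≤ (X : ℝ) / U6 := by linarith
    rw [le_div_iff₀ hU] at h1
    have : (U6 : ℝ) = 1000000 := by norm_num [U6]
    rw [this] at h1
    exact h1
  have key := face_costz hXp hs hx hy hz hsum
    (bet_nonneg (Zd c e b) (b 2) (b 1)) (bet_nonneg (Zd c e b) (b 0) (b 2))
    (bet_nonneg (Zd c e b) (b 0) (b 1)) (bet_le_one (by linarith)) (bet_le_one (by linarith))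
    (bet_le_one (by linarith))
    (T0 := fun v => (W0 0 v : ℝ) / (4 * (U6 : ℝ) ^ 4))
    (T1 := fun v => (W0 1 v : ℝ) / (4 * (U6 : ℝ) ^ 4))
    (T2 := fun v => (W0 2 v : ℝ) / (4 * (U6 : ℝ) ^ 4))
    (W0 := fun v => (W1 0 v : ℝ) / (4 * (U6 : ℝ) ^ 4))
    (W1 := fun v => (W1 1 v : ℝ) / (4 * (U6 : ℝ) ^ 4))
    (W2 := fun v => (W1 2 v : ℝ) / (4 * (U6 : ℝ) ^ 4))
    (P := fun v => (Pl.getD v 0 : ℝ) / (4 * (U6 : ℝ) ^ 4))
    (D0 := fun v => 1000000000000000 * (dcv Dc (κ 0) v : ℝ) / (4 * (U6 : ℝ) ^ 4))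
    (D1 := fun v => 1000000000000000 * (dcv Dc (κ 1) v : ℝ) / (4 * (U6 : ℝ) ^ 4))
    (D2 := fun v => 1000000000000000 * (dcv Dc (κ 2) v : ℝ) / (4 * (U6 : ℝ) ^ 4))
    (M := fun g => 14142 / 10000 * ((u0 : ℝ) / 1000000000
        + (u1 : ℝ) / 1000000000 * ((X : ℝ) / U6 * s12 g)
        + (u2 : ℝ) / 1000000000 * ((X : ℝ) / U6 * (x12 g + y12 g + z12 g))))
    (fun v hv => div_le_div_of_nonneg_right (Nat.cast_le.2 (a0 0 v hv)) hq.le)
    (fun v hv => by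
      beta_reduce
      rw [← add_div]
      refine div_le_div_of_nonneg_right ?_ hq.le
      exact_mod_cast a1 0 v hv)
    (fun v hv => div_le_div_of_nonneg_right (Nat.cast_le.2 (a0 1 v hv)) hq.le)
    (fun v hv => by
      beta_reduce
      rw [← add_div]
      refine div_le_div_of_nonneg_right ?_ hq.le
      exact_mod_cast a1 1 v hv)
    (fun v hv => div_le_div_of_nonneg_right (Nat.cast_le.2 (a0 2 v hv)) hq.le)
    (fun v hv => by
      beta_reduce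
      rw [← add_div]
      refine div_le_div_of_nonneg_right ?_ hq.le
      exact_mod_cast a1 2 v hv)
    (fun g hg => by
      beta_reduce
      have t := zc_geo (hT g hg) hb h01 h02 h12 hc0 hc hsX hs hQ
        (Cel_InC (f := fun c => dcv Dc c (r0 g)) i0) (Cel_InC (f := fun c => dcv Dc c (r1 g)) i1)
        (Cel_InC (f := fun c => dcv Dc c (r2 g)) i2)
      refine le_trans ?_ (zckM_le hg (hf g hg))
      refine add_le_add le_rfl ?_
      beta_reduce at t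
      have e1 : bet (Zd c e b) (b 2) (b 1) * (1000000000000000 * (dcv Dc (κ 0) (r0 g) : ℝ)
            / (4 * (U6 : ℝ) ^ 4))
          + bet (Zd c e b) (b 0) (b 2) * (1000000000000000 * (dcv Dc (κ 1) (r1 g) : ℝ)
            / (4 * (U6 : ℝ) ^ 4))
          + bet (Zd c e b) (b 0) (b 1) * (1000000000000000 * (dcv Dc (κ 2) (r2 g) : ℝ)
            / (4 * (U6 : ℝ) ^ 4)) =
          1000000000000000 * (bet (Zd c e b) (b 2) (b 1) * (dcv Dc (κ 0) (r0 g) : ℝ)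
            + bet (Zd c e b) (b 0) (b 2) * (dcv Dc (κ 1) (r1 g) : ℝ)
            + bet (Zd c e b) (b 0) (b 1) * (dcv Dc (κ 2) (r2 g) : ℝ)) / (4 * (U6 : ℝ) ^ 4) := by
        ring
      rw [e1]
      refine div_le_div_of_nonneg_right ?_ hq.le
      exact mul_le_mul_of_nonneg_left t (by norm_num))
  have tot : ∑ g ∈ Finset.range 12, lam12 ((X : ℝ) / U6) s x y z g *
      (14142 / 10000 * ((u0 : ℝ) / 1000000000
        + (u1 : ℝ) / 1000000000 * ((X : ℝ) / U6 * s12 g)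
        + (u2 : ℝ) / 1000000000 * ((X : ℝ) / U6 * (x12 g + y12 g + z12 g)))) =
      14142 / 10000 * ((u0 : ℝ) / 1000000000 + (u1 : ℝ) / 1000000000 * s
        + (u2 : ℝ) / 1000000000 * (x + y + z)) := by
    have one := lam12_one (s := s) (x := x) (y := y) (z := z) hXp
    have es := lam12_s (s := s) (x := x) (y := y) (z := z) hXp
    have ex := lam12_x (s := s) (x := x) (y := y) (z := z) hXp
    have ey := lam12_y (s := s) (x := x) (y := y) (z := z) hXp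
    have ez := lam12_z (s := s) (x := x) (y := y) (z := z) hXp
    have e1 : ∀ g, lam12 ((X : ℝ) / U6) s x y z g *
      (14142 / 10000 * ((u0 : ℝ) / 1000000000
        + (u1 : ℝ) / 1000000000 * ((X : ℝ) / U6 * s12 g)
        + (u2 : ℝ) / 1000000000 * ((X : ℝ) / U6 * (x12 g + y12 g + z12 g)))) =
      14142 / 10000 * ((u0 : ℝ) / 1000000000) * lam12 ((X : ℝ) / U6) s x y z g
      + 14142 / 10000 * ((u1 : ℝ) / 1000000000) *
        (lam12 ((X : ℝ) / U6) s x y z g * ((X : ℝ) / U6 * s12 g))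
      + 14142 / 10000 * ((u2 : ℝ) / 1000000000) *
        (lam12 ((X : ℝ) / U6) s x y z g * ((X : ℝ) / U6 * x12 g))
      + 14142 / 10000 * ((u2 : ℝ) / 1000000000) *
        (lam12 ((X : ℝ) / U6) s x y z g * ((X : ℝ) / U6 * y12 g))
      + 14142 / 10000 * ((u2 : ℝ) / 1000000000) *
        (lam12 ((X : ℝ) / U6) s x y z g * ((X : ℝ) / U6 * z12 g)) := fun g => by ring
    simp only [e1, Finset.sum_add_distrib, ← Finset.mul_sum]
    rw [one, es, ex, ey, ez]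
    ring
  rw [tot] at key
  obtain ⟨R, hR⟩ : ∃ R, R = (u0 : ℝ) / 1000000000 + (u1 : ℝ) / 1000000000 * s
        + (u2 : ℝ) / 1000000000 * (x + y + z) := ⟨_, rfl⟩
  rw [← hR] at key ⊢
  have hR0 : 0 ≤ R := by
    rw [hR]
    positivity
  have h2 : (14142 / 10000 : ℝ) ≤ √2 := by
    rw [show (14142 / 10000 : ℝ) = √((14142 / 10000) ^ 2) by
      rw [Real.sqrt_sq (by norm_num)]]
    exact Real.sqrt_le_sqrt (by norm_num)
  have h2p : 0 < √2 := Real.sqrt_pos.2 (by norm_num)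
  rw [inv_mul_le_iff₀ h2p]
  have := mul_le_mul_of_nonneg_right h2 hR0
  exact key.trans this

end Helper14.MEI4
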