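import Pool.Agent.Helper14.MEI4.ZC
import Pool.Agent.Helper78.MEI.WB3

/-!
# Project MEI (M2), w-tables: the combination of the three corners for `bet`, `prt`

* `zc_geo`: for the coordinates `b` of a point with `b 0 + b 1 + b 2 = 1 + e` at square distance at
  most `1 + s` from the vertex the three terms `bet · Δ(prt)` add up to at most `V`, if the tree
  check holds.
-/

set_option autoImplicit false

namespace Helper14.MEI4

open Helper93.MEI Helper78.MEI Helper80.CW Helper14.CW Pool.Agent.Helper52.MEI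

/-- the positive parts satisfy the distance condition with the deficit `Z` -/
theorem pos_quad {e c q : ℝ} {b : Fin 3 → ℝ} (hs : b 0 + b 1 + b 2 = 1 + e)
    (h01 : 2 * e ≤ b 0 + b 1) (h02 : 2 * e ≤ b 0 + b 2) (h12 : 2 * e ≤ b 1 + b 2)
    (hc : c ≤ 2 / 5) (hq : 1 ≤ q)
    (hQ : b 0 ^ 2 + b 1 ^ 2 + b 2 ^ 2 + b 0 * b 1 + b 0 * b 2 + b 1 * b 2 ≤ q) :
    pp (b 0) ^ 2 + pp (b 1) ^ 2 + pp (b 2) ^ 2 + pp (b 0) * pp (b 1) + pp (b 0) * pp (b 2)
      + pp (b 1) * pp (b 2) ≤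
      q * (1 + (1 - c) * (pp (-b 0) + pp (-b 1) + pp (-b 2))) ^ 2 := by
  have key : ∀ u : ℝ, (0 ≤ u ∧ pp u = u ∧ pp (-u) = 0) ∨ (u < 0 ∧ pp u = 0 ∧ pp (-u) = -u) := by
    intro u
    rcases le_or_gt 0 u with h | h
    · exact Or.inl ⟨h, max_eq_left h, max_eq_right (by linarith)⟩
    · exact Or.inr ⟨h, max_eq_right h.le, max_eq_left (by linarith)⟩
  -- two nonnegative coordinates `x`, `y`, the third is `-v`
  have main : ∀ x y v : ℝ, 0 ≤ x → 0 ≤ y → 0 ≤ v → x + y - v = 1 + e →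
      x ^ 2 + y ^ 2 + v ^ 2 + x * y - x * v - y * v ≤ q →
      x ^ 2 + y ^ 2 + x * y ≤ q * (1 + (1 - c) * v) ^ 2 := by
    intro x y v hx hy hv hsum hq1
    by_contra hcon
    push Not at hcon
    have hcv : 3 / 5 * v ≤ (1 - c) * v := mul_le_mul_of_nonneg_right (by linarith) hv
    obtain ⟨B, hB⟩ : ∃ B, B = x + y := ⟨_, rfl⟩
    have hmono : q * (1 + 3 / 5 * v) ^ 2 ≤ q * (1 + (1 - c) * v) ^ 2 := by
      apply mul_le_mul_of_nonneg_left _ (by linarith)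
      apply pow_le_pow_left₀ _ (by linarith)
      linarith
    -- `P ≤ q + B v - v ^ 2`
    have hP : x ^ 2 + y ^ 2 + x * y ≤ q + B * v - v ^ 2 := by rw [hB]; nlinarith
    have hP2 : 3 / 4 * B ^ 2 ≤ x ^ 2 + y ^ 2 + x * y := by
      rw [hB]; nlinarith [sq_nonneg (x - y)]
    -- `v > 0`
    have hv0 : 0 < v := by
      rcases eq_or_lt_of_le hv with h | h
      · exfalso
        have e0 : q * (1 + (1 - c) * v) ^ 2 = q := by rw [← h]; ring
        rw [e0] at hcon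
        rw [← h] at hP
        linarith
      · exact h
    -- `B > 1.2 q + (.36 q + 1) v`
    have hBl : 6 / 5 * q + (9 / 25 * q + 1) * v < B := by
      by_contra h
      push Not at h
      have := mul_le_mul_of_nonneg_right h hv
      nlinarith
    have hB0 : 0 < B := by nlinarith
    have h1 : 3 / 4 * B ^ 2 - B * v + v ^ 2 ≤ q := by linarith
    -- monotone in `B`
    obtain ⟨B', hB'⟩ : ∃ B', B' = 6 / 5 * q + (9 / 25 * q + 1) * v := ⟨_, rfl⟩
    rw [← hB'] at hBl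
    have h2 : 0 ≤ (B - B') * (3 / 4 * (B + B') - v) := by
      apply mul_nonneg (by linarith)
      rw [hB'] at hBl ⊢
      nlinarith
    have h3 : 3 / 4 * B' ^ 2 - B' * v + v ^ 2 ≤ q := by nlinarith
    rw [hB'] at h3
    have h4 : 0 ≤ q * v := by positivity
    have h5 : 0 ≤ q * v * (q - 1) := mul_nonneg h4 (by linarith)
    have h6 : 0 ≤ q * v ^ 2 := by positivity
    have h7 : 0 ≤ q ^ 2 * v ^ 2 := by positivity
    have h8 : q ≤ q * q := by nlinarith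
    nlinarith
  -- one nonnegative coordinate `x`, the others are `-v`, `-w`
  have main2 : ∀ x v w : ℝ, 0 ≤ x → 0 < v → 0 < w → x - v - w = 1 + e → 2 * e ≤ -v - w →
      x ^ 2 ≤ q * (1 + (1 - c) * (v + w)) ^ 2 := by
    intro x v w hx hv hw hsum he
    have h1 : x ≤ 1 + (1 - c) * (v + w) := by
      have : 3 / 5 * (v + w) ≤ (1 - c) * (v + w) :=
        mul_le_mul_of_nonneg_right (by linarith) (by linarith)
      linarith
    have h2 : x ^ 2 ≤ (1 + (1 - c) * (v + w)) ^ 2 := pow_le_pow_left₀ hx h1 2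
    have h3 := mul_le_mul_of_nonneg_right hq (sq_nonneg (1 + (1 - c) * (v + w)))
    linarith
  rcases key (b 0) with ⟨a0, a1, a2⟩ | ⟨a0, a1, a2⟩ <;>
  rcases key (b 1) with ⟨c0, c1, c2⟩ | ⟨c0, c1, c2⟩ <;>
  rcases key (b 2) with ⟨d0, d1, d2⟩ | ⟨d0, d1, d2⟩ <;>
  rw [a1, a2, c1, c2, d1, d2]
  · have e1 : q * (1 + (1 - c) * (0 + 0 + 0)) ^ 2 = q := by ring
    rw [e1]
    exact hQ
  · have := main (b 0) (b 1) (-b 2) a0 c0 (by linarith) (by linarith) (by nlinarith)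
    have e1 : q * (1 + (1 - c) * (0 + 0 + -b 2)) ^ 2 = q * (1 + (1 - c) * (-b 2)) ^ 2 := by ring
    rw [e1]
    linarith
  · have := main (b 0) (b 2) (-b 1) a0 d0 (by linarith) (by linarith) (by nlinarith)
    have e1 : q * (1 + (1 - c) * (0 + -b 1 + 0)) ^ 2 = q * (1 + (1 - c) * (-b 1)) ^ 2 := by ring
    rw [e1]
    linarith
  · have := main2 (b 0) (-b 1) (-b 2) a0 (by linarith) (by linarith) (by linarith) (by linarith)
    have e1 : q * (1 + (1 - c) * (0 + -b 1 + -b 2)) ^ 2 =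
        q * (1 + (1 - c) * (-b 1 + -b 2)) ^ 2 := by ring
    rw [e1]
    linarith
  · have := main (b 1) (b 2) (-b 0) c0 d0 (by linarith) (by linarith) (by nlinarith)
    have e1 : q * (1 + (1 - c) * (-b 0 + 0 + 0)) ^ 2 = q * (1 + (1 - c) * (-b 0)) ^ 2 := by ring
    rw [e1]
    linarith
  · have := main2 (b 1) (-b 0) (-b 2) c0 (by linarith) (by linarith) (by linarith) (by linarith)
    have e1 : q * (1 + (1 - c) * (-b 0 + 0 + -b 2)) ^ 2 =
        q * (1 + (1 - c) * (-b 0 + -b 2)) ^ 2 := by ring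
    rw [e1]
    linarith
  · have := main2 (b 2) (-b 0) (-b 1) d0 (by linarith) (by linarith) (by linarith) (by linarith)
    have e1 : q * (1 + (1 - c) * (-b 0 + -b 1 + 0)) ^ 2 =
        q * (1 + (1 - c) * (-b 0 + -b 1)) ^ 2 := by ring
    rw [e1]
    linarith
  · have : 0 ≤ q * (1 + (1 - c) * (-b 0 + -b 1 + -b 2)) ^ 2 := by positivity
    linarith

/-- **the three terms `bet · Δ` add up to at most `V`**: charts of the corners: corner `0` sees
`(x, y) = (b 2, b 1)`, corner `1` sees `(b 0, b 2)`, corner `2` sees `(b 0, b 1)` -/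
theorem zc_geo {s V : ℕ} {t0 t1 t2 : List (ℕ × ℕ)} {T : ZT}
    (hT : zchk s V t0 t1 t2 T 0 0 0 1000000 1000000 1000000 = true)
    {e c s' : ℝ} {b : Fin 3 → ℝ} (hs : b 0 + b 1 + b 2 = 1 + e)
    (h01 : 2 * e ≤ b 0 + b 1) (h02 : 2 * e ≤ b 0 + b 2) (h12 : 2 * e ≤ b 1 + b 2)
    (hc0 : 0 ≤ c) (hc : c ≤ 2 / 5) (hs' : s' * 1000000 ≤ s) (hs0 : 0 ≤ s')
    (hQ : b 0 ^ 2 + b 1 ^ 2 + b 2 ^ 2 + b 0 * b 1 + b 0 * b 2 + b 1 * b 2 ≤ 1 + s')
    {d0 d1 d2 : ℕ} (i0 : InC (prt (b 2) (b 1)) d0 0 t0) (i1 : InC (prt (b 0) (b 2)) d1 0 t1)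
    (i2 : InC (prt (b 0) (b 1)) d2 0 t2) :
    bet (Zd c e b) (b 2) (b 1) * d0 + bet (Zd c e b) (b 0) (b 2) * d1
      + bet (Zd c e b) (b 0) (b 1) * d2 ≤ V := by
  obtain ⟨z1, z2, z3⟩ := Zd_le (by linarith : c ≤ 1 / 2) hs h01 h02 h12
  have hV : (0 : ℝ) ≤ V := by positivity
  rcases le_or_gt (Zd c e b) 0 with hZ | hZ
  · have e0 : ∀ u v : ℝ, bet (Zd c e b) u v = 0 := by
      intro u v
      unfold bet
      rw [show pp (2 * Zd c e b) = 0 from max_eq_right (by linarith), zero_div]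
    rw [e0, e0, e0]
    linarith
  have p0 := pp_nonneg (b 0)
  have p1 := pp_nonneg (b 1)
  have p2 := pp_nonneg (b 2)
  have n0 := pp_nonneg (-b 0)
  have n1 := pp_nonneg (-b 1)
  have n2 := pp_nonneg (-b 2)
  have dec : ∀ u : ℝ, u = pp u - pp (-u) := by
    intro u
    rcases le_total 0 u with h | h
    · have h1 : pp u = u := max_eq_left h
      have h2 : pp (-u) = 0 := max_eq_right (by linarith)
      rw [h1, h2, sub_zero]
    · have h1 : pp u = 0 := max_eq_right h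
      have h2 : pp (-u) = -u := max_eq_left (by linarith)
      rw [h1, h2]
      ring
  have d0' := dec (b 0)
  have d1' := dec (b 1)
  have d2' := dec (b 2)
  have hpq := pos_quad hs h01 h02 h12 hc (by linarith : 1 ≤ 1 + s') hQ
  obtain ⟨B, hB⟩ : ∃ B, B = pp (b 0) + pp (b 1) + pp (b 2) := ⟨_, rfl⟩
  obtain ⟨v, hv⟩ : ∃ v, v = pp (-b 0) + pp (-b 1) + pp (-b 2) := ⟨_, rfl⟩
  obtain ⟨Z, hZd⟩ : ∃ Z, Z = Zd c e b := ⟨_, rfl⟩
  have hv0 : 0 ≤ v := by linarith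
  have hZe : Z = e + c * v := by rw [hZd, hv]; rfl
  have hBZ : B - Z = 1 + (1 - c) * v := by rw [hZe]; linarith
  rw [← hv] at hpq
  rw [← hZd] at hZ z1 z2 z3 ⊢
  have hB0 : 0 < B := by
    have : 0 ≤ (1 - c) * v := mul_nonneg (by linarith) hv0
    linarith
  have hBne : B ≠ 0 := hB0.ne'
  -- the weights
  have w : ∀ x y k : ℝ, 0 ≤ pp x → 0 ≤ pp y → pp x + pp y + k = B → 2 * Z ≤ pp x + pp y →
      0 ≤ bet Z x y ∧ bet Z x y ≤ 1 ∧ bet Z x y * (1 - k / B) ≤ 2 * (Z / B) := by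
    intro x y k hx hy hk h2
    refine ⟨bet_nonneg _ _ _, bet_le_one h2, ?_⟩
    have e1 : 1 - k / B = (pp x + pp y) / B := by
      rw [eq_div_iff hBne, sub_mul, div_mul_cancel₀ _ hBne]
      linarith
    have e2 := bet_mul h2
    rw [show pp (2 * Z) = 2 * Z from max_eq_left (by linarith)] at e2
    rw [e1, ← mul_div_assoc, e2, mul_div_assoc]
  have g0 := w (b 2) (b 1) (pp (b 0)) p2 p1 (by rw [hB]; ring) (by linarith)
  have g1 := w (b 0) (b 2) (pp (b 1)) p0 p2 (by rw [hB]; ring) (by linarith)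
  have g2 := w (b 0) (b 1) (pp (b 2)) p0 p1 (by rw [hB]) (by linarith)
  have hpr : ∀ x y : ℝ, prt x y * (pp y / B) = (1 - prt x y) * (pp x / B) := by
    intro x y
    have := prt_mul x y
    have h3 : prt x y * pp y = (1 - prt x y) * pp x := by linear_combination this
    rw [← mul_div_assoc, ← mul_div_assoc, h3]
  let u : Fin 3 → ℝ := ![pp (b 0) / B, pp (b 1) / B, pp (b 2) / B]
  let β : Fin 3 → ℝ := ![bet Z (b 2) (b 1), bet Z (b 0) (b 2), bet Z (b 0) (b 1)]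
  let p : Fin 3 → ℝ := ![prt (b 2) (b 1), prt (b 0) (b 2), prt (b 0) (b 1)]
  have u0 : u 0 = pp (b 0) / B := rfl
  have u1 : u 1 = pp (b 1) / B := rfl
  have u2 : u 2 = pp (b 2) / B := rfl
  have f0 : ∀ k, 0 ≤ u k := by
    intro k
    fin_cases k
    · exact div_nonneg p0 hB0.le
    · exact div_nonneg p1 hB0.le
    · exact div_nonneg p2 hB0.le
  have f1 : u 0 + u 1 + u 2 = 1 := by
    rw [u0, u1, u2, ← add_div, ← add_div, ← hB, div_self hBne]
  have f2 : Z / B ≤ 1 := by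
    rw [div_le_one hB0]
    have : 0 ≤ (1 - c) * v := mul_nonneg (by linarith) hv0
    linarith
  have f3 : 1 - (u 0 * u 1 + u 1 * u 2 + u 0 * u 2) ≤ (1 - Z / B) ^ 2 * (1 + s') := by
    have e1 : 1 - (u 0 * u 1 + u 1 * u 2 + u 0 * u 2) =
        (pp (b 0) ^ 2 + pp (b 1) ^ 2 + pp (b 2) ^ 2 + pp (b 0) * pp (b 1) + pp (b 0) * pp (b 2)
          + pp (b 1) * pp (b 2)) / B ^ 2 := by
      rw [u0, u1, u2, eq_div_iff (pow_ne_zero 2 hBne)]
      have e3 : pp (b 0) / B * B = pp (b 0) := div_mul_cancel₀ _ hBne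
      have e4 : pp (b 1) / B * B = pp (b 1) := div_mul_cancel₀ _ hBne
      have e5 : pp (b 2) / B * B = pp (b 2) := div_mul_cancel₀ _ hBne
      have e6 : (1 - (pp (b 0) / B * (pp (b 1) / B) + pp (b 1) / B * (pp (b 2) / B)
          + pp (b 0) / B * (pp (b 2) / B))) * B ^ 2 =
          B ^ 2 - ((pp (b 0) / B * B) * (pp (b 1) / B * B)
            + (pp (b 1) / B * B) * (pp (b 2) / B * B)
            + (pp (b 0) / B * B) * (pp (b 2) / B * B)) := by ring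
      rw [e6, e3, e4, e5, hB]
      ring
    have e2 : (1 - Z / B) ^ 2 * (1 + s') = (1 + s') * (1 + (1 - c) * v) ^ 2 / B ^ 2 := by
      rw [eq_div_iff (pow_ne_zero 2 hBne), ← hBZ]
      have e3 : (1 - Z / B) * B = B - Z := by
        rw [sub_mul, div_mul_cancel₀ _ hBne, one_mul]
      have e4 : (1 - Z / B) ^ 2 * (1 + s') * B ^ 2 = ((1 - Z / B) * B) ^ 2 * (1 + s') := by ring
      rw [e4, e3]
      ring
    rw [e1, e2]
    exact div_le_div_of_nonneg_right hpq (by positivity)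
  refine zc_max hT (u := u) (β := β) (p := p) (e := Z / B) (s' := s') f0 f1 hs' hs0 f2 f3
    ?_ ?_ ?_ ?_ ?_ ?_ ?_ ?_ i0 i1 i2
  · intro k
    fin_cases k
    exacts [g0.1, g1.1, g2.1]
  · intro k
    fin_cases k
    exacts [g0.2.1, g1.2.1, g2.2.1]
  · intro k
    fin_cases k
    exacts [g0.2.2, g1.2.2, g2.2.2]
  · intro k
    fin_cases k
    exacts [prt_nonneg _ _, prt_nonneg _ _, prt_nonneg _ _]
  · intro k
    fin_cases k
    exacts [prt_le _ _, prt_le _ _, prt_le _ _]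
  · exact hpr (b 2) (b 1)
  · exact hpr (b 0) (b 2)
  · exact hpr (b 0) (b 1)

/-- the hypotheses of `zc_geo` at a point of a placed body -/
theorem body_geo {a : Fin 4 → E3} (hg : Gram4 (al a)) {x : E3} (hx : Pl a x) {s' : ℝ}
    (hq : Qv a 0 x ≤ s') :
    b3 a x 0 + b3 a x 1 + b3 a x 2 = 1 + -bar a 0 x ∧
    2 * -bar a 0 x ≤ b3 a x 0 + b3 a x 1 ∧ 2 * -bar a 0 x ≤ b3 a x 0 + b3 a x 2 ∧
    2 * -bar a 0 x ≤ b3 a x 1 + b3 a x 2 ∧
    b3 a x 0 ^ 2 + b3 a x 1 ^ 2 + b3 a x 2 ^ 2 + b3 a x 0 * b3 a x 1 + b3 a x 0 * b3 a x 2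
      + b3 a x 1 * b3 a x 2 ≤ 1 + s' := by
  have h1 := bar0_pair hg hx (k := 1) (by decide)
  have h2 := bar0_pair hg hx (k := 2) (by decide)
  have h3 := bar0_pair hg hx (k := 3) (by decide)
  have e0 : b3 a x 0 = bar a 1 x := rfl
  have e1 : b3 a x 1 = bar a 2 x := rfl
  have e2 : b3 a x 2 = bar a 3 x := rfl
  have hs := b3_sum hg x
  have hQ := Qv_eq0 hg x
  rw [hQ] at hq
  rw [e0, e1, e2] at hs ⊢
  refine ⟨by linarith, by linarith, by linarith, by linarith, ?_⟩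
  have e3 : 1 - bar a 0 x = bar a 1 x + bar a 2 x + bar a 3 x := hs.symm
  rw [e3] at hq
  nlinarith

/-- **the combination at a point of a placed body**: charts as in `zc_geo` -/
theorem zc_body {a : Fin 4 → E3} (hg : Gram4 (al a)) {x : E3} (hx : Pl a x)
    {s V : ℕ} {t0 t1 t2 : List (ℕ × ℕ)} {T : ZT}
    (hT : zchk s V t0 t1 t2 T 0 0 0 1000000 1000000 1000000 = true)
    {c s' : ℝ} (hq : Qv a 0 x ≤ s') (hc0 : 0 ≤ c) (hc : c ≤ 2 / 5) (hs' : s' * 1000000 ≤ s)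
    (hs0 : 0 ≤ s') {d0 d1 d2 : ℕ} (i0 : InC (prt (b3 a x 2) (b3 a x 1)) d0 0 t0)
    (i1 : InC (prt (b3 a x 0) (b3 a x 2)) d1 0 t1)
    (i2 : InC (prt (b3 a x 0) (b3 a x 1)) d2 0 t2) :
    bet (Zd c (-bar a 0 x) (b3 a x)) (b3 a x 2) (b3 a x 1) * d0
      + bet (Zd c (-bar a 0 x) (b3 a x)) (b3 a x 0) (b3 a x 2) * d1
      + bet (Zd c (-bar a 0 x) (b3 a x)) (b3 a x 0) (b3 a x 1) * d2 ≤ V := by
  obtain ⟨g1, g2, g3, g4, g5⟩ := body_geo hg hx hq
  exact zc_geo hT g1 g2 g3 g4 hc0 hc hs' hs0 g5 i0 i1 i2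

end Helper14.MEI4
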