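import Pool.Agent.Helper14.MEI4.ZE

/-!
# Project MEI (M2), w-term: the cost of a face from numbers at the corners of the leak box

The most general form: the costs of the corner `k` are bounded by the combination (weights
`lam g * bw8 r`) of the numbers `e g r q k`, `e g r q k + d g r q k` of the class `q` of its
position.
-/

set_option autoImplicit false

namespace Helper14.MEI4

open Helper93.MEI Helper78.MEI Helper80.CW Helper14.CW Pool.Agent.Helper52.MEI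
open Helper60.R7 (jj ll)
open Helper29.MEI (MF V6 V6_pos bw8 bw8_sum bw8_one bw8_nonneg pst pst_nonneg pst_le pst_eq vx0 vx1
  vx2)

/-- the final check of a vertex and a corner `r` of the box of the leaks (units as in `zlck2`) -/
def zfck (nq : ℕ) (tt : Fin 3 → ℕ) (e : ℕ → Fin 3 → ℕ) (em : Fin 3 → ℕ) (V A : ℕ)
    (B : Fin 3 → ℕ) (r : ℕ) : Bool :=
  ((List.range nq).all fun q =>
    Nat.ble (e q 0) (em 0) && Nat.ble (e q 1) (em 1) && Nat.ble (e q 2) (em 2)) &&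
  Nat.ble (em 0 + em 1 + em 2) V &&
  Nat.ble (10000 * (100000000 * V))
    (14142 * (1000000 * A + 1000 * (B 0 * vxk tt 0 r + B 1 * vxk tt 1 r + B 2 * vxk tt 2 r)))

theorem zfck_spec {nq : ℕ} {tt : Fin 3 → ℕ} {e : ℕ → Fin 3 → ℕ} {em : Fin 3 → ℕ} {V A : ℕ}
    {B : Fin 3 → ℕ} {r : ℕ} (h : zfck nq tt e em V A B r = true) :
    (∀ q < nq, ∀ k, e q k ≤ em k) ∧ em 0 + em 1 + em 2 ≤ V ∧
    10000 * (100000000 * V) ≤
      14142 * (1000000 * A + 1000 * (B 0 * vxk tt 0 r + B 1 * vxk tt 1 r + B 2 * vxk tt 2 r)) := by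
  unfold zfck at h
  rw [Bool.and_eq_true, Bool.and_eq_true, Nat.ble_eq, Nat.ble_eq] at h
  refine ⟨?_, h.1.2, h.2⟩
  intro q hq k
  have h2 := List.all_eq_true.1 h.1.1 q (List.mem_range.2 hq)
  simp only [Bool.and_eq_true, Nat.ble_eq] at h2
  obtain ⟨⟨a0, a1⟩, a2⟩ := h2
  have key : k = 0 ∨ k = 1 ∨ k = 2 := by
    fin_cases k <;> simp
  rcases key with rfl | rfl | rfl
  · exact a0
  · exact a1
  · exact a2

/-- the weights of the corners of the box of the leaks -/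
noncomputable def wbx (tt : Fin 3 → ℕ) (n : Fin 3 → ℝ) (r : ℕ) : ℝ :=
  bw8 (pst 0 ((tt 0 : ℝ) / 1000000) (n 0)) (pst 0 ((tt 1 : ℝ) / 1000000) (n 1))
    (pst 0 ((tt 2 : ℝ) / 1000000) (n 2)) r

theorem wbx_nonneg {tt : Fin 3 → ℕ} {n : Fin 3 → ℝ} (hn0 : ∀ k, 0 ≤ n k)
    (hn : ∀ k, n k ≤ (tt k : ℝ) / 1000000) (r : ℕ) : 0 ≤ wbx tt n r :=
  bw8_nonneg (pst_nonneg (hn0 0) (hn 0)) (pst_le (hn0 0) (hn 0)) (pst_nonneg (hn0 1) (hn 1))
    (pst_le (hn0 1) (hn 1)) (pst_nonneg (hn0 2) (hn 2)) (pst_le (hn0 2) (hn 2)) r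

/-- **multi-affine functions of the leaks are the mean of the corners of the box** -/
theorem wbx_mean {tt : Fin 3 → ℕ} {n : Fin 3 → ℝ} (hn0 : ∀ k, 0 ≤ n k)
    (hn : ∀ k, n k ≤ (tt k : ℝ) / 1000000)
    (c0 c1 c2 c3 c12 c13 c23 c123 : ℝ) :
    ∑ r ∈ Finset.range 8, wbx tt n r * (c0 + c1 * ((vxk tt 0 r : ℝ) / 1000000)
      + c2 * ((vxk tt 1 r : ℝ) / 1000000) + c3 * ((vxk tt 2 r : ℝ) / 1000000)
      + c12 * (((vxk tt 0 r : ℝ) / 1000000) * ((vxk tt 1 r : ℝ) / 1000000))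
      + c13 * (((vxk tt 0 r : ℝ) / 1000000) * ((vxk tt 2 r : ℝ) / 1000000))
      + c23 * (((vxk tt 1 r : ℝ) / 1000000) * ((vxk tt 2 r : ℝ) / 1000000))
      + c123 * (((vxk tt 0 r : ℝ) / 1000000) * ((vxk tt 1 r : ℝ) / 1000000)
        * ((vxk tt 2 r : ℝ) / 1000000))) =
      c0 + c1 * n 0 + c2 * n 1 + c3 * n 2 + c12 * (n 0 * n 1) + c13 * (n 0 * n 2)
        + c23 * (n 1 * n 2) + c123 * (n 0 * n 1 * n 2) := by
  have e0 : ∀ r, vxk tt 0 r = vx0 0 (tt 0) r := fun r => rfl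
  have e1 : ∀ r, vxk tt 1 r = vx1 0 (tt 1) r := fun r => rfl
  have e2 : ∀ r, vxk tt 2 r = vx2 0 (tt 2) r := fun r => rfl
  have pn : ∀ k, pst 0 ((tt k : ℝ) / 1000000) (n k) * ((tt k : ℝ) / 1000000) = n k := fun k => by
    have := pst_eq (hn0 k) (hn k)
    rw [mul_zero, zero_add] at this
    exact this
  unfold wbx
  rw [bw8_sum]
  simp only [e0, e1, e2, vx0, vx1, vx2]
  conv_rhs => rw [← pn 0, ← pn 1, ← pn 2]
  norm_num
  ring

/-- **the cost of a face from numbers at the corners of the box** -/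
theorem zlin3 {a : Fin 4 → E3} (hg : Gram4 (al a)) {x : E3} (hx : Pl a x) {X : ℕ} {c s' : ℝ}
    (hq : Qv a 0 x ≤ s') (hc0 : 0 ≤ c) (hc : c ≤ 2 / 5) (hs' : s' * 1000000 ≤ X) (hs0 : 0 ≤ s')
    {L : List ℕ} {κ : Fin 3 → ℕ} (hκ : ∀ k, Cel (pcor a x k) (κ k) 0 0 L)
    {ι : Type*} (I : Finset ι) {lam : ι → ℝ} (hl : ∀ g ∈ I, 0 ≤ lam g)
    {n : Fin 3 → ℝ} {tt : Fin 3 → ℕ} (hn0 : ∀ k, 0 ≤ n k)
    (hn : ∀ k, n k ≤ (tt k : ℝ) / 1000000)
    {e d : ι → ℕ → ℕ → Fin 3 → ℕ} {em : ι → ℕ → Fin 3 → ℕ}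
    {V : ι → ℕ → ℕ} {A : ι → ℕ} {B : ι → Fin 3 → ℕ} {Tr : ι → ℕ → ZT}
    (hck : ∀ g ∈ I, ∀ r < 8, zfck L.length tt (e g r) (em g r) (V g r) (A g) (B g) r = true)
    (hz : ∀ g ∈ I, ∀ r < 8, zchk2 X (V g r) (tabL2 0 L (fun q => e g r q 0) fun q => d g r q 0)
      (tabL2 0 L (fun q => e g r q 1) fun q => d g r q 1)
      (tabL2 0 L (fun q => e g r q 2) fun q => d g r q 2) (Tr g r)
      0 0 0 1000000 1000000 1000000 = true)
    {T W : Fin 3 → ℝ}
    (hT : ∀ k, T k ≤ ∑ g ∈ I, ∑ r ∈ Finset.range 8, lam g * wbx tt n r *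
      (1 / 10000000000 * (e g r (κ k) k : ℝ)))
    (hW : ∀ k, W k ≤ ∑ g ∈ I, ∑ r ∈ Finset.range 8, lam g * wbx tt n r *
      (1 / 10000000000 * (e g r (κ k) k : ℝ) + 1 / 10000000000 * (d g r (κ k) k : ℝ))) :
    (√2)⁻¹ * (((1 - bcor a c x 0) * T 0 + bcor a c x 0 * W 0)
      + ((1 - bcor a c x 1) * T 1 + bcor a c x 1 * W 1)
      + ((1 - bcor a c x 2) * T 2 + bcor a c x 2 * W 2)) ≤
      ∑ g ∈ I, lam g * ((A g : ℝ) / 1000000000000 + (B g 0 : ℝ) / 1000000000 * n 0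
        + (B g 1 : ℝ) / 1000000000 * n 1 + (B g 2 : ℝ) / 1000000000 * n 2) := by
  have bw : ∀ r, 0 ≤ wbx tt n r := wbx_nonneg hn0 hn
  have key := zcomb2 hg hx hq hc0 hc hs' hs0 hκ (I ×ˢ Finset.range 8)
    (lam := fun g => lam g.1 * wbx tt n g.2)
    (fun g hg' => mul_nonneg (hl _ (Finset.mem_product.1 hg').1) (bw _))
    (e := fun g q k => e g.1 g.2 q k) (d := fun g q k => d g.1 g.2 q k)
    (em := fun g k => em g.1 g.2 k) (V := fun g => V g.1 g.2) (Tr := fun g => Tr g.1 g.2)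
    (fun g hg' q hq' k => (zfck_spec (hck g.1 (Finset.mem_product.1 hg').1 g.2
      (Finset.mem_range.1 (Finset.mem_product.1 hg').2))).1 q hq' k)
    (fun g hg' => (zfck_spec (hck g.1 (Finset.mem_product.1 hg').1 g.2
      (Finset.mem_range.1 (Finset.mem_product.1 hg').2))).2.1)
    (fun g hg' => hz g.1 (Finset.mem_product.1 hg').1 g.2
      (Finset.mem_range.1 (Finset.mem_product.1 hg').2))
    (δ := 1 / 10000000000) (by norm_num) (T := T) (W := W)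
    (fun k => by
      refine (hT k).trans (le_of_eq ?_)
      rw [Finset.sum_product])
    (fun k => by
      refine (hW k).trans (le_of_eq ?_)
      rw [Finset.sum_product])
  have h2 : (14142 / 10000 : ℝ) ≤ √2 := by
    rw [show (14142 / 10000 : ℝ) = √((14142 / 10000) ^ 2) by
      rw [Real.sqrt_sq (by norm_num)]]
    exact Real.sqrt_le_sqrt (by norm_num)
  rw [inv_mul_le_iff₀ (Real.sqrt_pos.2 (by norm_num))]
  refine key.trans ?_
  rw [Finset.sum_product, Finset.mul_sum]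
  refine Finset.sum_le_sum fun g hg' => ?_
  have hC0 : 0 ≤ (A g : ℝ) / 1000000000000 + (B g 0 : ℝ) / 1000000000 * n 0
        + (B g 1 : ℝ) / 1000000000 * n 1 + (B g 2 : ℝ) / 1000000000 * n 2 := by
    have := hn0 0
    have := hn0 1
    have := hn0 2
    positivity
  -- each corner of the box
  have st : ∀ r < 8, 1 / 10000000000 * (V g r : ℝ) ≤
      14142 / 10000 * ((A g : ℝ) / 1000000000000
        + (B g 0 : ℝ) / 1000000000 * ((vxk tt 0 r : ℝ) / 1000000)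
        + (B g 1 : ℝ) / 1000000000 * ((vxk tt 1 r : ℝ) / 1000000)
        + (B g 2 : ℝ) / 1000000000 * ((vxk tt 2 r : ℝ) / 1000000)) := by
    intro r hr
    have h := (zfck_spec (hck g hg' r hr)).2.2
    have h' : 10000 * (100000000 * (V g r : ℝ)) ≤
      14142 * (1000000 * (A g : ℝ) + 1000 * ((B g 0 : ℝ) * (vxk tt 0 r : ℝ)
        + (B g 1 : ℝ) * (vxk tt 1 r : ℝ) + (B g 2 : ℝ) * (vxk tt 2 r : ℝ))) := by
      exact_mod_cast h
    linarith
  have lin := wbx_mean (tt := tt) hn0 hn ((A g : ℝ) / 1000000000000) ((B g 0 : ℝ) / 1000000000)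
    ((B g 1 : ℝ) / 1000000000) ((B g 2 : ℝ) / 1000000000) 0 0 0 0
  simp only [zero_mul, add_zero] at lin
  have fin : ∑ r ∈ Finset.range 8, lam g * wbx tt n r * (1 / 10000000000 * (V g r : ℝ)) ≤
      lam g * (14142 / 10000 * ((A g : ℝ) / 1000000000000 + (B g 0 : ℝ) / 1000000000 * n 0
        + (B g 1 : ℝ) / 1000000000 * n 1 + (B g 2 : ℝ) / 1000000000 * n 2)) := by
    rw [← lin, Finset.mul_sum, Finset.mul_sum]
    refine Finset.sum_le_sum fun r hr => ?_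
    have h := mul_le_mul_of_nonneg_left (mul_le_mul_of_nonneg_left (st r (Finset.mem_range.1 hr))
      (bw r)) (hl g hg')
    linarith
  refine fin.trans ?_
  have h3 := mul_le_mul_of_nonneg_right h2 (mul_nonneg (hl g hg') hC0)
  linarith

end Helper14.MEI4
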