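import Pool.Agent.Helper14.MEI4.ZH

/-!
# Project MEI (M2), w-term: classes by the direction `p` and by the height `u k` of the apex

As `ZD`, `ZH`; the class of the corner `k` is the pair (cell of `p k`, cell of
`u k = (b k)⁺ / Σ (b)⁺`), number `κ k + L.length * σ k`.
-/

set_option autoImplicit false

namespace Helper14.MEI4

/-- one corner: largest value over the cells of `u k` which meet `[Lk, Hk]` -/
def crn3 (E La Ha Lb Hb Lk Hk : ℕ) : ℕ → List (ℕ × List (ℕ × ℕ × ℕ)) → ℕ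
  | _, [] => 0
  | Pl, c :: r =>
    max (if Nat.ble Pl Hk && Nat.ble Lk c.1 then crn2 E La Ha Lb Hb (min Hk c.1) c.2 else 0)
      (crn3 E La Ha Lb Hb Lk Hk c.1 r)

/-- check of a leaf, tightened box -/
def lchk3 (s V E : ℕ) (t0 t1 t2 : List (ℕ × List (ℕ × ℕ × ℕ)))
    (L0 L1 L2 H0 H1 H2 : ℕ) : Bool :=
  echk s E L0 L1 L2 H0 H1 H2 L0 L1 L2 &&
  Nat.ble (crn3 E L2 H2 L1 H1 L0 H0 0 t0
    + (crn3 E L0 H0 L2 H2 L1 H1 0 t1 + crn3 E L0 H0 L1 H1 L2 H2 0 t2))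
    (V * 1000000)

/-- the check -/
def zchk3 (s V : ℕ) (t0 t1 t2 : List (ℕ × List (ℕ × ℕ × ℕ))) :
    ZT → ℕ → ℕ → ℕ → ℕ → ℕ → ℕ → Bool
  | ZT.lf E, l0, l1, l2, h0, h1, h2 =>
    Nat.blt 1000000 (l0 + l1 + l2) || (Nat.blt (h0 + h1 + h2) 1000000 ||
    lchk3 s V E t0 t1 t2
      (max l0 (1000000 - (h1 + h2))) (max l1 (1000000 - (h0 + h2))) (max l2 (1000000 - (h0 + h1)))
      (min h0 (1000000 - (l1 + l2))) (min h1 (1000000 - (l0 + l2))) (min h2 (1000000 - (l0 + l1))))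
  | ZT.s0 v l r, l0, l1, l2, h0, h1, h2 =>
    zchk3 s V t0 t1 t2 l l0 l1 l2 v h1 h2 && zchk3 s V t0 t1 t2 r v l1 l2 h0 h1 h2
  | ZT.s1 v l r, l0, l1, l2, h0, h1, h2 =>
    zchk3 s V t0 t1 t2 l l0 l1 l2 h0 v h2 && zchk3 s V t0 t1 t2 r l0 v l2 h0 h1 h2
  | ZT.s2 v l r, l0, l1, l2, h0, h1, h2 =>
    zchk3 s V t0 t1 t2 l l0 l1 l2 h0 h1 v && zchk3 s V t0 t1 t2 r l0 l1 v h0 h1 h2

/-- `u` lies in a cell, `p` in a cell of its table with the values `e`, `d` -/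
def InC3 (u p : ℝ) (e d : ℕ) : ℕ → List (ℕ × List (ℕ × ℕ × ℕ)) → Prop
  | _, [] => False
  | Pl, c :: r => ((Pl : ℝ) ≤ u * 1000000 ∧ u * 1000000 ≤ c.1 ∧ InC2 p e d 0 c.2) ∨
      InC3 u p e d c.1 r

theorem crn3_ge {β e p ua ub uk : ℝ} (hβ1 : β ≤ 1) (hβ : 0 ≤ β) (hb : β * (1 - uk) ≤ 2 * e)
    (hs : ua + ub + uk = 1)
    (hp0 : 0 ≤ p) (hp1 : p ≤ 1) (hpu : p * ub = (1 - p) * ua) {E La Ha Lb Hb Lk Hk : ℕ}
    (he : e * 1000000 ≤ E) (h1 : (La : ℝ) ≤ ua * 1000000) (h2 : ua * 1000000 ≤ Ha)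
    (h3 : (Lb : ℝ) ≤ ub * 1000000) (h4 : ub * 1000000 ≤ Hb) (h5 : (Lk : ℝ) ≤ uk * 1000000)
    (h6 : uk * 1000000 ≤ Hk) {c d : ℕ} :
    ∀ {tb : List (ℕ × List (ℕ × ℕ × ℕ))} {Pl : ℕ}, InC3 uk p c d Pl tb →
      (c + β * d) * 1000000 ≤ crn3 E La Ha Lb Hb Lk Hk Pl tb := by
  intro tb
  induction tb with
  | nil => intro Pl h; exact h.elim
  | cons g r ih =>
    intro Pl h
    unfold crn3
    rcases h with ⟨a1, a2, a3⟩ | h
    · have c1 : Pl ≤ Hk := by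
        have : (Pl : ℝ) ≤ Hk := by linarith
        exact_mod_cast this
      have c2 : Lk ≤ g.1 := by
        have : (Lk : ℝ) ≤ g.1 := by linarith
        exact_mod_cast this
      have h6' : uk * 1000000 ≤ ((min Hk g.1 : ℕ) : ℝ) := by
        rcases le_total Hk g.1 with h | h
        · rw [min_eq_left h]
          exact h6
        · rw [min_eq_right h]
          exact a2
      have k1 := crn2_ge hβ1 hβ hb hs hp0 hp1 hpu he h1 h2 h3 h4 h6' a3
      rw [Nat.ble_eq_true_of_le c1, Nat.ble_eq_true_of_le c2]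
      refine k1.trans ?_
      have : crn2 E La Ha Lb Hb (min Hk g.1) g.2 ≤ max (if (true && true) = true then
          crn2 E La Ha Lb Hb (min Hk g.1) g.2 else 0) (crn3 E La Ha Lb Hb Lk Hk g.1 r) := by
        simp
      exact_mod_cast this
    · have k1 := ih h
      refine k1.trans ?_
      have : crn3 E La Ha Lb Hb Lk Hk g.1 r ≤ max (if (Nat.ble Pl Hk && Nat.ble Lk g.1) = true
          then crn2 E La Ha Lb Hb (min Hk g.1) g.2 else 0) (crn3 E La Ha Lb Hb Lk Hk g.1 r) :=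
        le_max_right _ _
      exact_mod_cast this

/-- **soundness of the tree** -/
theorem zchk3_sound {e s' : ℝ} {u β p : Fin 3 → ℝ} (hu : ∀ k, 0 ≤ u k)
    (hs : u 0 + u 1 + u 2 = 1) {s V : ℕ} (hs' : s' * 1000000 ≤ s) (hs0 : 0 ≤ s') (he1 : e ≤ 1)
    (hmt : 1 - (u 0 * u 1 + u 1 * u 2 + u 0 * u 2) ≤ (1 - e) ^ 2 * (1 + s'))
    (hβ0 : ∀ k, 0 ≤ β k) (hβ1 : ∀ k, β k ≤ 1) (hβ : ∀ k, β k * (1 - u k) ≤ 2 * e)
    (hp0 : ∀ k, 0 ≤ p k) (hp1 : ∀ k, p k ≤ 1)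
    (q0 : p 0 * u 1 = (1 - p 0) * u 2) (q1 : p 1 * u 2 = (1 - p 1) * u 0)
    (q2 : p 2 * u 1 = (1 - p 2) * u 0)
    {t0 t1 t2 : List (ℕ × List (ℕ × ℕ × ℕ))} {e0 e1 e2 d0 d1 d2 : ℕ}
    (i0 : InC3 (u 0) (p 0) e0 d0 0 t0)
    (i1 : InC3 (u 1) (p 1) e1 d1 0 t1) (i2 : InC3 (u 2) (p 2) e2 d2 0 t2) :
    ∀ (T : ZT) {l0 l1 l2 h0 h1 h2 : ℕ}, zchk3 s V t0 t1 t2 T l0 l1 l2 h0 h1 h2 = true →
      (l0 : ℝ) ≤ u 0 * 1000000 → (l1 : ℝ) ≤ u 1 * 1000000 → (l2 : ℝ) ≤ u 2 * 1000000 →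
      u 0 * 1000000 ≤ h0 → u 1 * 1000000 ≤ h1 → u 2 * 1000000 ≤ h2 →
      (e0 + β 0 * d0) + (e1 + β 1 * d1) + (e2 + β 2 * d2) ≤ V := by
  intro T
  induction T with
  | lf E =>
    intro l0 l1 l2 h0 h1 h2 hk a0 a1 a2 b0 b1 b2
    unfold zchk3 at hk
    rw [Bool.or_eq_true, Bool.or_eq_true] at hk
    rcases hk with hk | hk | hk
    · exfalso
      have hk := Nat.le_of_ble_eq_true hk
      have : (1000000 : ℝ) + 1 ≤ l0 + l1 + l2 := by exact_mod_cast hk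
      nlinarith
    · exfalso
      have hk := Nat.le_of_ble_eq_true hk
      have : (h0 : ℝ) + h1 + h2 + 1 ≤ 1000000 := by exact_mod_cast hk
      nlinarith
    · unfold lchk3 at hk
      rw [Bool.and_eq_true] at hk
      obtain ⟨ke, kv⟩ := hk
      have lo : ∀ {l a b : ℕ} {x y z : ℝ}, x + y + z = 1 → (l : ℝ) ≤ x * 1000000 →
          y * 1000000 ≤ a → z * 1000000 ≤ b →
          ((max l (1000000 - (a + b)) : ℕ) : ℝ) ≤ x * 1000000 := by
        intro l a b x y z hxyz hl ha hb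
        rcases le_total l (1000000 - (a + b)) with h | h
        · rw [max_eq_right h]
          rcases le_total (a + b) 1000000 with h' | h'
          · rw [Nat.cast_sub h']
            push_cast
            linarith
          · rw [Nat.sub_eq_zero_of_le h']
            have : (0 : ℝ) ≤ l := by positivity
            push_cast
            linarith
        · rw [max_eq_left h]
          exact hl
      have hi : ∀ {l a b : ℕ} {x y z : ℝ}, x + y + z = 1 → x * 1000000 ≤ l →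
          (a : ℝ) ≤ y * 1000000 → (b : ℝ) ≤ z * 1000000 →
          x * 1000000 ≤ ((min l (1000000 - (a + b)) : ℕ) : ℝ) := by
        intro l a b x y z hxyz hl ha hb
        rcases le_total l (1000000 - (a + b)) with h | h
        · rw [min_eq_left h]
          exact hl
        · rw [min_eq_right h]
          rcases le_total (a + b) 1000000 with h' | h'
          · rw [Nat.cast_sub h']
            push_cast
            linarith
          · have h'' : (1000000 : ℝ) ≤ a + b := by exact_mod_cast h'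
            rw [Nat.sub_eq_zero_of_le h']
            push_cast
            linarith
      have s0 : u 0 + u 1 + u 2 = 1 := hs
      have s1 : u 1 + u 0 + u 2 = 1 := by linarith
      have s2 : u 2 + u 0 + u 1 = 1 := by linarith
      have L0 := lo s0 a0 b1 b2
      have L1 := lo s1 a1 b0 b2
      have L2 := lo s2 a2 b0 b1
      have H0 := hi s0 b0 a1 a2
      have H1 := hi s1 b1 a0 a2
      have H2 := hi s2 b2 a0 a1
      have he := echk_ge hu hs hs' hs0 he1 hmt L0 L1 L2 ke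
      have c0 := crn3_ge (hβ1 0) (hβ0 0) (hβ 0)
        (by linarith : u 2 + u 1 + u 0 = 1) (hp0 0) (hp1 0) q0 he L2 H2 L1 H1 L0 H0 i0
      have c1 := crn3_ge (hβ1 1) (hβ0 1) (hβ 1)
        (by linarith : u 0 + u 2 + u 1 = 1) (hp0 1) (hp1 1) q1 he L0 H0 L2 H2 L1 H1 i1
      have c2 := crn3_ge (hβ1 2) (hβ0 2) (hβ 2)
        (by linarith : u 0 + u 1 + u 2 = 1) (hp0 2) (hp1 2) q2 he L0 H0 L1 H1 L2 H2 i2
      have kv := Nat.le_of_ble_eq_true kv
      have kv' : ((crn3 E (max l2 (1000000 - (h0 + h1))) (min h2 (1000000 - (l0 + l1)))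
          (max l1 (1000000 - (h0 + h2))) (min h1 (1000000 - (l0 + l2)))
          (max l0 (1000000 - (h1 + h2)))
          (min h0 (1000000 - (l1 + l2))) 0 t0 : ℕ) : ℝ)
          + (((crn3 E (max l0 (1000000 - (h1 + h2))) (min h0 (1000000 - (l1 + l2)))
          (max l2 (1000000 - (h0 + h1))) (min h2 (1000000 - (l0 + l1)))
          (max l1 (1000000 - (h0 + h2)))
          (min h1 (1000000 - (l0 + l2))) 0 t1 : ℕ) : ℝ)
          + ((crn3 E (max l0 (1000000 - (h1 + h2))) (min h0 (1000000 - (l1 + l2)))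
          (max l1 (1000000 - (h0 + h2))) (min h1 (1000000 - (l0 + l2)))
          (max l2 (1000000 - (h0 + h1)))
          (min h2 (1000000 - (l0 + l1))) 0 t2 : ℕ) : ℝ)) ≤
          V * 1000000 := by exact_mod_cast kv
      linarith
  | s0 v l r ihl ihr =>
    intro l0 l1 l2 h0 h1 h2 hk a0 a1 a2 b0 b1 b2
    unfold zchk3 at hk
    rw [Bool.and_eq_true] at hk
    rcases le_total (u 0 * 1000000) (v : ℝ) with h | h
    · exact ihl hk.1 a0 a1 a2 h b1 b2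
    · exact ihr hk.2 h a1 a2 b0 b1 b2
  | s1 v l r ihl ihr =>
    intro l0 l1 l2 h0 h1 h2 hk a0 a1 a2 b0 b1 b2
    unfold zchk3 at hk
    rw [Bool.and_eq_true] at hk
    rcases le_total (u 1 * 1000000) (v : ℝ) with h | h
    · exact ihl hk.1 a0 a1 a2 b0 h b2
    · exact ihr hk.2 a0 h a2 b0 b1 b2
  | s2 v l r ihl ihr =>
    intro l0 l1 l2 h0 h1 h2 hk a0 a1 a2 b0 b1 b2
    unfold zchk3 at hk
    rw [Bool.and_eq_true] at hk
    rcases le_total (u 2 * 1000000) (v : ℝ) with h | h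
    · exact ihl hk.1 a0 a1 a2 b0 b1 h
    · exact ihr hk.2 a0 a1 h b0 b1 b2

/-- **the combination of the three corners** -/
theorem ze_max {s V : ℕ} {t0 t1 t2 : List (ℕ × List (ℕ × ℕ × ℕ))} {T : ZT}
    (hT : zchk3 s V t0 t1 t2 T 0 0 0 1000000 1000000 1000000 = true)
    {e s' : ℝ} {u β p : Fin 3 → ℝ} (hu : ∀ k, 0 ≤ u k)
    (hs : u 0 + u 1 + u 2 = 1) (hs' : s' * 1000000 ≤ s) (hs0 : 0 ≤ s') (he1 : e ≤ 1)
    (hmt : 1 - (u 0 * u 1 + u 1 * u 2 + u 0 * u 2) ≤ (1 - e) ^ 2 * (1 + s'))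
    (hβ0 : ∀ k, 0 ≤ β k) (hβ1 : ∀ k, β k ≤ 1) (hβ : ∀ k, β k * (1 - u k) ≤ 2 * e)
    (hp0 : ∀ k, 0 ≤ p k) (hp1 : ∀ k, p k ≤ 1)
    (q0 : p 0 * u 1 = (1 - p 0) * u 2) (q1 : p 1 * u 2 = (1 - p 1) * u 0)
    (q2 : p 2 * u 1 = (1 - p 2) * u 0)
    {e0 e1 e2 d0 d1 d2 : ℕ} (i0 : InC3 (u 0) (p 0) e0 d0 0 t0)
    (i1 : InC3 (u 1) (p 1) e1 d1 0 t1) (i2 : InC3 (u 2) (p 2) e2 d2 0 t2) :
    (e0 + β 0 * d0) + (e1 + β 1 * d1) + (e2 + β 2 * d2) ≤ V := by
  refine zchk3_sound hu hs hs' hs0 he1 hmt hβ0 hβ1 hβ hp0 hp1 q0 q1 q2 i0 i1 i2 T hT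
    ?_ ?_ ?_ ?_ ?_ ?_
  · push_cast; exact mul_nonneg (hu 0) (by norm_num)
  · push_cast; exact mul_nonneg (hu 1) (by norm_num)
  · push_cast; exact mul_nonneg (hu 2) (by norm_num)
  · push_cast; have := hu 1; have := hu 2; nlinarith
  · push_cast; have := hu 0; have := hu 2; nlinarith
  · push_cast; have := hu 0; have := hu 1; nlinarith

open Helper93.MEI Helper78.MEI

/-- height of the apex over the side opposite to the corner `k`, relative -/
noncomputable def hgt (b : Fin 3 → ℝ) (k : Fin 3) : ℝ :=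
  pp (b k) / (pp (b 0) + pp (b 1) + pp (b 2))

/-- **the three terms add up to at most `V`** -/
theorem ze_geo {s V : ℕ} {t0 t1 t2 : List (ℕ × List (ℕ × ℕ × ℕ))} {T : ZT}
    (hT : zchk3 s V t0 t1 t2 T 0 0 0 1000000 1000000 1000000 = true)
    {e c s' : ℝ} {b : Fin 3 → ℝ} (hs : b 0 + b 1 + b 2 = 1 + e)
    (h01 : 2 * e ≤ b 0 + b 1) (h02 : 2 * e ≤ b 0 + b 2) (h12 : 2 * e ≤ b 1 + b 2)
    (hc0 : 0 ≤ c) (hc : c ≤ 2 / 5) (hs' : s' * 1000000 ≤ s) (hs0 : 0 ≤ s')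
    (hQ : b 0 ^ 2 + b 1 ^ 2 + b 2 ^ 2 + b 0 * b 1 + b 0 * b 2 + b 1 * b 2 ≤ 1 + s')
    {e0 e1 e2 d0 d1 d2 : ℕ} (i0 : InC3 (hgt b 0) (prt (b 2) (b 1)) e0 d0 0 t0)
    (i1 : InC3 (hgt b 1) (prt (b 0) (b 2)) e1 d1 0 t1)
    (i2 : InC3 (hgt b 2) (prt (b 0) (b 1)) e2 d2 0 t2)
    (h3 : e0 + e1 + e2 ≤ V) :
    (e0 + bet (Zd c e b) (b 2) (b 1) * d0) + (e1 + bet (Zd c e b) (b 0) (b 2) * d1)
      + (e2 + bet (Zd c e b) (b 0) (b 1) * d2) ≤ V := by
  obtain ⟨z1, z2, z3⟩ := Zd_le (by linarith : c ≤ 1 / 2) hs h01 h02 h12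
  have hV : (0 : ℝ) ≤ V := by positivity
  rcases le_or_gt (Zd c e b) 0 with hZ | hZ
  · have e0' : ∀ u v : ℝ, bet (Zd c e b) u v = 0 := by
      intro u v
      unfold bet
      rw [show pp (2 * Zd c e b) = 0 from max_eq_right (by linarith), zero_div]
    rw [e0', e0', e0']
    have : ((e0 + e1 + e2 : ℕ) : ℝ) ≤ V := by exact_mod_cast h3
    push_cast at this
    linarith
  have p0 := pp_nonneg (b 0)
  have p1 := pp_nonneg (b 1)
  have p2 := pp_nonneg (b 2)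
  have n0 := pp_nonneg (-b 0)
  have n1 := pp_nonneg (-b 1)
  have n2 := pp_nonneg (-b 2)
  have dec : ∀ u : ℝ, u = pp u - pp (-u) := by
    intro u
    rcases le_total 0 u with h | h
    · have h1 : pp u = u := max_eq_left h
      have h2 : pp (-u) = 0 := max_eq_right (by linarith)
      rw [h1, h2, sub_zero]
    · have h1 : pp u = 0 := max_eq_right h
      have h2 : pp (-u) = -u := max_eq_left (by linarith)
      rw [h1, h2]
      ring
  have d0' := dec (b 0)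
  have d1' := dec (b 1)
  have d2' := dec (b 2)
  have hpq := pos_quad hs h01 h02 h12 hc (by linarith : 1 ≤ 1 + s') hQ
  obtain ⟨B, hB⟩ : ∃ B, B = pp (b 0) + pp (b 1) + pp (b 2) := ⟨_, rfl⟩
  obtain ⟨v, hv⟩ : ∃ v, v = pp (-b 0) + pp (-b 1) + pp (-b 2) := ⟨_, rfl⟩
  obtain ⟨Z, hZd⟩ : ∃ Z, Z = Zd c e b := ⟨_, rfl⟩
  have hv0 : 0 ≤ v := by linarith
  have hZe : Z = e + c * v := by rw [hZd, hv]; rfl
  have hBZ : B - Z = 1 + (1 - c) * v := by rw [hZe]; linarith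
  rw [← hv] at hpq
  rw [← hZd] at hZ z1 z2 z3 ⊢
  have hB0 : 0 < B := by
    have : 0 ≤ (1 - c) * v := mul_nonneg (by linarith) hv0
    linarith
  have hBne : B ≠ 0 := hB0.ne'
  -- the weights
  have w : ∀ x y k : ℝ, 0 ≤ pp x → 0 ≤ pp y → pp x + pp y + k = B → 2 * Z ≤ pp x + pp y →
      0 ≤ bet Z x y ∧ bet Z x y ≤ 1 ∧ bet Z x y * (1 - k / B) ≤ 2 * (Z / B) := by
    intro x y k hx hy hk h2
    refine ⟨bet_nonneg _ _ _, bet_le_one h2, ?_⟩
    have e1 : 1 - k / B = (pp x + pp y) / B := by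
      rw [eq_div_iff hBne, sub_mul, div_mul_cancel₀ _ hBne]
      linarith
    have e2 := bet_mul h2
    rw [show pp (2 * Z) = 2 * Z from max_eq_left (by linarith)] at e2
    rw [e1, ← mul_div_assoc, e2, mul_div_assoc]
  have g0 := w (b 2) (b 1) (pp (b 0)) p2 p1 (by rw [hB]; ring) (by linarith)
  have g1 := w (b 0) (b 2) (pp (b 1)) p0 p2 (by rw [hB]; ring) (by linarith)
  have g2 := w (b 0) (b 1) (pp (b 2)) p0 p1 (by rw [hB]) (by linarith)
  have hpr : ∀ x y : ℝ, prt x y * (pp y / B) = (1 - prt x y) * (pp x / B) := by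
    intro x y
    have := prt_mul x y
    have h3 : prt x y * pp y = (1 - prt x y) * pp x := by linear_combination this
    rw [← mul_div_assoc, ← mul_div_assoc, h3]
  let u : Fin 3 → ℝ := ![pp (b 0) / B, pp (b 1) / B, pp (b 2) / B]
  let β : Fin 3 → ℝ := ![bet Z (b 2) (b 1), bet Z (b 0) (b 2), bet Z (b 0) (b 1)]
  let p : Fin 3 → ℝ := ![prt (b 2) (b 1), prt (b 0) (b 2), prt (b 0) (b 1)]
  have u0 : u 0 = pp (b 0) / B := rfl
  have u1 : u 1 = pp (b 1) / B := rfl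
  have u2 : u 2 = pp (b 2) / B := rfl
  have v0 : hgt b 0 = u 0 := by rw [u0, hB]; rfl
  have v1 : hgt b 1 = u 1 := by rw [u1, hB]; rfl
  have v2 : hgt b 2 = u 2 := by rw [u2, hB]; rfl
  rw [v0] at i0
  rw [v1] at i1
  rw [v2] at i2
  have f0 : ∀ k, 0 ≤ u k := by
    intro k
    fin_cases k
    · exact div_nonneg p0 hB0.le
    · exact div_nonneg p1 hB0.le
    · exact div_nonneg p2 hB0.le
  have f1 : u 0 + u 1 + u 2 = 1 := by
    rw [u0, u1, u2, ← add_div, ← add_div, ← hB, div_self hBne]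
  have f2 : Z / B ≤ 1 := by
    rw [div_le_one hB0]
    have : 0 ≤ (1 - c) * v := mul_nonneg (by linarith) hv0
    linarith
  have f3 : 1 - (u 0 * u 1 + u 1 * u 2 + u 0 * u 2) ≤ (1 - Z / B) ^ 2 * (1 + s') := by
    have e1 : 1 - (u 0 * u 1 + u 1 * u 2 + u 0 * u 2) =
        (pp (b 0) ^ 2 + pp (b 1) ^ 2 + pp (b 2) ^ 2 + pp (b 0) * pp (b 1) + pp (b 0) * pp (b 2)
          + pp (b 1) * pp (b 2)) / B ^ 2 := by
      rw [u0, u1, u2, eq_div_iff (pow_ne_zero 2 hBne)]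
      have e3 : pp (b 0) / B * B = pp (b 0) := div_mul_cancel₀ _ hBne
      have e4 : pp (b 1) / B * B = pp (b 1) := div_mul_cancel₀ _ hBne
      have e5 : pp (b 2) / B * B = pp (b 2) := div_mul_cancel₀ _ hBne
      have e6 : (1 - (pp (b 0) / B * (pp (b 1) / B) + pp (b 1) / B * (pp (b 2) / B)
          + pp (b 0) / B * (pp (b 2) / B))) * B ^ 2 =
          B ^ 2 - ((pp (b 0) / B * B) * (pp (b 1) / B * B)
            + (pp (b 1) / B * B) * (pp (b 2) / B * B)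
            + (pp (b 0) / B * B) * (pp (b 2) / B * B)) := by ring
      rw [e6, e3, e4, e5, hB]
      ring
    have e2 : (1 - Z / B) ^ 2 * (1 + s') = (1 + s') * (1 + (1 - c) * v) ^ 2 / B ^ 2 := by
      rw [eq_div_iff (pow_ne_zero 2 hBne), ← hBZ]
      have e3 : (1 - Z / B) * B = B - Z := by
        rw [sub_mul, div_mul_cancel₀ _ hBne, one_mul]
      have e4 : (1 - Z / B) ^ 2 * (1 + s') * B ^ 2 = ((1 - Z / B) * B) ^ 2 * (1 + s') := by ring
      rw [e4, e3]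
      ring
    rw [e1, e2]
    exact div_le_div_of_nonneg_right hpq (by positivity)
  refine ze_max hT (u := u) (β := β) (p := p) (e := Z / B) (s' := s') f0 f1 hs' hs0 f2 f3
    ?_ ?_ ?_ ?_ ?_ ?_ ?_ ?_ i0 i1 i2
  · intro k
    fin_cases k
    exacts [g0.1, g1.1, g2.1]
  · intro k
    fin_cases k
    exacts [g0.2.1, g1.2.1, g2.2.1]
  · intro k
    fin_cases k
    exacts [g0.2.2, g1.2.2, g2.2.2]
  · intro k
    fin_cases k
    exacts [prt_nonneg _ _, prt_nonneg _ _, prt_nonneg _ _]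
  · intro k
    fin_cases k
    exacts [prt_le _ _, prt_le _ _, prt_le _ _]
  · exact hpr (b 2) (b 1)
  · exact hpr (b 0) (b 2)
  · exact hpr (b 0) (b 1)

open Helper80.CW Helper14.CW Pool.Agent.Helper52.MEI

/-- the table of a corner: cells `U` of the height, cells `L` of the direction -/
def tabL3 : ℕ → List ℕ → List ℕ → (ℕ → ℕ) → (ℕ → ℕ) → List (ℕ × List (ℕ × ℕ × ℕ))
  | _, [], _, _, _ => []
  | i, u :: r, L, f, g => (u, tabL2 i L f g) :: tabL3 (i + L.length) r L f g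

theorem Cel_shift {p : ℝ} (m : ℕ) : ∀ {L : List ℕ} {c i Pl : ℕ}, Cel p c i Pl L →
    Cel p (c + m) (i + m) Pl L
  | [], _, _, _, h => h
  | q :: r, c, i, Pl, h => by
    rcases h with ⟨h1, h2, h3⟩ | h
    · exact Or.inl ⟨h1, h2, by rw [h3]⟩
    · have := Cel_shift m h
      rw [show i + 1 + m = i + m + 1 from by omega] at this
      exact Or.inr this

theorem Cel_InC3 {u p : ℝ} {c d : ℕ} {L : List ℕ} (hp : Cel p c 0 0 L) {f g : ℕ → ℕ} :
    ∀ {U : List ℕ} {i Pl : ℕ}, Cel u d i Pl U →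
      InC3 u p (f (c + L.length * d)) (g (c + L.length * d)) Pl (tabL3 (L.length * i) U L f g)
  | [], _, _, h => h
  | q :: r, i, Pl, h => by
    rcases h with ⟨h1, h2, h3⟩ | h
    · refine Or.inl ⟨h1, h2, ?_⟩
      have := Cel_InC2 (f := f) (g := g) (Cel_shift (L.length * i) hp)
      rw [zero_add] at this
      rw [h3]
      exact this
    · have := Cel_InC3 hp (f := f) (g := g) h
      rw [show L.length * (i + 1) = L.length * i + L.length from by ring] at this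
      exact Or.inr this

/-- height of the body point `x` over the corner `k` -/
noncomputable def ucor (a : Fin 4 → E3) (x : E3) (k : Fin 3) : ℝ := hgt (b3 a x) k

/-- the combination, classes with constant part -/
theorem zcomb3 {a : Fin 4 → E3} (hg : Gram4 (al a)) {x : E3} (hx : Pl a x) {X : ℕ} {c s' : ℝ}
    (hq : Qv a 0 x ≤ s') (hc0 : 0 ≤ c) (hc : c ≤ 2 / 5) (hs' : s' * 1000000 ≤ X) (hs0 : 0 ≤ s')
    {L U : List ℕ} {κ σ : Fin 3 → ℕ} (hκ : ∀ k, Cel (pcor a x k) (κ k) 0 0 L)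
    (hσ : ∀ k, Cel (ucor a x k) (σ k) 0 0 U)
    {ι : Type*} (I : Finset ι) {lam : ι → ℝ} (hl : ∀ g ∈ I, 0 ≤ lam g)
    {e d : ι → ℕ → Fin 3 → ℕ} {em : ι → Fin 3 → ℕ} {V : ι → ℕ} {Tr : ι → ZT}
    (hem : ∀ g ∈ I, ∀ q < L.length * U.length, ∀ k, e g q k ≤ em g k)
    (hV : ∀ g ∈ I, em g 0 + em g 1 + em g 2 ≤ V g)
    (hz : ∀ g ∈ I, zchk3 X (V g) (tabL3 0 U L (fun q => e g q 0) fun q => d g q 0)
      (tabL3 0 U L (fun q => e g q 1) fun q => d g q 1)
      (tabL3 0 U L (fun q => e g q 2) fun q => d g q 2) (Tr g)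
      0 0 0 1000000 1000000 1000000 = true)
    {δ : ℝ} (hδ : 0 ≤ δ) {T W : Fin 3 → ℝ}
    (hT : ∀ k, T k ≤ ∑ g ∈ I, lam g * (δ * (e g (κ k + L.length * σ k) k : ℝ)))
    (hW : ∀ k, W k ≤ ∑ g ∈ I, lam g * (δ * (e g (κ k + L.length * σ k) k : ℝ)
      + δ * (d g (κ k + L.length * σ k) k : ℝ))) :
    ((1 - bcor a c x 0) * T 0 + bcor a c x 0 * W 0)
      + ((1 - bcor a c x 1) * T 1 + bcor a c x 1 * W 1)
      + ((1 - bcor a c x 2) * T 2 + bcor a c x 2 * W 2) ≤ ∑ g ∈ I, lam g * (δ * (V g : ℝ)) := by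
  obtain ⟨f1, f2, f3, f4, f5⟩ := body_geo hg hx hq
  obtain ⟨z1, z2, z3⟩ := Zd_le (by linarith : c ≤ 1 / 2) f1 f2 f3 f4
  have b1 : ∀ k, bcor a c x k ≤ 1 := by
    intro k
    fin_cases k
    · exact bet_le_one (u := b3 a x 2) (v := b3 a x 1) (by linarith)
    · exact bet_le_one (u := b3 a x 0) (v := b3 a x 2) (by linarith)
    · exact bet_le_one (u := b3 a x 0) (v := b3 a x 1) (by linarith)
  refine comb_le I hl (β := bcor a c x) (fun k => bet_nonneg _ _ _) b1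
    (P := fun k g => δ * (e g (κ k + L.length * σ k) k : ℝ))
    (D := fun k g => δ * (d g (κ k + L.length * σ k) k : ℝ)) hT hW ?_
  intro g hgs
  have hlt : ∀ k, κ k + L.length * σ k < L.length * U.length := by
    intro k
    have h1 := (Cel_ends (hκ k)).1
    have h2 := (Cel_ends (hσ k)).1
    have h3 : L.length * (σ k + 1) ≤ L.length * U.length := Nat.mul_le_mul_left _ h2
    have h4 : L.length * (σ k + 1) = L.length * σ k + L.length := by ring
    omega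
  have h3 : e g (κ 0 + L.length * σ 0) 0 + e g (κ 1 + L.length * σ 1) 1
      + e g (κ 2 + L.length * σ 2) 2 ≤ V g := by
    have i0 := hem g hgs _ (hlt 0) 0
    have i1 := hem g hgs _ (hlt 1) 1
    have i2 := hem g hgs _ (hlt 2) 2
    exact (add_le_add (add_le_add i0 i1) i2).trans (hV g hgs)
  have j0 := Cel_InC3 (f := fun q => e g q 0) (g := fun q => d g q 0) (hκ 0) (hσ 0)
  have j1 := Cel_InC3 (f := fun q => e g q 1) (g := fun q => d g q 1) (hκ 1) (hσ 1)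
  have j2 := Cel_InC3 (f := fun q => e g q 2) (g := fun q => d g q 2) (hκ 2) (hσ 2)
  rw [mul_zero] at j0 j1 j2
  have t := ze_geo (hz g hgs) f1 f2 f3 f4 hc0 hc hs' hs0 f5 j0 j1 j2 h3
  have t' := mul_le_mul_of_nonneg_left t hδ
  have e0 : bcor a c x 0 = bet (Zd c (-bar a 0 x) (b3 a x)) (b3 a x 2) (b3 a x 1) := rfl
  have e1 : bcor a c x 1 = bet (Zd c (-bar a 0 x) (b3 a x)) (b3 a x 0) (b3 a x 2) := rfl
  have e2 : bcor a c x 2 = bet (Zd c (-bar a 0 x) (b3 a x)) (b3 a x 0) (b3 a x 1) := rfl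
  rw [← e0, ← e1, ← e2] at t'
  beta_reduce at t' ⊢
  linarith

/-- every height lies in a cell -/
theorem ucor_cel {a : Fin 4 → E3} {x : E3} {k : Fin 3} {U : List ℕ} (hU : U ≠ [])
    (hl : U.getLastD 0 = 1000000) : ∃ c, Cel (ucor a x k) c 0 0 U := by
  have p0 := pp_nonneg (b3 a x 0)
  have p1 := pp_nonneg (b3 a x 1)
  have p2 := pp_nonneg (b3 a x 2)
  refine Cel_unit ?_ ?_ hU hl
  · unfold ucor hgt
    exact div_nonneg (pp_nonneg _) (by linarith)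
  · unfold ucor hgt
    refine div_le_one_of_le₀ ?_ (by linarith)
    fin_cases k
    · exact le_add_of_le_of_nonneg (le_add_of_nonneg_right p1) p2
    · exact le_add_of_le_of_nonneg (le_add_of_nonneg_left p0) p2
    · exact le_add_of_nonneg_left (add_nonneg p0 p1)

open Helper60.R7 (jj ll)

/-- meaning of the cell of a height (units `10⁻⁶`) -/
theorem ucor_le {a : Fin 4 → E3} {x : E3} {k : Fin 3} {v : ℕ}
    (h : ucor a x k * 1000000 ≤ (v : ℝ)) :
    (1 - (v : ℝ) / 1000000) * (pp (b3 a x 0) + pp (b3 a x 1) + pp (b3 a x 2)) ≤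
      pp (b3 a x (jj k)) + pp (b3 a x (ll k)) := by
  have p0 := pp_nonneg (b3 a x 0)
  have p1 := pp_nonneg (b3 a x 1)
  have p2 := pp_nonneg (b3 a x 2)
  obtain ⟨B, hB⟩ : ∃ B, B = pp (b3 a x 0) + pp (b3 a x 1) + pp (b3 a x 2) := ⟨_, rfl⟩
  have e : pp (b3 a x (jj k)) + pp (b3 a x (ll k)) = B - pp (b3 a x k) := by
    have key : k = 0 ∨ k = 1 ∨ k = 2 := by
      fin_cases k <;> simp
    have j0 : jj 0 = 2 := rfl
    have l0 : ll 0 = 1 := rfl
    have j1 : jj 1 = 0 := rfl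
    have l1 : ll 1 = 2 := rfl
    have j2 : jj 2 = 0 := rfl
    have l2 : ll 2 = 1 := rfl
    rcases key with rfl | rfl | rfl
    · rw [j0, l0, hB]; ring
    · rw [j1, l1, hB]; ring
    · rw [j2, l2, hB]; ring
  have e2 : ucor a x k = pp (b3 a x k) / B := by
    rw [hB]
    rfl
  rw [e, ← hB]
  rw [e2] at h
  rcases eq_or_lt_of_le (show 0 ≤ B by linarith) with h0 | h0
  · have : pp (b3 a x k) ≤ 0 := by
      have q0 : pp (b3 a x 0) ≤ 0 := by linarith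
      have q1 : pp (b3 a x 1) ≤ 0 := by linarith
      have q2 : pp (b3 a x 2) ≤ 0 := by linarith
      fin_cases k
      exacts [q0, q1, q2]
    rw [← h0]
    linarith
  · have h2 : pp (b3 a x k) / B * 1000000 * B ≤ v * B := mul_le_mul_of_nonneg_right h h0.le
    have h3 : pp (b3 a x k) / B * 1000000 * B = pp (b3 a x k) * 1000000 := by
      field_simp
    rw [h3] at h2
    have : (1 - (v : ℝ) / 1000000) * B = B - v * B / 1000000 := by ring
    rw [this]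
    linarith

open Helper29.MEI (MF V6 V6_pos bw8 bw8_sum bw8_one bw8_nonneg pst pst_nonneg pst_le pst_eq vx0 vx1
  vx2)

/-- **the cost of a face from numbers at the corners of the box, classes `(p, u)`** -/
theorem zlin4 {a : Fin 4 → E3} (hg : Gram4 (al a)) {x : E3} (hx : Pl a x) {X : ℕ} {c s' : ℝ}
    (hq : Qv a 0 x ≤ s') (hc0 : 0 ≤ c) (hc : c ≤ 2 / 5) (hs' : s' * 1000000 ≤ X) (hs0 : 0 ≤ s')
    {L U : List ℕ} {κ σ : Fin 3 → ℕ} (hκ : ∀ k, Cel (pcor a x k) (κ k) 0 0 L)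
    (hσ : ∀ k, Cel (ucor a x k) (σ k) 0 0 U)
    {ι : Type*} (I : Finset ι) {lam : ι → ℝ} (hl : ∀ g ∈ I, 0 ≤ lam g)
    {n : Fin 3 → ℝ} {tt : Fin 3 → ℕ} (hn0 : ∀ k, 0 ≤ n k)
    (hn : ∀ k, n k ≤ (tt k : ℝ) / 1000000)
    {e d : ι → ℕ → ℕ → Fin 3 → ℕ} {em : ι → ℕ → Fin 3 → ℕ}
    {V : ι → ℕ → ℕ} {A : ι → ℕ} {B : ι → Fin 3 → ℕ} {Tr : ι → ℕ → ZT}
    (hck : ∀ g ∈ I, ∀ r < 8, zfck (L.length * U.length) tt (e g r) (em g r) (V g r) (A g) (B g) r
      = true)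
    (hz : ∀ g ∈ I, ∀ r < 8, zchk3 X (V g r)
      (tabL3 0 U L (fun q => e g r q 0) fun q => d g r q 0)
      (tabL3 0 U L (fun q => e g r q 1) fun q => d g r q 1)
      (tabL3 0 U L (fun q => e g r q 2) fun q => d g r q 2) (Tr g r)
      0 0 0 1000000 1000000 1000000 = true)
    {T W : Fin 3 → ℝ}
    (hT : ∀ k, T k ≤ ∑ g ∈ I, ∑ r ∈ Finset.range 8, lam g * wbx tt n r *
      (1 / 10000000000 * (e g r (κ k + L.length * σ k) k : ℝ)))
    (hW : ∀ k, W k ≤ ∑ g ∈ I, ∑ r ∈ Finset.range 8, lam g * wbx tt n r *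
      (1 / 10000000000 * (e g r (κ k + L.length * σ k) k : ℝ)
        + 1 / 10000000000 * (d g r (κ k + L.length * σ k) k : ℝ))) :
    (√2)⁻¹ * (((1 - bcor a c x 0) * T 0 + bcor a c x 0 * W 0)
      + ((1 - bcor a c x 1) * T 1 + bcor a c x 1 * W 1)
      + ((1 - bcor a c x 2) * T 2 + bcor a c x 2 * W 2)) ≤
      ∑ g ∈ I, lam g * ((A g : ℝ) / 1000000000000 + (B g 0 : ℝ) / 1000000000 * n 0
        + (B g 1 : ℝ) / 1000000000 * n 1 + (B g 2 : ℝ) / 1000000000 * n 2) := by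
  have bw : ∀ r, 0 ≤ wbx tt n r := wbx_nonneg hn0 hn
  have key := zcomb3 hg hx hq hc0 hc hs' hs0 hκ hσ (I ×ˢ Finset.range 8)
    (lam := fun g => lam g.1 * wbx tt n g.2)
    (fun g hg' => mul_nonneg (hl _ (Finset.mem_product.1 hg').1) (bw _))
    (e := fun g q k => e g.1 g.2 q k) (d := fun g q k => d g.1 g.2 q k)
    (em := fun g k => em g.1 g.2 k) (V := fun g => V g.1 g.2) (Tr := fun g => Tr g.1 g.2)
    (fun g hg' q hq' k => (zfck_spec (hck g.1 (Finset.mem_product.1 hg').1 g.2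
      (Finset.mem_range.1 (Finset.mem_product.1 hg').2))).1 q hq' k)
    (fun g hg' => (zfck_spec (hck g.1 (Finset.mem_product.1 hg').1 g.2
      (Finset.mem_range.1 (Finset.mem_product.1 hg').2))).2.1)
    (fun g hg' => hz g.1 (Finset.mem_product.1 hg').1 g.2
      (Finset.mem_range.1 (Finset.mem_product.1 hg').2))
    (δ := 1 / 10000000000) (by norm_num) (T := T) (W := W)
    (fun k => by
      refine (hT k).trans (le_of_eq ?_)
      rw [Finset.sum_product])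
    (fun k => by
      refine (hW k).trans (le_of_eq ?_)
      rw [Finset.sum_product])
  have h2 : (14142 / 10000 : ℝ) ≤ √2 := by
    rw [show (14142 / 10000 : ℝ) = √((14142 / 10000) ^ 2) by
      rw [Real.sqrt_sq (by norm_num)]]
    exact Real.sqrt_le_sqrt (by norm_num)
  rw [inv_mul_le_iff₀ (Real.sqrt_pos.2 (by norm_num))]
  refine key.trans ?_
  rw [Finset.sum_product, Finset.mul_sum]
  refine Finset.sum_le_sum fun g hg' => ?_
  have hC0 : 0 ≤ (A g : ℝ) / 1000000000000 + (B g 0 : ℝ) / 1000000000 * n 0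
        + (B g 1 : ℝ) / 1000000000 * n 1 + (B g 2 : ℝ) / 1000000000 * n 2 := by
    have := hn0 0
    have := hn0 1
    have := hn0 2
    positivity
  -- each corner of the box
  have st : ∀ r < 8, 1 / 10000000000 * (V g r : ℝ) ≤
      14142 / 10000 * ((A g : ℝ) / 1000000000000
        + (B g 0 : ℝ) / 1000000000 * ((vxk tt 0 r : ℝ) / 1000000)
        + (B g 1 : ℝ) / 1000000000 * ((vxk tt 1 r : ℝ) / 1000000)
        + (B g 2 : ℝ) / 1000000000 * ((vxk tt 2 r : ℝ) / 1000000)) := by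
    intro r hr
    have h := (zfck_spec (hck g hg' r hr)).2.2
    have h' : 10000 * (100000000 * (V g r : ℝ)) ≤
      14142 * (1000000 * (A g : ℝ) + 1000 * ((B g 0 : ℝ) * (vxk tt 0 r : ℝ)
        + (B g 1 : ℝ) * (vxk tt 1 r : ℝ) + (B g 2 : ℝ) * (vxk tt 2 r : ℝ))) := by
      exact_mod_cast h
    linarith
  have lin := wbx_mean (tt := tt) hn0 hn ((A g : ℝ) / 1000000000000) ((B g 0 : ℝ) / 1000000000)
    ((B g 1 : ℝ) / 1000000000) ((B g 2 : ℝ) / 1000000000) 0 0 0 0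
  simp only [zero_mul, add_zero] at lin
  have fin : ∑ r ∈ Finset.range 8, lam g * wbx tt n r * (1 / 10000000000 * (V g r : ℝ)) ≤
      lam g * (14142 / 10000 * ((A g : ℝ) / 1000000000000 + (B g 0 : ℝ) / 1000000000 * n 0
        + (B g 1 : ℝ) / 1000000000 * n 1 + (B g 2 : ℝ) / 1000000000 * n 2)) := by
    rw [← lin, Finset.mul_sum, Finset.mul_sum]
    refine Finset.sum_le_sum fun r hr => ?_
    have h := mul_le_mul_of_nonneg_left (mul_le_mul_of_nonneg_left (st r (Finset.mem_range.1 hr))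
      (bw r)) (hl g hg')
    linarith
  refine fin.trans ?_
  have h3 := mul_le_mul_of_nonneg_right h2 (mul_nonneg (hl g hg') hC0)
  linarith

end Helper14.MEI4
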