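import Pool.Agent.Helper14.MEI4.ZB
import Pool.Agent.Helper29.MEI.CellB

/-!
# Project MEI (M2), w-term: from formulas of the corners to the cost of a face, linear in the leaks

The corner `k` costs `F0 k (s, S k, n k)` without apex and `Fq q k (s, S k, n k)` with apex in the
class `q` (multi-affine formulas without the terms `s S`, `s S n`). The state `(s, S)` is a convex
combination of vertices `v`, the leaks are in a box. Then the cost of the face is at most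
`Σ lam v (A v + Σ B v k n k)`: one tree check for each vertex and each corner of the box.
-/

set_option autoImplicit false

namespace Helper14.MEI4

open Helper93.MEI Helper78.MEI Helper80.CW Helper14.CW Pool.Agent.Helper52.MEI
open Helper60.R7 (jj ll)
open Helper29.MEI (MF V6 V6_pos bw8 bw8_sum bw8_one bw8_nonneg pst pst_nonneg pst_le pst_eq vx0 vx1
  vx2)

/-- the corner `r` of the box of the leaks, coordinate `k` -/
def vxk (tt : Fin 3 → ℕ) (k : Fin 3) (r : ℕ) : ℕ :=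
  if k = 0 then vx0 0 (tt 0) r else if k = 1 then vx1 0 (tt 1) r else vx2 0 (tt 2) r

/-- check of a formula: no mixed terms in `s`, `S` -/
def mfok (F : MF) : Bool := Nat.beq F.sS 0 && Nat.beq F.sSn 0

/-- check of a vertex `v` (level `sv`, violations `Sv`) and a corner `r` of the box: `d` = the
differences of the classes (units `10⁻¹⁰`), `V` = value of the tree (units `10⁻¹⁰`),
`A` (units `10⁻¹²`), `B` (units `10⁻⁹`) = the cost -/
def zlck (F0 : Fin 3 → MF) (Fq : ℕ → Fin 3 → MF) (nq : ℕ) (tt : Fin 3 → ℕ) (sv : ℕ)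
    (Sv : Fin 3 → ℕ) (d : ℕ → Fin 3 → ℕ) (V A : ℕ) (B : Fin 3 → ℕ) (r : ℕ) : Bool :=
  ((List.range nq).all fun q =>
    Nat.ble ((Fq q 0).nat sv (Sv 0) (vxk tt 0 r))
      ((F0 0).nat sv (Sv 0) (vxk tt 0 r) + 100000000000000 * d q 0) &&
    Nat.ble ((Fq q 1).nat sv (Sv 1) (vxk tt 1 r))
      ((F0 1).nat sv (Sv 1) (vxk tt 1 r) + 100000000000000 * d q 1) &&
    Nat.ble ((Fq q 2).nat sv (Sv 2) (vxk tt 2 r))
      ((F0 2).nat sv (Sv 2) (vxk tt 2 r) + 100000000000000 * d q 2)) &&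
  Nat.ble (10000 * ((F0 0).nat sv (Sv 0) (vxk tt 0 r) + (F0 1).nat sv (Sv 1) (vxk tt 1 r)
      + (F0 2).nat sv (Sv 2) (vxk tt 2 r) + 100000000000000 * V))
    (14142 * (1000000000000 * A + 1000000000 * (B 0 * vxk tt 0 r + B 1 * vxk tt 1 r
      + B 2 * vxk tt 2 r)))

/-- affine in `(s, S)` -/
theorem MF_comb {ι : Type*} (I : Finset ι) {lam : ι → ℝ} (h1 : ∑ g ∈ I, lam g = 1) {F : MF}
    (hF : mfok F = true) (sv Sv : ι → ℝ) (n : ℝ) :
    ∑ g ∈ I, lam g * F.ev (sv g) (Sv g) n =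
      F.ev (∑ g ∈ I, lam g * sv g) (∑ g ∈ I, lam g * Sv g) n := by
  unfold mfok at hF
  simp only [Bool.and_eq_true, Nat.beq_eq] at hF
  obtain ⟨e1, e2⟩ := hF
  unfold MF.ev
  rw [e1, e2]
  have e : ∀ g, lam g * ((F.o : ℝ) / V6 + (F.s : ℝ) / V6 * sv g + (F.S : ℝ) / V6 * Sv g
      + (F.n : ℝ) / V6 * n + ((0 : ℕ) : ℝ) / V6 * (sv g * Sv g) + (F.sn : ℝ) / V6 * (sv g * n)
      + (F.Sn : ℝ) / V6 * (Sv g * n) + ((0 : ℕ) : ℝ) / V6 * (sv g * Sv g * n)) =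
      ((F.o : ℝ) / V6 + (F.n : ℝ) / V6 * n) * lam g
      + ((F.s : ℝ) / V6 + (F.sn : ℝ) / V6 * n) * (lam g * sv g)
      + ((F.S : ℝ) / V6 + (F.Sn : ℝ) / V6 * n) * (lam g * Sv g) := fun g => by
    push_cast
    ring
  simp only [e, Finset.sum_add_distrib, ← Finset.mul_sum, h1]
  push_cast
  ring

/-- affine in `n` -/
theorem MF_box (F : MF) (s S : ℝ) (tt : Fin 3 → ℕ) {p : Fin 3 → ℝ} (k : Fin 3) :
    ∑ r ∈ Finset.range 8, bw8 (p 0) (p 1) (p 2) r * F.ev s S ((vxk tt k r : ℝ) / V6) =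
      F.ev s S (p k * ((tt k : ℝ) / V6)) := by
  rw [bw8_sum]
  have e0 : ∀ r, vxk tt 0 r = vx0 0 (tt 0) r := fun r => rfl
  have e1 : ∀ r, vxk tt 1 r = vx1 0 (tt 1) r := fun r => rfl
  have e2 : ∀ r, vxk tt 2 r = vx2 0 (tt 2) r := fun r => rfl
  have key : k = 0 ∨ k = 1 ∨ k = 2 := by
    fin_cases k <;> simp
  rcases key with rfl | rfl | rfl
  · simp only [e0, vx0]
    norm_num
    unfold MF.ev
    ring
  · simp only [e1, vx1]
    norm_num
    unfold MF.ev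
    ring
  · simp only [e2, vx2]
    norm_num
    unfold MF.ev
    ring

/-- **the cost of a face from the formulas of the corners** -/
theorem zlin {a : Fin 4 → E3} (hg : Gram4 (al a)) {x : E3} (hx : Pl a x) {X : ℕ} {c s' : ℝ}
    (hq : Qv a 0 x ≤ s') (hc0 : 0 ≤ c) (hc : c ≤ 2 / 5) (hs' : s' * 1000000 ≤ X) (hs0 : 0 ≤ s')
    {L : List ℕ} {κ : Fin 3 → ℕ} (hκ : ∀ k, Cel (pcor a x k) (κ k) 0 0 L)
    {ι : Type*} (I : Finset ι) {lam : ι → ℝ} (hl : ∀ g ∈ I, 0 ≤ lam g)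
    (h1 : ∑ g ∈ I, lam g = 1) {sv : ι → ℕ} {Sv : ι → Fin 3 → ℕ} {s : ℝ} {S n : Fin 3 → ℝ}
    (hsv : s = ∑ g ∈ I, lam g * ((sv g : ℝ) / V6))
    (hSv : ∀ k, S k = ∑ g ∈ I, lam g * ((Sv g k : ℝ) / V6))
    {tt : Fin 3 → ℕ} (hn0 : ∀ k, 0 ≤ n k) (hn : ∀ k, n k ≤ (tt k : ℝ) / V6)
    {F0 : Fin 3 → MF} {Fq : ℕ → Fin 3 → MF} (m0 : ∀ k, mfok (F0 k) = true)
    (mq : ∀ q < L.length, ∀ k, mfok (Fq q k) = true)
    {d : ι → ℕ → ℕ → Fin 3 → ℕ} {V : ι → ℕ → ℕ} {A : ι → ℕ} {B : ι → Fin 3 → ℕ}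
    {Tr : ι → ℕ → ZT}
    (hck : ∀ g ∈ I, ∀ r < 8, zlck F0 Fq L.length tt (sv g) (Sv g) (d g r) (V g r) (A g) (B g) r
      = true)
    (hz : ∀ g ∈ I, ∀ r < 8, zchk X (V g r) (tabL 0 L fun q => d g r q 0)
      (tabL 0 L fun q => d g r q 1) (tabL 0 L fun q => d g r q 2) (Tr g r)
      0 0 0 1000000 1000000 1000000 = true)
    {T W : Fin 3 → ℝ} (hT : ∀ k, T k ≤ (F0 k).ev s (S k) (n k))
    (hW : ∀ k, W k ≤ (Fq (κ k) k).ev s (S k) (n k)) :
    (√2)⁻¹ * (((1 - bcor a c x 0) * T 0 + bcor a c x 0 * W 0)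
      + ((1 - bcor a c x 1) * T 1 + bcor a c x 1 * W 1)
      + ((1 - bcor a c x 2) * T 2 + bcor a c x 2 * W 2)) ≤
      ∑ g ∈ I, lam g * ((A g : ℝ) / 1000000000000 + (B g 0 : ℝ) / 1000000000 * n 0
        + (B g 1 : ℝ) / 1000000000 * n 1 + (B g 2 : ℝ) / 1000000000 * n 2) := by
  have hV := V6_pos
  have hV4 : (0 : ℝ) < (V6 : ℝ) ^ 4 := by positivity
  obtain ⟨p, hp⟩ : ∃ p : Fin 3 → ℝ, p = fun k => pst 0 ((tt k : ℝ) / V6) (n k) := ⟨_, rfl⟩
  have p0 : ∀ k, 0 ≤ p k := fun k => by rw [hp]; exact pst_nonneg (hn0 k) (hn k)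
  have p1 : ∀ k, p k ≤ 1 := fun k => by rw [hp]; exact pst_le (hn0 k) (hn k)
  have pn : ∀ k, p k * ((tt k : ℝ) / V6) = n k := fun k => by
    have := pst_eq (hn0 k) (hn k)
    rw [mul_zero, zero_add] at this
    rw [hp]
    exact this
  have bw : ∀ r, 0 ≤ bw8 (p 0) (p 1) (p 2) r :=
    bw8_nonneg (p0 0) (p1 0) (p0 1) (p1 1) (p0 2) (p1 2)
  -- the formulas at the vertices
  have ev : ∀ (F : MF) (k : Fin 3), mfok F = true → F.ev s (S k) (n k) =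
      ∑ g ∈ I ×ˢ Finset.range 8, (lam g.1 * bw8 (p 0) (p 1) (p 2) g.2) *
        (((F.nat (sv g.1) (Sv g.1 k) (vxk tt k g.2) : ℕ) : ℝ) / (V6 : ℝ) ^ 4) := by
    intro F k hF
    rw [Finset.sum_product]
    have e1 : ∀ g ∈ I, ∑ r ∈ Finset.range 8, lam g * bw8 (p 0) (p 1) (p 2) r *
        (((F.nat (sv g) (Sv g k) (vxk tt k r) : ℕ) : ℝ) / (V6 : ℝ) ^ 4) =
        lam g * F.ev ((sv g : ℝ) / V6) ((Sv g k : ℝ) / V6) (n k) := by
      intro g _
      rw [← pn k, ← MF_box F ((sv g : ℝ) / V6) ((Sv g k : ℝ) / V6) tt (p := p) k, Finset.mul_sum]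
      refine Finset.sum_congr rfl fun r _ => ?_
      rw [MF.nat_eq]
      ring
    rw [Finset.sum_congr rfl e1, MF_comb I h1 hF (fun g => (sv g : ℝ) / V6)
      (fun g => (Sv g k : ℝ) / V6), ← hsv, ← hSv k]
  -- the checks in real numbers
  have hc1 : ∀ g ∈ I, ∀ r < 8, ∀ q < L.length, ∀ k,
      (((Fq q k).nat (sv g) (Sv g k) (vxk tt k r) : ℕ) : ℝ) ≤
        (((F0 k).nat (sv g) (Sv g k) (vxk tt k r) : ℕ) : ℝ)
          + 100000000000000 * (d g r q k : ℝ) := by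
    intro g hg' r hr q hq' k
    have h := hck g hg' r hr
    unfold zlck at h
    rw [Bool.and_eq_true] at h
    have h2 := List.all_eq_true.1 h.1 q (List.mem_range.2 hq')
    simp only [Bool.and_eq_true, Nat.ble_eq] at h2
    obtain ⟨⟨a0, a1⟩, a2⟩ := h2
    have key : k = 0 ∨ k = 1 ∨ k = 2 := by
      fin_cases k <;> simp
    rcases key with rfl | rfl | rfl
    · exact_mod_cast a0
    · exact_mod_cast a1
    · exact_mod_cast a2
  have hc2 : ∀ g ∈ I, ∀ r < 8,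
      10000 * ((((F0 0).nat (sv g) (Sv g 0) (vxk tt 0 r) : ℕ) : ℝ)
        + (((F0 1).nat (sv g) (Sv g 1) (vxk tt 1 r) : ℕ) : ℝ)
        + (((F0 2).nat (sv g) (Sv g 2) (vxk tt 2 r) : ℕ) : ℝ) + 100000000000000 * (V g r : ℝ)) ≤
      14142 * (1000000000000 * (A g : ℝ) + 1000000000 * ((B g 0 : ℝ) * (vxk tt 0 r : ℝ)
        + (B g 1 : ℝ) * (vxk tt 1 r : ℝ) + (B g 2 : ℝ) * (vxk tt 2 r : ℝ))) := by
    intro g hg' r hr
    have h := hck g hg' r hr
    unfold zlck at h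
    rw [Bool.and_eq_true, Nat.ble_eq] at h
    exact_mod_cast h.2
  have key := zcomb hg hx hq hc0 hc hs' hs0 hκ (I ×ˢ Finset.range 8)
    (lam := fun g => lam g.1 * bw8 (p 0) (p 1) (p 2) g.2)
    (fun g hg' => mul_nonneg (hl _ (Finset.mem_product.1 hg').1) (bw _))
    (P := fun k g => (((F0 k).nat (sv g.1) (Sv g.1 k) (vxk tt k g.2) : ℕ) : ℝ) / (V6 : ℝ) ^ 4)
    (d := fun q k g => d g.1 g.2 q k) (V := fun g => V g.1 g.2) (Tr := fun g => Tr g.1 g.2)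
    (fun g hg' => hz g.1 (Finset.mem_product.1 hg').1 g.2
      (Finset.mem_range.1 (Finset.mem_product.1 hg').2))
    (δ := 100000000000000 / (V6 : ℝ) ^ 4) (by positivity) (T := T) (W := W)
    (fun k => (hT k).trans (le_of_eq (ev (F0 k) k (m0 k))))
    (fun k => by
      refine (hW k).trans ?_
      rw [ev (Fq (κ k) k) k (mq _ (Cel_ends (hκ k)).1 k)]
      refine Finset.sum_le_sum fun g hg' => mul_le_mul_of_nonneg_left ?_
        (mul_nonneg (hl _ (Finset.mem_product.1 hg').1) (bw _))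
      have := hc1 g.1 (Finset.mem_product.1 hg').1 g.2
        (Finset.mem_range.1 (Finset.mem_product.1 hg').2) _ (Cel_ends (hκ k)).1 k
      beta_reduce
      rw [div_mul_eq_mul_div, ← add_div]
      exact div_le_div_of_nonneg_right this hV4.le)
  have h2 : (14142 / 10000 : ℝ) ≤ √2 := by
    rw [show (14142 / 10000 : ℝ) = √((14142 / 10000) ^ 2) by
      rw [Real.sqrt_sq (by norm_num)]]
    exact Real.sqrt_le_sqrt (by norm_num)
  rw [inv_mul_le_iff₀ (Real.sqrt_pos.2 (by norm_num))]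
  refine key.trans ?_
  rw [Finset.sum_product, Finset.mul_sum]
  refine Finset.sum_le_sum fun g hg' => ?_
  have hC0 : 0 ≤ (A g : ℝ) / 1000000000000 + (B g 0 : ℝ) / 1000000000 * n 0
        + (B g 1 : ℝ) / 1000000000 * n 1 + (B g 2 : ℝ) / 1000000000 * n 2 := by
    have := hn0 0
    have := hn0 1
    have := hn0 2
    positivity
  -- each corner of the box
  have st : ∀ r < 8, (((F0 0).nat (sv g) (Sv g 0) (vxk tt 0 r) : ℕ) : ℝ) / (V6 : ℝ) ^ 4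
      + (((F0 1).nat (sv g) (Sv g 1) (vxk tt 1 r) : ℕ) : ℝ) / (V6 : ℝ) ^ 4
      + (((F0 2).nat (sv g) (Sv g 2) (vxk tt 2 r) : ℕ) : ℝ) / (V6 : ℝ) ^ 4
      + 100000000000000 / (V6 : ℝ) ^ 4 * (V g r : ℝ) ≤
      14142 / 10000 * ((A g : ℝ) / 1000000000000
        + (B g 0 : ℝ) / 1000000000 * ((vxk tt 0 r : ℝ) / V6)
        + (B g 1 : ℝ) / 1000000000 * ((vxk tt 1 r : ℝ) / V6)
        + (B g 2 : ℝ) / 1000000000 * ((vxk tt 2 r : ℝ) / V6)) := by
    intro r hr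
    have h := hc2 g hg' r hr
    rw [div_mul_eq_mul_div, ← add_div, ← add_div, ← add_div, div_le_iff₀ hV4]
    have hV6 : (V6 : ℝ) = 1000000 := by
      norm_num [V6]
    rw [hV6]
    linarith
  have lin : ∑ r ∈ Finset.range 8, bw8 (p 0) (p 1) (p 2) r *
      (14142 / 10000 * ((A g : ℝ) / 1000000000000
        + (B g 0 : ℝ) / 1000000000 * ((vxk tt 0 r : ℝ) / V6)
        + (B g 1 : ℝ) / 1000000000 * ((vxk tt 1 r : ℝ) / V6)
        + (B g 2 : ℝ) / 1000000000 * ((vxk tt 2 r : ℝ) / V6))) =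
      14142 / 10000 * ((A g : ℝ) / 1000000000000 + (B g 0 : ℝ) / 1000000000 * n 0
        + (B g 1 : ℝ) / 1000000000 * n 1 + (B g 2 : ℝ) / 1000000000 * n 2) := by
    have e0 : ∀ r, vxk tt 0 r = vx0 0 (tt 0) r := fun r => rfl
    have e1 : ∀ r, vxk tt 1 r = vx1 0 (tt 1) r := fun r => rfl
    have e2 : ∀ r, vxk tt 2 r = vx2 0 (tt 2) r := fun r => rfl
    rw [bw8_sum, ← pn 0, ← pn 1, ← pn 2]
    simp only [e0, e1, e2, vx0, vx1, vx2]
    norm_num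
    ring
  have fin : ∑ r ∈ Finset.range 8, lam g * bw8 (p 0) (p 1) (p 2) r *
      ((((F0 0).nat (sv g) (Sv g 0) (vxk tt 0 r) : ℕ) : ℝ) / (V6 : ℝ) ^ 4
      + (((F0 1).nat (sv g) (Sv g 1) (vxk tt 1 r) : ℕ) : ℝ) / (V6 : ℝ) ^ 4
      + (((F0 2).nat (sv g) (Sv g 2) (vxk tt 2 r) : ℕ) : ℝ) / (V6 : ℝ) ^ 4
      + 100000000000000 / (V6 : ℝ) ^ 4 * (V g r : ℝ)) ≤
      lam g * (14142 / 10000 * ((A g : ℝ) / 1000000000000 + (B g 0 : ℝ) / 1000000000 * n 0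
        + (B g 1 : ℝ) / 1000000000 * n 1 + (B g 2 : ℝ) / 1000000000 * n 2)) := by
    rw [← lin, Finset.mul_sum]
    refine Finset.sum_le_sum fun r hr => ?_
    rw [mul_assoc]
    exact mul_le_mul_of_nonneg_left (mul_le_mul_of_nonneg_left (st r (Finset.mem_range.1 hr))
      (bw r)) (hl g hg')
  refine fin.trans ?_
  have h3 := mul_le_mul_of_nonneg_right h2 (mul_nonneg (hl g hg') hC0)
  linarith

end Helper14.MEI4
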