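import Pool.Agent.Helper23.MEI.WJ3
import Pool.Agent.Helper14.MEI4.ZF

/-!
# Project MEI (M2), w-term: the cost of a face from the tables, exact combination of the corners

`wcost_facez`: as `wcost_face` of helper23, with any list `Lc` of position cells, one table with
apex per cell, the differences `Dc` of the weights and the tree check of `ZC`.
-/

set_option autoImplicit false

namespace Helper14.MEI4

open Set Metric MeasureTheory Helper80.CW Helper82.CW Helper14.CW Helper93.MEI Helper82.M2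
open Helper14.MEI2 Pool.Agent.Helper52.MEI Pool.Agent.Helper73.MEI Helper37.MEI Helper41.MEI
open Helper33.MEI (Wi Dl tx M3 mt mt_pos M3_pos Dl_meas)
open Pool.Agent.Helper31.SR
open Helper78.MEI
open Pool.Agent.Helper23.MEI.J
open Helper60.R7 (jj ll ch ch_fst ch_snd ch_meas ex_corner U U_pos mtx mt_mtx mt_ch T3_sum T3_pos'
  cap_ch own_ch int_ch M3_ch)
open Helper60.R8 (Row Ld Cor P3 zR zL z3 afr sS)
open Pool.Agent.Helper55.Apex (nc)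
open Pool.Agent.Helper55.Mass (LN LN_nonneg vv vv_nonneg vv_le Id)
open Pool.Agent.Helper55.ApexP (PN alP alP_nonneg)
open Pool.Agent.Helper73.MEI.SideP (flP)
open Pool.Agent.Helper73.MEI.ZEl (coords)
open Pool.Agent.Helper96.Kap (kap)
open scoped RealInnerProductSpace ENNReal

variable {a : Fin 4 → E3} {K : Set E3} {S : Fin 4 → ℝ} {σ : Measure (E3 × E3)}
  {c : Fin 4 → E3} {z : Fin 4 → Fin 4 → E3} {l : Fin 3 → Bool → Bool → E3 × E3 → ℝ}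

section
variable [IsFiniteMeasure σ] (h : CN K σ a c) (v : Viol K a S) (hz : CV a K z)
    (τ : Equiv.Perm (Fin 4)) (hl : Lok a l) {P : Par} {A c0 c1 : ℕ}
    {ρ cN s χ ω g0 g1 φl a0 a1 : ℝ}
    (hP : POk P ((A : ℝ) / U) ρ cN s χ ω g0 g1 φl a0 a1) (hcN10 : 2 / 3 * cN ≤ 1 / 10)
    (hs1 : s ≤ 11 / 1000)
    (hMρ : ∀ p k, k ≠ p → MA σ a l τ p k ≤ ρ)
    {x : E3} (hx : x ∈ K) {N : Fin 3 → Fin 3 → ℝ}
    (hNd : N = NM (fun i => a (τ i)) (fun i j => z (τ i) (τ j)))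
    {ζp : Fin 3 → ℝ} (hζp : ∀ k, 0 < ζp k)
    (hζ : ∀ k, zc (fun i => a (τ i)) N x k ≤ ζp k)
    {φ lam : ℝ} (hφ : 0 < φ) (hφl : φl ≤ φ) (hφu : φ ≤ a0 + a1 * SideP.TN N)
    (hF : ∀ p, ρ ≤ φ * ((A : ℝ) / U * Id (flP (PN N) p)))
    (hl0 : 0 ≤ lam) (hl1 : lam ≤ 1 - φ)
    (hcN : ∀ m, nc N m ≤ cN)
    (hcs : ∀ m, nc N m ^ 2 ≤ 2 * S (τ 0) * (1 + nc N m / 2) ^ 2)
    (hcS : ∀ m : Fin 3, nc N m ^ 2 ≤ 2 * S (τ m.succ) * (1 + nc N m / 2) ^ 2)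
    (hS : ∀ i, S i ≤ s)
    (hX : S (τ 0) + (S (τ 1) + S (τ 2) + S (τ 3)) ≤ (P.X : ℝ) / U6)
    {Sm d0 d1 : ℝ} (hC : IsC Sm d0 d1) (hSm : ∀ k, S k ≤ Sm) (hd : 0 ≤ d1)
    (hd3 : 3 * d1 * (1 + S (τ 0)) ≤ d0) (hd0 : (c0 : ℝ) / U ≤ d0) (hd1 : d1 ≤ (c1 : ℝ) / U)
    {hh : ℕ} {As0 : List Alt} {T0 : Cor} (hT0 : T0.ok A c0 c1 = true) {q0 q1 : ℕ}
    (ht0 : t12ck P As0 0 q0 q1 T0 = true) (hh0 : T0.h = hh)
    {om : ℝ × ℝ → ℝ} {cT : ℝ} (mT : Measurable om) (nT : ∀ t, 0 ≤ om t)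
    (bT : ∃ C, ∀ t, om t ≤ C)
    (pT : ∀ k, TpC a K τ S ((A : ℝ) / U) k ((hh : ℝ) / U)
      (DM ((A : ℝ) / U) N (zc (fun i => a (τ i)) N x) ζp lam
        (fun p t => φ * flP (PN N) p t)
        (fun p t => kap N (vv t) p) (fun _ => 0) (MB σ a l τ)
        (fun j => 1 / qM (fun i => a (τ i)) (fun i j => z (τ i) (τ j)) j)
        (fun p => Pool.Agent.Helper31.SR.am σ a l (τ 0) (τ p.succ))) om)
    (iT : ∫ t in Dl, om t * M3 t ≤ cT)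
include h v hz τ hl hP hcN10 hs1 hMρ hx hNd hζp hζ hφ hφl hφu hF hl0 hl1 hcN hcs hcS hS hX hC hSm hd hd3 hd0 hd1 hT0 ht0 hh0 mT nT bT pT iT

/-- **THE COST OF A FACE FROM THE TABLES**, exact combination of the three corners -/
theorem wcost_facez {Pl : List ℕ} {Dc : List (List ℕ)} {Lc Vl : List ℕ} {Tl : List ZT}
    (hP0 : ∀ v < 12, T0.w v ≤ Pl.getD v 0) (hLc : Lc ≠ []) (hLl : Lc.getLastD 0 = 1000000)
    {As : ℕ → List Alt} {T1 : ℕ → Cor}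
    (k1 : ∀ q < Lc.length, (T1 q).ok A c0 c1 = true)
    (k2 : ∀ q < Lc.length, t12ck P (As q) 1 ((0 :: Lc).getD q 0) (Lc.getD q 0) (T1 q) = true)
    (k3 : ∀ q < Lc.length, (T1 q).h = hh)
    (k4 : ∀ q < Lc.length, ∀ v < 12,
      (T1 q).w v ≤ Pl.getD v 0 + 1000000000000000 * dcv Dc q v)
    {u0 u1 u2 : ℕ} (hf : ∀ g < 12, zckM Pl (Vl.getD g 0) P.X u0 u1 u2 g = true)
    (hT : ∀ g < 12, zckT P.X Lc Dc (Vl.getD g 0) (Tl.getD g (ZT.lf 0)) g = true)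
    (G : ℝ × ℝ → ℝ) :
    WCost a K τ ((A : ℝ) / U) G
      (DM ((A : ℝ) / U) N (zc (fun i => a (τ i)) N x) ζp lam
        (fun p t => φ * flP (PN N) p t)
        (fun p t => kap N (vv t) p) (fun _ => 0) (MB σ a l τ)
        (fun j => 1 / qM (fun i => a (τ i)) (fun i j => z (τ i) (τ j)) j)
        (fun p => Pool.Agent.Helper31.SR.am σ a l (τ 0) (τ p.succ)))
      ((u0 : ℝ) / 1000000000 + (u1 : ℝ) / 1000000000 * S (τ 0)
        + (u2 : ℝ) / 1000000000 * (S (τ 1) + S (τ 2) + S (τ 3)) + (√2)⁻¹ * cT) := by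
  have hUU : (U6 : ℝ) = (U : ℝ) := rfl
  have h' := h.perm τ
  have v' := viol_perm v τ
  have hg := gram_of_dist h'.ha
  obtain ⟨f1, f2, f3, f4, f5⟩ := body_geo hg (h'.hp x hx) (v'.le 0 x hx)
  -- the classes
  have hcl : ∀ k : Fin 3, ∃ q, Cel (prt (b3 (fun i => a (τ i)) x (jj k))
      (b3 (fun i => a (τ i)) x (ll k))) q 0 0 Lc :=
    fun k => Cel_unit (prt_nonneg _ _) (prt_le _ _) hLc hLl
  choose κ hκ using hcl
  have hU6 : (U6 : ℝ) = 1000000 := by norm_num [U6]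
  have e1 : ∀ k, (((0 :: Lc).getD (κ k) 0 : ℕ) : ℝ) / U6 ≤
      prt (b3 (fun i => a (τ i)) x (jj k)) (b3 (fun i => a (τ i)) x (ll k)) := fun k => by
    rw [hU6, div_le_iff₀ (by norm_num)]
    exact (Cel_ends (hκ k)).2.1
  have e2 : ∀ k, prt (b3 (fun i => a (τ i)) x (jj k)) (b3 (fun i => a (τ i)) x (ll k)) ≤
      ((Lc.getD (κ k) 0 : ℕ) : ℝ) / U6 := fun k => by
    rw [hU6, le_div_iff₀ (by norm_num)]
    exact (Cel_ends (hκ k)).2.2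
  have W := wcost_face0 h v hz τ hl hP hcN10 hs1 hMρ hx hNd hζp hζ hφ hφl hφu hF hl0 hl1 hcN hcs
    hcS hS hX hC hSm hd hd3 hd0 hd1 hT0 ht0 hh0 mT nT bT pT iT
    (p0 := fun k => (0 :: Lc).getD (κ k) 0) (p1 := fun k => Lc.getD (κ k) 0)
    (As := fun k => As (κ k)) (T1 := fun k => T1 (κ k)) e1 e2
    (fun k => k1 _ (Cel_ends (hκ k)).1) (fun k => k2 _ (Cel_ends (hκ k)).1)
    (fun k => k3 _ (Cel_ends (hκ k)).1) G
  refine W.mono ?_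
  have key := face_numz (W0 := fun _ v => T0.w v) (W1 := fun k v => (T1 (κ k)).w v) hP.Xp hf hT
    (v.nn (τ 0)) (v.nn (τ 1)) (v.nn (τ 2)) (v.nn (τ 3)) (by linarith) f1 f2 f3 f4
    (c := 2 / 3 * cN) (by have := hP.cN0; linarith) (by linarith) f5 (κ := κ) (hκ 0) (hκ 1) (hκ 2)
    (fun k v hv => hP0 v hv) (fun k v hv => k4 _ (Cel_ends (hκ k)).1 v hv)
  have w0 : ∀ L : ℕ → ℝ, T0.W L =
      ∑ v ∈ Finset.range 12, L v * ((T0.w v : ℝ) / (4 * (U6 : ℝ) ^ 4)) := by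
    intro L
    unfold Cor.W
    rw [(t12ck_iff ht0).1, hUU]
  have w1 : ∀ (k : Fin 3) (L : ℕ → ℝ), (T1 (κ k)).W L =
      ∑ v ∈ Finset.range 12, L v * (((T1 (κ k)).w v : ℝ) / (4 * (U6 : ℝ) ^ 4)) := by
    intro k L
    unfold Cor.W
    rw [(t12ck_iff (k2 _ (Cel_ends (hκ k)).1)).1, hUU]
  rw [w0, w0, w0, w1 0, w1 1, w1 2, mul_add]
  refine add_le_add ?_ le_rfl
  refine le_trans (le_of_eq ?_) key
  rfl

end

end Helper14.MEI4
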